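import Mathlib

/-!
# Covering and packing triangles: basic notions and the exchange lemma
-/

namespace Pool.Agent.Lib.MP_136524_co

open Finset

variable {V : Type*} [DecidableEq V]

/-- Two finite sets are edge-disjoint when they share at most one element. -/
def ED (s t : Finset V) : Prop := ∀ u ∈ s, ∀ v ∈ s, u ∈ t → v ∈ t → u = v

omit [DecidableEq V] in
theorem ED.symm {s t : Finset V} (h : ED s t) : ED t s :=
  fun u hu v hv hu' hv' => h u hu' v hv' hu hv

/-- A packing in the family `F`. -/
def Pk (F M : Finset (Finset V)) : Prop :=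
  M ⊆ F ∧ ∀ s ∈ M, ∀ t ∈ M, s ≠ t → ED s t

/-- A cover of the family `F` by pairs. -/
def Cv (F C : Finset (Finset V)) : Prop :=
  (∀ e ∈ C, e.card = 2) ∧ ∀ t ∈ F, ∃ e ∈ C, e ⊆ t

/-- The edges of a set. -/
abbrev E (t : Finset V) : Finset (Finset V) := t.powersetCard 2

omit [DecidableEq V] in
theorem mem_E {t e : Finset V} : e ∈ E t ↔ e ⊆ t ∧ e.card = 2 := mem_powersetCard

omit [DecidableEq V] in
theorem card_E {t : Finset V} (h : t.card = 3) : (E t).card = 3 := by
  simp [E, card_powersetCard, h]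

/-- The covering number of a family. -/
noncomputable def tau (F : Finset (Finset V)) : ℕ :=
  sInf {n | ∃ C, Cv F C ∧ C.card = n}

omit [DecidableEq V] in
theorem tau_le {F C : Finset (Finset V)} (h : Cv F C) : tau F ≤ C.card :=
  Nat.sInf_le ⟨C, h, rfl⟩

theorem exists_cover {F : Finset (Finset V)} (h3 : ∀ t ∈ F, t.card = 3) :
    ∃ C, Cv F C ∧ C.card = tau F := by
  have : ({n | ∃ C, Cv F C ∧ C.card = n} : Set ℕ).Nonempty := by
    refine ⟨_, F.biUnion E, ⟨?_, ?_⟩, rfl⟩
    · intro e he
      obtain ⟨t, _, ht⟩ := mem_biUnion.1 he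
      exact (mem_E.1 ht).2
    · intro t ht
      have h2 : (E t).Nonempty := by
        rw [← card_pos, card_E (h3 t ht)]; norm_num
      obtain ⟨e, he⟩ := h2
      exact ⟨e, mem_biUnion.2 ⟨t, ht, he⟩, (mem_E.1 he).1⟩
  exact Nat.sInf_mem this

omit [DecidableEq V] in
/-- if two sets are not edge-disjoint they share an edge -/
theorem exists_edge {s t : Finset V} (h : ¬ ED s t) : ∃ e, e ∈ E s ∧ e ∈ E t := by
  classical
  unfold ED at h
  push Not at h
  obtain ⟨u, hu, v, hv, hu', hv', huv⟩ := h
  refine ⟨{u, v}, ?_, ?_⟩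
  · rw [mem_E]; refine ⟨?_, card_pair huv⟩
    intro x hx
    simp only [mem_insert, mem_singleton] at hx
    rcases hx with rfl | rfl <;> assumption
  · rw [mem_E]; refine ⟨?_, card_pair huv⟩
    intro x hx
    simp only [mem_insert, mem_singleton] at hx
    rcases hx with rfl | rfl <;> assumption

omit [DecidableEq V] in
theorem not_ED_of_edge {s t e : Finset V} (h : e ∈ E s) (h' : e ∈ E t) : ¬ ED s t := by
  classical
  intro hd
  rw [mem_E] at h h'
  obtain ⟨u, v, huv, rfl⟩ := card_eq_two.1 h.2
  exact huv (hd u (h.1 (by simp)) v (h.1 (by simp)) (h'.1 (by simp)) (h'.1 (by simp)))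

omit [DecidableEq V] in
theorem not_ED_self {s : Finset V} (h : s.card = 3) : ¬ ED s s := by
  have h2 : (E s).Nonempty := by
    rw [← card_pos, card_E h]; norm_num
  obtain ⟨e, he⟩ := h2
  exact not_ED_of_edge he he

omit [DecidableEq V] in
theorem disjoint_E {s t : Finset V} (h : ED s t) : Disjoint (E s) (E t) := by
  rw [disjoint_left]
  intro e he he'
  exact not_ED_of_edge he he' h

/-- `M` is a packing of maximum weight. -/
structure MaxP (F : Finset (Finset V)) (w : Finset V → ℕ) (M : Finset (Finset V)) : Prop where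
  pk : Pk F M
  max : ∀ N, Pk F N → ∑ x ∈ N, w x ≤ ∑ x ∈ M, w x

theorem exists_MaxP (F : Finset (Finset V)) (w : Finset V → ℕ) : ∃ M, MaxP F w M := by
  classical
  obtain ⟨M, hM, hmax⟩ := (F.powerset.filter (fun M => Pk F M)).exists_max_image
    (fun N => ∑ x ∈ N, w x) ⟨∅, by
      rw [mem_filter, mem_powerset]
      exact ⟨empty_subset _, empty_subset _, fun s hs => absurd hs (notMem_empty s)⟩⟩
  rw [mem_filter] at hM
  refine ⟨M, hM.2, fun N hN => hmax N ?_⟩
  rw [mem_filter, mem_powerset]
  exact ⟨hN.1, hN⟩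

/-- The exchange principle. -/
theorem exchange {F : Finset (Finset V)} {w : Finset V → ℕ} {M : Finset (Finset V)}
    (h3 : ∀ t ∈ F, t.card = 3) (hM : MaxP F w M) {A N : Finset (Finset V)} (hA : A ⊆ M)
    (hN : Pk F N) (hd : ∀ n ∈ N, ∀ m ∈ M, m ∉ A → ED n m) :
    ∑ x ∈ N, w x ≤ ∑ x ∈ A, w x := by
  have hdis : Disjoint (M \ A) N := by
    rw [disjoint_left]
    intro x hx hx'
    rw [mem_sdiff] at hx
    exact not_ED_self (h3 x (hN.1 hx')) (hd x hx' x hx.1 hx.2)
  have hpk : Pk F ((M \ A) ∪ N) := by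
    refine ⟨?_, ?_⟩
    · intro x hx
      rcases mem_union.1 hx with hx | hx
      · exact hM.pk.1 (mem_sdiff.1 hx).1
      · exact hN.1 hx
    · intro s hs t ht hst
      rcases mem_union.1 hs with hs | hs <;> rcases mem_union.1 ht with ht | ht
      · exact hM.pk.2 s (mem_sdiff.1 hs).1 t (mem_sdiff.1 ht).1 hst
      · exact (hd t ht s (mem_sdiff.1 hs).1 (mem_sdiff.1 hs).2).symm
      · exact hd s hs t (mem_sdiff.1 ht).1 (mem_sdiff.1 ht).2
      · exact hN.2 s hs t ht hst
  have h1 := hM.max _ hpk
  rw [sum_union hdis] at h1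
  have h2 : ∑ x ∈ M \ A, w x + ∑ x ∈ A, w x = ∑ x ∈ M, w x := sum_sdiff hA
  omega

/-- `p` is a private triangle of the member `T` of the packing `M`. -/
structure Priv (F : Finset (Finset V)) (w : Finset V → ℕ) (M : Finset (Finset V))
    (T p : Finset V) : Prop where
  memF : p ∈ F
  le : w T ≤ w p
  hit : ¬ ED p T
  ne : p ≠ T
  ed : ∀ T' ∈ M, T' ≠ T → ED p T'

/-- Contradiction from a good replacement of a set of members; the members in `S \ S'`
are given up. -/
theorem replace_false' {F : Finset (Finset V)} {w : Finset V → ℕ} {M : Finset (Finset V)}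
    (h3 : ∀ t ∈ F, t.card = 3) (hM : MaxP F w M)
    {t : Finset V} (ht : t ∈ F) (S S' : Finset (Finset V)) (hS : S ⊆ M) (hS' : S' ⊆ S)
    (htS : ∀ T ∈ M, T ∉ S → ED t T)
    (f : Finset V → Finset V) (hf : ∀ T ∈ S', Priv F w M T (f T))
    (hft : ∀ T ∈ S', ED (f T) t)
    (hff : ∀ T ∈ S', ∀ T' ∈ S', T ≠ T' → ED (f T) (f T'))
    (hlt : ∑ x ∈ S \ S', w x < w t) : False := by
  have hinj : Set.InjOn f S' := by
    intro T hT T' hT' h
    by_contra hne
    have h1 := (hf T hT).ed T' (hS (hS' hT')) (Ne.symm hne)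
    rw [h] at h1
    exact (hf T' hT').hit h1
  have hnot : t ∉ S'.image f := by
    intro h
    obtain ⟨T, hT, rfl⟩ := mem_image.1 h
    exact not_ED_self (h3 _ ht) (hft T hT)
  have hN : Pk F (insert t (S'.image f)) := by
    refine ⟨?_, ?_⟩
    · intro x hx
      rcases mem_insert.1 hx with rfl | hx
      · exact ht
      · obtain ⟨T, hT, rfl⟩ := mem_image.1 hx
        exact (hf T hT).memF
    · intro x hx y hy hxy
      rcases mem_insert.1 hx with h1 | h1 <;> rcases mem_insert.1 hy with h2 | h2
      · exact absurd (h1.trans h2.symm) hxy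
      · obtain ⟨T, hT, rfl⟩ := mem_image.1 h2
        rw [h1]
        exact (hft T hT).symm
      · obtain ⟨T, hT, rfl⟩ := mem_image.1 h1
        rw [h2]
        exact hft T hT
      · obtain ⟨T, hT, rfl⟩ := mem_image.1 h1
        obtain ⟨T', hT', rfl⟩ := mem_image.1 h2
        exact hff T hT T' hT' (fun h => hxy (by rw [h]))
  have h := exchange h3 hM hS hN (by
    intro n hn m hm hmS
    rcases mem_insert.1 hn with rfl | hn
    · exact htS m hm hmS
    · obtain ⟨T, hT, rfl⟩ := mem_image.1 hn
      exact (hf T hT).ed m hm (fun h => hmS (h ▸ (hS' hT))))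
  rw [sum_insert hnot, sum_image hinj] at h
  have h1 : ∑ x ∈ S', w x ≤ ∑ x ∈ S', w (f x) := sum_le_sum (fun T hT => (hf T hT).le)
  have h2 : ∑ x ∈ S \ S', w x + ∑ x ∈ S', w x = ∑ x ∈ S, w x := sum_sdiff hS'
  omega

/-- Contradiction from a good replacement of a set of members. -/
theorem replace_false {F : Finset (Finset V)} {w : Finset V → ℕ} {M : Finset (Finset V)}
    (h3 : ∀ t ∈ F, t.card = 3) (hw : ∀ t ∈ F, 0 < w t) (hM : MaxP F w M)
    {t : Finset V} (ht : t ∈ F) (S : Finset (Finset V)) (hS : S ⊆ M)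
    (htS : ∀ T ∈ M, T ∉ S → ED t T)
    (f : Finset V → Finset V) (hf : ∀ T ∈ S, Priv F w M T (f T))
    (hft : ∀ T ∈ S, ED (f T) t)
    (hff : ∀ T ∈ S, ∀ T' ∈ S, T ≠ T' → ED (f T) (f T')) : False :=
  replace_false' h3 hM ht S S hS Subset.rfl htS f hf hft hff (by
    rw [Finset.sdiff_self, sum_empty]; exact hw t ht)

/-- A system of pairwise edge-disjoint private triangles that is maximal. -/
theorem exists_system (M Pg : Finset (Finset V)) (h3 : ∀ p ∈ Pg, p.card = 3)
    (hmem : ∀ p ∈ Pg, ∃ T ∈ M, ¬ ED p T)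
    (hone : ∀ p ∈ Pg, ∀ T ∈ M, ∀ T' ∈ M, ¬ ED p T → ¬ ED p T' → T = T')
    (hinj : ∀ p ∈ Pg, ∀ p' ∈ Pg, ∀ T ∈ M, ¬ ED p T → ¬ ED p' T → ED p p' → False) :
    ∃ (Q : Finset (Finset V)) (pi : Finset V → Finset V), Q ⊆ M ∧
      (∀ T ∈ Q, pi T ∈ Pg ∧ ¬ ED (pi T) T) ∧
      (∀ T ∈ Q, ∀ T' ∈ Q, T ≠ T' → ED (pi T) (pi T')) ∧
      (∀ p ∈ Pg, ∃ T ∈ Q, ¬ ED p (pi T)) := by
  classical
  obtain ⟨R, hR, hmax⟩ := (Pg.powerset.filter
    (fun R => ∀ s ∈ R, ∀ t ∈ R, s ≠ t → ED s t)).exists_max_image card ⟨∅, by
      rw [mem_filter, mem_powerset]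
      exact ⟨empty_subset _, fun s hs => absurd hs (notMem_empty s)⟩⟩
  rw [mem_filter, mem_powerset] at hR
  set pi : Finset V → Finset V := fun T => if h : ∃ p ∈ R, ¬ ED p T then h.choose else ∅ with hpi
  have hpis : ∀ T, (∃ p ∈ R, ¬ ED p T) → pi T ∈ R ∧ ¬ ED (pi T) T := by
    intro T h
    have : pi T = h.choose := by rw [hpi]; simp only [dif_pos h]
    rw [this]
    exact h.choose_spec
  have hpieq : ∀ p ∈ R, ∀ T ∈ M, ¬ ED p T → pi T = p := by
    intro p hp T hT h
    by_contra hne
    have h1 := hpis T ⟨p, hp, h⟩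
    exact hinj (pi T) (hR.1 h1.1) p (hR.1 hp) T hT h1.2 h (hR.2 _ h1.1 _ hp hne)
  refine ⟨M.filter (fun T => ∃ p ∈ R, ¬ ED p T), pi, filter_subset _ _, ?_, ?_, ?_⟩
  · intro T hT
    have h1 := hpis T (mem_filter.1 hT).2
    exact ⟨hR.1 h1.1, h1.2⟩
  · intro T hT T' hT' hne
    have h1 := hpis T (mem_filter.1 hT).2
    have h2 := hpis T' (mem_filter.1 hT').2
    apply hR.2 _ h1.1 _ h2.1
    intro heq
    rw [← heq] at h2
    exact hne (hone _ (hR.1 h1.1) T (mem_filter.1 hT).1 T' (mem_filter.1 hT').1 h1.2 h2.2)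
  · intro p hp
    have hex : ∃ r ∈ R, ¬ ED p r := by
      by_cases hpR : p ∈ R
      · exact ⟨p, hpR, not_ED_self (h3 p hp)⟩
      · by_contra hcon
        push Not at hcon
        have hle := hmax (insert p R) (by
          rw [mem_filter, mem_powerset]
          refine ⟨insert_subset hp hR.1, ?_⟩
          intro x hx y hy hxy
          rcases mem_insert.1 hx with h1 | h1 <;> rcases mem_insert.1 hy with h2 | h2
          · exact absurd (h1.trans h2.symm) hxy
          · rw [h1]; exact hcon y h2
          · rw [h2]; exact (hcon x h1).symm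
          · exact hR.2 x h1 y h2 hxy)
        rw [card_insert_of_notMem hpR] at hle
        omega
    obtain ⟨r, hr, hpr⟩ := hex
    obtain ⟨T, hT, hrT⟩ := hmem r (hR.1 hr)
    refine ⟨T, mem_filter.2 ⟨hT, r, hr, hrT⟩, ?_⟩
    rw [hpieq r hr T hT hrT]
    exact hpr

/-- A bipartition leaving at most half of the pairs of `W` inside the classes. -/
theorem bip (U : Finset V) : ∀ W : Finset (Finset V), (∀ e ∈ W, e ⊆ U ∧ e.card = 2) →
    ∃ A : Finset V, A ⊆ U ∧ 2 * (W.filter (fun e => e ⊆ A ∨ Disjoint e A)).card ≤ W.card := by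
  induction U using Finset.induction_on with
  | empty =>
    intro W hW
    have : W = ∅ := by
      rw [eq_empty_iff_forall_notMem]
      intro e he
      have h1 := hW e he
      rw [subset_empty] at h1
      rw [h1.1] at h1
      simp at h1
    subst this
    exact ⟨∅, Subset.rfl, by simp⟩
  | insert v U hv ih =>
    intro W hW
    obtain ⟨A, hA, hcard⟩ := ih (W.filter (fun e => v ∉ e)) (by
      intro e he
      rw [mem_filter] at he
      refine ⟨?_, (hW e he.1).2⟩
      intro x hx
      rcases mem_insert.1 ((hW e he.1).1 hx) with rfl | h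
      · exact absurd hx he.2
      · exact h)
    have hvA : v ∉ A := fun h => hv (hA h)
    set N1 := (W.filter (fun e => v ∈ e)).filter (fun e => e ⊆ insert v A) with hN1
    set N2 := (W.filter (fun e => v ∈ e)).filter (fun e => Disjoint e A) with hN2
    have hdis : Disjoint N1 N2 := by
      rw [disjoint_left]
      intro e he he'
      rw [hN1, mem_filter, mem_filter] at he
      rw [hN2, mem_filter] at he'
      have hc := (hW e he.1.1).2
      have hsub : e ⊆ {v} := by
        intro x hx
        rcases mem_insert.1 (he.2 hx) with h | h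
        · rw [h]; simp
        · exact absurd h (disjoint_left.1 he'.2 hx)
      have := card_le_card hsub
      rw [card_singleton] at this
      omega
    have hN12 : N1.card + N2.card ≤ (W.filter (fun e => v ∈ e)).card := by
      rw [← card_union_of_disjoint hdis]
      exact card_le_card (union_subset (filter_subset _ _) (filter_subset _ _))
    have htot : (W.filter (fun e => v ∈ e)).card + (W.filter (fun e => v ∉ e)).card = W.card :=
      card_filter_add_card_filter_not (s := W) (p := fun e => v ∈ e)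
    by_cases hle : N1.card ≤ N2.card
    · refine ⟨insert v A, insert_subset_insert v hA, ?_⟩
      have hsub : W.filter (fun e => e ⊆ insert v A ∨ Disjoint e (insert v A)) ⊆
          N1 ∪ (W.filter (fun e => v ∉ e)).filter (fun e => e ⊆ A ∨ Disjoint e A) := by
        intro e he
        rw [mem_filter] at he
        rw [mem_union]
        by_cases hve : v ∈ e
        · left
          rw [hN1, mem_filter, mem_filter]
          refine ⟨⟨he.1, hve⟩, ?_⟩
          rcases he.2 with h | h
          · exact h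
          · exact absurd (mem_insert_self v A) (disjoint_left.1 h hve)
        · right
          rw [mem_filter, mem_filter]
          refine ⟨⟨he.1, hve⟩, ?_⟩
          rcases he.2 with h | h
          · left
            intro x hx
            rcases mem_insert.1 (h hx) with h1 | h1
            · exact absurd hx (h1 ▸ hve)
            · exact h1
          · right
            exact disjoint_of_subset_right (subset_insert v A) h
      have h1 := card_le_card hsub
      have h2 := card_union_le N1
        ((W.filter (fun e => v ∉ e)).filter (fun e => e ⊆ A ∨ Disjoint e A))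
      omega
    · refine ⟨A, hA.trans (subset_insert v U), ?_⟩
      have hsub : W.filter (fun e => e ⊆ A ∨ Disjoint e A) ⊆
          N2 ∪ (W.filter (fun e => v ∉ e)).filter (fun e => e ⊆ A ∨ Disjoint e A) := by
        intro e he
        rw [mem_filter] at he
        rw [mem_union]
        by_cases hve : v ∈ e
        · left
          rw [hN2, mem_filter, mem_filter]
          refine ⟨⟨he.1, hve⟩, ?_⟩
          rcases he.2 with h | h
          · exact absurd (h hve) hvA
          · exact h
        · right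
          rw [mem_filter, mem_filter]
          exact ⟨⟨he.1, hve⟩, he.2⟩
      have h1 := card_le_card hsub
      have h2 := card_union_le N2
        ((W.filter (fun e => v ∉ e)).filter (fun e => e ⊆ A ∨ Disjoint e A))
      omega

/-- in any bipartition every triangle has an edge inside a class -/
theorem exists_inner {t : Finset V} (ht : t.card = 3) (A : Finset V) :
    ∃ e ∈ E t, e ⊆ A ∨ Disjoint e A := by
  have h : (t ∩ A).card + (t \ A).card = t.card := card_inter_add_card_sdiff t A
  by_cases h2 : 2 ≤ (t ∩ A).card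
  · obtain ⟨e, he, hc⟩ := exists_subset_card_eq h2
    exact ⟨e, mem_E.2 ⟨he.trans inter_subset_left, hc⟩, Or.inl (he.trans inter_subset_right)⟩
  · obtain ⟨e, he, hc⟩ := exists_subset_card_eq (show 2 ≤ (t \ A).card by omega)
    refine ⟨e, mem_E.2 ⟨he.trans sdiff_subset, hc⟩, Or.inr ?_⟩
    rw [disjoint_left]
    intro x hx
    exact (mem_sdiff.1 (he hx)).2

end Pool.Agent.Lib.MP_136524_co
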