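import Pool.Agent.Lib.MP_136524_co.LemII

/-!
# Families of triangles without a `K_4`: the exchange engine
-/

namespace Pool.Agent.Lib.MP_136524_co

open Finset

variable {V : Type*} [DecidableEq V]

/-- the two vertices lie in a common member of the family -/
def Cvd (F : Finset (Finset V)) (x y : V) : Prop := ∃ t ∈ F, x ∈ t ∧ y ∈ t

/-- no four vertices are pairwise covered by the family -/
def K4F (F : Finset (Finset V)) : Prop :=
  ∀ a b c d : V, a ≠ b → a ≠ c → a ≠ d → b ≠ c → b ≠ d → c ≠ d →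
    Cvd F a b → Cvd F a c → Cvd F a d → Cvd F b c → Cvd F b d → Cvd F c d → False

omit [DecidableEq V] in
theorem K4F.mono {F F' : Finset (Finset V)} (hK : K4F F) (h : F' ⊆ F) : K4F F' := by
  have hm : ∀ x y, Cvd F' x y → Cvd F x y := by
    rintro x y ⟨t, ht, hx, hy⟩
    exact ⟨t, h ht, hx, hy⟩
  intro a b c d h1 h2 h3 h4 h5 h6 k1 k2 k3 k4 k5 k6
  exact hK a b c d h1 h2 h3 h4 h5 h6 (hm _ _ k1) (hm _ _ k2) (hm _ _ k3) (hm _ _ k4) (hm _ _ k5)
    (hm _ _ k6)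

variable {F : Finset (Finset V)} {w : Finset V → ℕ} {M : Finset (Finset V)}

omit [DecidableEq V] in
theorem K4F.three (hK : K4F F) {T p t : Finset V} (hT : T ∈ F) (hp : p ∈ F) (ht : t ∈ F)
    {a b c z : V} (hab : a ≠ b) (hac : a ≠ c) (hbc : b ≠ c) (hza : z ≠ a) (hzb : z ≠ b)
    (hzc : z ≠ c) (haT : a ∈ T) (hbT : b ∈ T) (hcT : c ∈ T) (hap : a ∈ p) (hbp : b ∈ p)
    (hzp : z ∈ p) (hct : c ∈ t) (hzt : z ∈ t) : False :=
  hK a b c z hab hac hza.symm hbc hzb.symm hzc.symm ⟨T, hT, haT, hbT⟩ ⟨T, hT, haT, hcT⟩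
    ⟨p, hp, hap, hzp⟩ ⟨T, hT, hbT, hcT⟩ ⟨p, hp, hbp, hzp⟩ ⟨t, ht, hct, hzt⟩

theorem inter_card' {T p : Finset V} (hT : T.card = 3) (hp : p.card = 3) (h : ¬ ED p T)
    (hne : p ≠ T) : (p ∩ T).card = 2 := inter_card hT hp h hne

/-- A triangle with another edge in common with `T` is edge-disjoint from a private triangle. -/
theorem ed_of_nonhead (hK : K4F F) (h3 : ∀ t ∈ F, t.card = 3) {T t p : Finset V} (hT : T ∈ F)
    (ht : t ∈ F) (hp : p ∈ F) (hpT : ¬ ED p T) (hpn : p ≠ T) (htT : ¬ ED t T) (htn : t ≠ T)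
    (hne : t ∩ T ≠ p ∩ T) : ED p t := by
  by_contra hcon
  obtain ⟨a, b, c, z, haT, hbT, hcT, hap, hbp, hzp, hzT, hcp, hab, hac, hbc, hza, hzb, hzc,
    hTall, hpall⟩ := two_common (h3 T hT) (h3 p hp) hpT hpn
  have c1 := inter_card (h3 T hT) (h3 p hp) hpT hpn
  have c2 := inter_card (h3 T hT) (h3 t ht) htT htn
  have hnot : ¬ (a ∈ t ∧ b ∈ t) := by
    rintro ⟨h1, h2⟩
    apply hne
    symm
    apply eq_of_subset_of_card_le
    · intro x hx
      rw [mem_inter] at hx ⊢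
      refine ⟨?_, hx.2⟩
      have e1 := hTall x hx.2
      have e2 := hpall x hx.1
      grind
    · rw [c1, c2]
  unfold ED at hcon htT
  push Not at hcon htT
  obtain ⟨x, hx, y, hy, hxt, hyt, hxy⟩ := hcon
  obtain ⟨u, hu, v, hv, huT, hvT, huv⟩ := htT
  have e1 := hpall x hx
  have e2 := hpall y hy
  have e3 := hTall u huT
  have e4 := hTall v hvT
  have hct : c ∈ t := by grind
  have hzt : z ∈ t := by grind
  exact hK.three hT hp ht hab hac hbc hza hzb hzc haT hbT hcT hap hbp hzp hct hzt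

/-- All private triangles of a member have the same head. -/
theorem heads_eq (hK : K4F F) (h3 : ∀ t ∈ F, t.card = 3) (hw : ∀ t ∈ F, 0 < w t)
    (hM : MaxP F w M) {T p p' : Finset V} (hT : T ∈ M) (hp : Priv F w M T p)
    (hp' : Priv F w M T p') : p ∩ T = p' ∩ T := by
  by_contra hne
  have hED := ed_of_nonhead hK h3 (hM.pk.1 hT) hp'.memF hp.memF hp.hit hp.ne hp'.hit hp'.ne
    (Ne.symm hne)
  have hpp : p ≠ p' := by
    rintro rfl
    exact hne rfl
  have hN : Pk F {p, p'} := by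
    refine ⟨?_, ?_⟩
    · intro x hx
      rw [mem_insert, mem_singleton] at hx
      rcases hx with rfl | rfl
      · exact hp.memF
      · exact hp'.memF
    · intro x hx y hy hxy
      rw [mem_insert, mem_singleton] at hx hy
      rcases hx with h1 | h1 <;> rcases hy with h2 | h2
      · exact absurd (h1.trans h2.symm) hxy
      · rw [h1, h2]; exact hED
      · rw [h1, h2]; exact hED.symm
      · exact absurd (h1.trans h2.symm) hxy
  have := exchange h3 hM (A := {T}) (N := {p, p'}) (singleton_subset_iff.2 hT) hN (by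
    intro n hn m hm hmT
    rw [mem_singleton] at hmT
    rw [mem_insert, mem_singleton] at hn
    rcases hn with rfl | rfl
    · exact hp.ed m hm hmT
    · exact hp'.ed m hm hmT)
  rw [sum_singleton, sum_pair hpp] at this
  have h1 := hp.le
  have h2 := hw p' hp'.memF
  omega

/-- Two private triangles in conflict share an edge at the common vertex of their members. -/
theorem conflict (hK : K4F F) (h3 : ∀ t ∈ F, t.card = 3) (hM : Pk F M)
    {T₁ T₂ p₁ p₂ t : Finset V} (h₁ : T₁ ∈ M) (h₂ : T₂ ∈ M) (hne : T₁ ≠ T₂) (ht : t ∈ F)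
    (hp₁ : Priv F w M T₁ p₁) (hp₂ : Priv F w M T₂ p₂) (ht₁ : ¬ ED t T₁) (ht₂ : ¬ ED t T₂)
    (hc : ¬ ED p₁ p₂) : ∃ a z, a ∈ t ∧ a ∈ T₁ ∧ a ∈ T₂ ∧ a ∈ p₁ ∧ a ∈ p₂ ∧ z ∈ p₁ ∧ z ∈ p₂ ∧
      z ∉ T₁ ∧ z ∉ T₂ := by
  have hF₁ := hM.1 h₁
  have hF₂ := hM.1 h₂
  have hTT : ED T₁ T₂ := hM.2 T₁ h₁ T₂ h₂ hne
  have h12 : ED p₁ T₂ := hp₁.ed T₂ h₂ hne.symm
  have h21 : ED p₂ T₁ := hp₂.ed T₁ h₁ hne
  obtain ⟨a₁, b₁, c₁, z₁, haT₁, hbT₁, hcT₁, hap₁, hbp₁, hzp₁, hzT₁, hcp₁, hab₁, hac₁, hbc₁, hza₁,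
    hzb₁, hzc₁, hTall₁, hpall₁⟩ := two_common (h3 T₁ hF₁) (h3 p₁ hp₁.memF) hp₁.hit hp₁.ne
  obtain ⟨a₂, b₂, c₂, z₂, haT₂, hbT₂, hcT₂, hap₂, hbp₂, hzp₂, hzT₂, hcp₂, hab₂, hac₂, hbc₂, hza₂,
    hzb₂, hzc₂, hTall₂, hpall₂⟩ := two_common (h3 T₂ hF₂) (h3 p₂ hp₂.memF) hp₂.hit hp₂.ne
  -- the common vertex of `t`, `T₁`, `T₂`
  obtain ⟨m, hmt, hm₁, hm₂⟩ : ∃ m, m ∈ t ∧ m ∈ T₁ ∧ m ∈ T₂ := by
    by_contra hcon
    push Not at hcon
    unfold ED at ht₁ ht₂
    push Not at ht₁ ht₂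
    obtain ⟨u, hu, v, hv, hu1, hv1, huv⟩ := ht₁
    obtain ⟨x, hx, y, hy, hx2, hy2, hxy⟩ := ht₂
    have hux : u ≠ x := fun h => hcon u hu hu1 (h ▸ hx2)
    have huy : u ≠ y := fun h => hcon u hu hu1 (h ▸ hy2)
    have hvx : v ≠ x := fun h => hcon v hv hv1 (h ▸ hx2)
    have hvy : v ≠ y := fun h => hcon v hv hv1 (h ▸ hy2)
    rcases mem3 (h3 t ht) hu hv hx huv hux hvx hy with h | h | h
    · exact huy h.symm
    · exact hvy h.symm
    · exact hxy h.symm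
  have huni : ∀ x, x ∈ T₁ → x ∈ T₂ → x = m := fun x h h' => hTT x h m hm₁ h' hm₂
  unfold ED at hc
  push Not at hc
  obtain ⟨x, hx, y, hy, hx', hy', hxy⟩ := hc
  have i1 : ¬ (x ∈ T₁ ∧ y ∈ T₁) := fun h => hxy (h21 x hx' y hy' h.1 h.2)
  have i2 : ¬ (x ∈ T₂ ∧ y ∈ T₂) := fun h => hxy (h12 x hx y hy h.1 h.2)
  have out₁ : ∀ u, u ∈ p₁ → u ∉ T₁ → u = z₁ := by
    intro u hu hu'
    rcases hpall₁ u hu with h | h | h
    · exact absurd (h ▸ haT₁) hu'
    · exact absurd (h ▸ hbT₁) hu'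
    · exact h
  have out₂ : ∀ u, u ∈ p₂ → u ∉ T₂ → u = z₂ := by
    intro u hu hu'
    rcases hpall₂ u hu with h | h | h
    · exact absurd (h ▸ haT₂) hu'
    · exact absurd (h ▸ hbT₂) hu'
    · exact h
  -- the crossed case is impossible
  have cross : ∀ x y : V, x ≠ y → x ∈ p₁ → y ∈ p₁ → x ∈ p₂ → y ∈ p₂ → x ∉ T₁ → x ∈ T₂ → y ∈ T₁ →
      y ∉ T₂ → False := by
    intro x y hxy hx hy hx' hy' n1 n2 n3 n4
    have hxm : x ≠ m := fun h => n1 (h ▸ hm₁)
    have hym : y ≠ m := fun h => n4 (h ▸ hm₂)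
    have hmp : m ∉ p₁ := fun h => hxm (h12 x hx m h n2 hm₂)
    -- the other head vertex
    obtain ⟨h, hhT, hhp, hhy⟩ : ∃ h, h ∈ T₁ ∧ h ∈ p₁ ∧ h ≠ y := by
      by_cases h : a₁ = y
      · exact ⟨b₁, hbT₁, hbp₁, fun h' => hab₁ (h.trans h'.symm)⟩
      · exact ⟨a₁, haT₁, hap₁, h⟩
    have hhm : h ≠ m := fun e => hmp (e ▸ hhp)
    have hxh : x ≠ h := fun e => n1 (e ▸ hhT)
    exact hK.three hF₁ hp₁.memF hF₂ (a := y) (b := h) (c := m) (z := x) hhy.symm hym hhm hxy hxh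
      hxm n3 hhT hm₁ hy hhp hx hm₂ n2
  -- the good case
  have good : ∀ x y : V, x ≠ y → x ∈ p₁ → y ∈ p₁ → x ∈ p₂ → y ∈ p₂ → y ∉ T₁ → y ∉ T₂ →
      m ∈ p₁ ∧ m ∈ p₂ := by
    intro x y hxy hx hy hx' hy' n1 n2
    have k1 : x ∈ T₁ := by
      by_contra h
      exact hxy ((out₁ x hx h).trans (out₁ y hy n1).symm)
    have k2 : x ∈ T₂ := by
      by_contra h
      exact hxy ((out₂ x hx' h).trans (out₂ y hy' n2).symm)
    have := huni x k1 k2
    rw [← this]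
    exact ⟨hx, hx'⟩
  by_cases hx1 : x ∈ T₁
  · have hy1 : y ∉ T₁ := fun h => i1 ⟨hx1, h⟩
    by_cases hy2 : y ∈ T₂
    · have hx2 : x ∉ T₂ := fun h => i2 ⟨h, hy2⟩
      exact (cross y x hxy.symm hy hx hy' hx' hy1 hy2 hx1 hx2).elim
    · obtain ⟨g1, g2⟩ := good x y hxy hx hy hx' hy' hy1 hy2
      exact ⟨m, y, hmt, hm₁, hm₂, g1, g2, hy, hy', hy1, hy2⟩
  · by_cases hx2 : x ∈ T₂
    · have hy2 : y ∉ T₂ := fun h => i2 ⟨hx2, h⟩
      by_cases hy1 : y ∈ T₁
      · exact (cross x y hxy hx hy hx' hy' hx1 hx2 hy1 hy2).elim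
      · obtain ⟨g1, g2⟩ := good x y hxy hx hy hx' hy' hy1 hy2
        exact ⟨m, y, hmt, hm₁, hm₂, g1, g2, hy, hy', hy1, hy2⟩
    · obtain ⟨g1, g2⟩ := good y x hxy.symm hy hx hy' hx' hx1 hx2
      exact ⟨m, x, hmt, hm₁, hm₂, g1, g2, hx, hx', hx1, hx2⟩

theorem out_uniq {T p : Finset V} (hT : T.card = 3) (hp : p.card = 3) (h : ¬ ED p T)
    (hne : p ≠ T) {u v : V} (hu : u ∈ p) (huT : u ∉ T) (hv : v ∈ p) (hvT : v ∉ T) : u = v := by
  have h1 := inter_card hT hp h hne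
  have h2 : (p ∩ T).card + (p \ T).card = p.card := card_inter_add_card_sdiff p T
  have h4 : (p \ T).card = 1 := by omega
  obtain ⟨x, hx⟩ := card_eq_one.1 h4
  have e1 : u ∈ p \ T := mem_sdiff.2 ⟨hu, huT⟩
  have e2 : v ∈ p \ T := mem_sdiff.2 ⟨hv, hvT⟩
  rw [hx, mem_singleton] at e1 e2
  rw [e1, e2]

/-- A set `Kp` of kept (uncovered) edges for the private triangles `Pv`. -/
structure Kept (F : Finset (Finset V)) (w : Finset V → ℕ) (M : Finset (Finset V))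
    (Pv : Finset V → Finset (Finset V)) (Kp : Finset (Finset V)) : Prop where
  priv : ∀ T ∈ M, ∀ p ∈ Pv T, Priv F w M T p
  heads : ∀ T ∈ M, ∀ p ∈ Pv T, ∀ p' ∈ Pv T, p ∩ T = p' ∩ T
  sub : Kp ⊆ M.biUnion E
  nonempty : ∀ g ∈ Kp, ∀ T ∈ M, g ∈ E T → (Pv T).Nonempty
  nonhead : ∀ g ∈ Kp, ∀ T ∈ M, g ∈ E T → ∀ p ∈ Pv T, g ≠ p ∩ T
  uniq : ∀ g₁ ∈ Kp, ∀ g₂ ∈ Kp, ∀ T₁ ∈ M, ∀ T₂ ∈ M, T₁ ≠ T₂ → g₁ ∈ E T₁ → g₂ ∈ E T₂ →
    (Pv T₁).card = 1 → (Pv T₂).card = 1 → ∀ p₁ ∈ Pv T₁, ∀ p₂ ∈ Pv T₂, ∀ a z, a ∈ g₁ → a ∈ g₂ →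
    a ∈ p₁ → a ∈ p₂ → z ∈ p₁ → z ∈ p₂ → z ∉ T₁ → z ∉ T₂ → False

/-- The engine: a choice of pairwise edge-disjoint private triangles. -/
theorem engine (hK : K4F F) (h3 : ∀ t ∈ F, t.card = 3) (hM : Pk F M)
    {Pv : Finset V → Finset (Finset V)} {Kp : Finset (Finset V)} (hKp : Kept F w M Pv Kp)
    {t : Finset V} (ht : t ∈ F) {S : Finset (Finset V)} (hS : S ⊆ M)
    (hne : ∀ T ∈ S, t ≠ T) (hit : ∀ T ∈ S, ¬ ED t T) (hkp : ∀ T ∈ S, t ∩ T ∈ Kp) :
    ∃ f : Finset V → Finset V, (∀ T ∈ S, f T ∈ Pv T) ∧ (∀ T ∈ S, ED (f T) t) ∧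
      ∀ T ∈ S, ∀ T' ∈ S, T ≠ T' → ED (f T) (f T') := by
  classical
  have h3M : ∀ T ∈ M, T.card = 3 := fun T hT => h3 T (hM.1 hT)
  have hcap : ∀ T ∈ S, (t ∩ T).card = 2 := fun T hT =>
    inter_card (h3M T (hS hT)) (h3 t ht) (hit T hT) (hne T hT)
  have hcapE : ∀ T ∈ S, t ∩ T ∈ E T := fun T hT => mem_E.2 ⟨inter_subset_right, hcap T hT⟩
  have hnh : ∀ T ∈ S, ∀ p ∈ Pv T, t ∩ T ≠ p ∩ T := fun T hT p hp =>
    hKp.nonhead _ (hkp T hT) T (hS hT) (hcapE T hT) p hp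
  have hEDt : ∀ T ∈ S, ∀ p ∈ Pv T, ED p t := fun T hT p hp =>
    ed_of_nonhead hK h3 (hM.1 (hS hT)) ht (hKp.priv T (hS hT) p hp).memF
      (hKp.priv T (hS hT) p hp).hit (hKp.priv T (hS hT) p hp).ne (hit T hT) (hne T hT)
      (hnh T hT p hp)
  have hnon : ∀ T ∈ S, (Pv T).Nonempty := fun T hT =>
    hKp.nonempty _ (hkp T hT) T (hS hT) (hcapE T hT)
  set SU := S.filter (fun T => (Pv T).card = 1) with hSU
  set SD := S.filter (fun T => ¬ (Pv T).card = 1) with hSD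
  have hSUD : SU ∪ SD = S := filter_union_filter_not_eq _ _
  -- induction over the members with several private triangles
  have key : ∀ B : Finset (Finset V), B ⊆ SD → ∃ f : Finset V → Finset V,
      (∀ T ∈ SU ∪ B, f T ∈ Pv T) ∧
      ∀ T ∈ SU ∪ B, ∀ T' ∈ SU ∪ B, T ≠ T' → ED (f T) (f T') := by
    intro B
    induction B using Finset.induction_on with
    | empty =>
      intro _
      refine ⟨fun T => if h : (Pv T).Nonempty then h.choose else ∅, ?_, ?_⟩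
      · intro T hT
        rw [union_empty] at hT
        have h := hnon T (mem_filter.1 hT).1
        simp only [dif_pos h]
        exact h.choose_spec
      · intro T hT T' hT' hTT
        rw [union_empty] at hT hT'
        obtain ⟨hTS, hT1⟩ := mem_filter.1 hT
        obtain ⟨hTS', hT1'⟩ := mem_filter.1 hT'
        have h := hnon T hTS
        have h' := hnon T' hTS'
        simp only [dif_pos h, dif_pos h']
        by_contra hcon
        have q := h.choose_spec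
        have q' := h'.choose_spec
        obtain ⟨a, z, hat, haT, haT', hap, hap', hzp, hzp', hzT, hzT'⟩ := conflict hK h3 hM
          (hS hTS) (hS hTS') hTT ht (hKp.priv T (hS hTS) _ q) (hKp.priv T' (hS hTS') _ q')
          (hit T hTS) (hit T' hTS') hcon
        exact hKp.uniq _ (hkp T hTS) _ (hkp T' hTS') T (hS hTS) T' (hS hTS') hTT (hcapE T hTS)
          (hcapE T' hTS') hT1 hT1' _ q _ q' a z (mem_inter.2 ⟨hat, haT⟩) (mem_inter.2 ⟨hat, haT'⟩)
          hap hap' hzp hzp' hzT hzT'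
    | insert T₀ B hT₀ ih =>
      intro hB
      obtain ⟨f, hf1, hf2⟩ := ih (fun x hx => hB (mem_insert_of_mem hx))
      obtain ⟨hT₀S, hT₀c⟩ := mem_filter.1 (hB (mem_insert_self T₀ B))
      have hT₀A : T₀ ∉ SU ∪ B := by
        rw [mem_union, not_or]
        exact ⟨fun h => hT₀c (mem_filter.1 h).2, hT₀⟩
      have hAS : ∀ T ∈ SU ∪ B, T ∈ S := by
        intro T hT
        rcases mem_union.1 hT with h | h
        · exact (mem_filter.1 h).1
        · exact (mem_filter.1 (hB (mem_insert_of_mem h))).1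
      have hpriv : ∀ T ∈ S, ∀ p ∈ Pv T, Priv F w M T p := fun T hT p hp =>
        hKp.priv T (hS hT) p hp
      obtain ⟨p, hp, hpED⟩ : ∃ p ∈ Pv T₀, ∀ T ∈ SU ∪ B, ED p (f T) := by
        by_contra hcon
        push Not at hcon
        have hcard : 1 < (Pv T₀).card := by
          have := card_pos.2 (hnon T₀ hT₀S)
          omega
        obtain ⟨p₁, hp₁, p₂, hp₂, hpp⟩ := one_lt_card.1 hcard
        obtain ⟨T₁, hT₁, hc₁⟩ := hcon p₁ hp₁
        obtain ⟨T₂, hT₂, hc₂⟩ := hcon p₂ hp₂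
        have ne₁ : T₀ ≠ T₁ := fun h => hT₀A (h ▸ hT₁)
        have ne₂ : T₀ ≠ T₂ := fun h => hT₀A (h ▸ hT₂)
        obtain ⟨a₁, z₁, ha₁t, ha₁T₀, ha₁T₁, ha₁p, ha₁f, hz₁p, hz₁f, hz₁T₀, hz₁T₁⟩ :=
          conflict hK h3 hM (hS hT₀S) (hS (hAS T₁ hT₁)) ne₁ ht (hpriv T₀ hT₀S p₁ hp₁)
            (hpriv T₁ (hAS T₁ hT₁) _ (hf1 T₁ hT₁)) (hit T₀ hT₀S) (hit T₁ (hAS T₁ hT₁)) hc₁
        obtain ⟨a₂, z₂, ha₂t, ha₂T₀, ha₂T₂, ha₂p, ha₂f, hz₂p, hz₂f, hz₂T₀, hz₂T₂⟩ :=
          conflict hK h3 hM (hS hT₀S) (hS (hAS T₂ hT₂)) ne₂ ht (hpriv T₀ hT₀S p₂ hp₂)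
            (hpriv T₂ (hAS T₂ hT₂) _ (hf1 T₂ hT₂)) (hit T₀ hT₀S) (hit T₂ (hAS T₂ hT₂)) hc₂
        -- the heads of `p₁` and `p₂` agree as edges of `T₀` through the kept edge
        have hc0 := hcap T₀ hT₀S
        have hk₁ := hpriv T₀ hT₀S p₁ hp₁
        have hk₂ := hpriv T₀ hT₀S p₂ hp₂
        have hi₁ := inter_card (h3M T₀ (hS hT₀S)) (h3 p₁ hk₁.memF) hk₁.hit hk₁.ne
        have hi₂ := inter_card (h3M T₀ (hS hT₀S)) (h3 p₂ hk₂.memF) hk₂.hit hk₂.ne
        have hn₁ := hnh T₀ hT₀S p₁ hp₁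
        have hhd := hKp.heads T₀ (hS hT₀S) p₁ hp₁ p₂ hp₂
        have haa : a₁ = a₂ := by
          by_contra haa
          apply hn₁
          have e1 : ({a₁, a₂} : Finset V) = p₁ ∩ T₀ := by
            apply eq_of_subset_of_card_le
            · intro x hx
              rw [mem_insert, mem_singleton] at hx
              rcases hx with rfl | rfl
              · exact mem_inter.2 ⟨ha₁p, ha₁T₀⟩
              · rw [hhd]; exact mem_inter.2 ⟨ha₂p, ha₂T₀⟩
            · rw [hi₁, card_pair haa]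
          have e2 : ({a₁, a₂} : Finset V) = t ∩ T₀ := by
            apply eq_of_subset_of_card_le
            · intro x hx
              rw [mem_insert, mem_singleton] at hx
              rcases hx with rfl | rfl
              · exact mem_inter.2 ⟨ha₁t, ha₁T₀⟩
              · exact mem_inter.2 ⟨ha₂t, ha₂T₀⟩
            · rw [hc0, card_pair haa]
          rw [← e1, ← e2]
        subst haa
        have hTT : T₁ = T₂ := by
          by_contra hTT
          have d01 : ED T₀ T₁ := hM.2 T₀ (hS hT₀S) T₁ (hS (hAS T₁ hT₁)) ne₁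
          have d02 : ED T₀ T₂ := hM.2 T₀ (hS hT₀S) T₂ (hS (hAS T₂ hT₂)) ne₂
          have d12 : ED T₁ T₂ := hM.2 T₁ (hS (hAS T₁ hT₁)) T₂ (hS (hAS T₂ hT₂)) hTT
          have ex : ∀ T ∈ S, ∃ x, x ∈ t ∧ x ∈ T ∧ x ≠ a₁ := by
            intro T hT
            have hit' := hit T hT
            unfold ED at hit'
            push Not at hit'
            obtain ⟨u, hu, v, hv, hu', hv', huv⟩ := hit'
            by_cases h : u = a₁
            · exact ⟨v, hv, hv', fun h' => huv (h.trans h'.symm)⟩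
            · exact ⟨u, hu, hu', h⟩
          obtain ⟨x₀, hx₀t, hx₀T, hx₀a⟩ := ex T₀ hT₀S
          obtain ⟨x₁, hx₁t, hx₁T, hx₁a⟩ := ex T₁ (hAS T₁ hT₁)
          obtain ⟨x₂, hx₂t, hx₂T, hx₂a⟩ := ex T₂ (hAS T₂ hT₂)
          have n01 : x₀ ≠ x₁ := by
            rintro rfl
            exact hx₀a (d01 x₀ hx₀T a₁ ha₁T₀ hx₁T ha₁T₁)
          have n02 : x₀ ≠ x₂ := by
            rintro rfl
            exact hx₀a (d02 x₀ hx₀T a₁ ha₁T₀ hx₂T ha₂T₂)
          have n12 : x₁ ≠ x₂ := by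
            rintro rfl
            exact hx₁a (d12 x₁ hx₁T a₁ ha₁T₁ hx₂T ha₂T₂)
          rcases mem3 (h3 t ht) ha₁t hx₀t hx₁t hx₀a.symm hx₁a.symm n01 hx₂t with h | h | h
          · exact hx₂a h
          · exact n02 h.symm
          · exact n12 h.symm
        subst hTT
        have hkf := hpriv T₁ (hAS T₁ hT₁) _ (hf1 T₁ hT₁)
        have hzz : z₁ = z₂ := out_uniq (h3M T₁ (hS (hAS T₁ hT₁))) (h3 _ hkf.memF) hkf.hit hkf.ne
          hz₁f hz₁T₁ hz₂f hz₂T₂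
        subst hzz
        apply hpp
        have sub : ∀ p q : Finset V, Priv F w M T₀ p → p ∩ T₀ = q ∩ T₀ → z₁ ∈ p → z₁ ∈ q →
            p ⊆ q := by
          intro p q hp hpq hzp hzq x hx
          by_cases hxT : x ∈ T₀
          · have : x ∈ q ∩ T₀ := by rw [← hpq]; exact mem_inter.2 ⟨hx, hxT⟩
            exact (mem_inter.1 this).1
          · rw [out_uniq (h3M T₀ (hS hT₀S)) (h3 _ hp.memF) hp.hit hp.ne hx hxT hzp hz₁T₀]
            exact hzq
        exact Subset.antisymm (sub p₁ p₂ hk₁ hhd hz₁p hz₂p) (sub p₂ p₁ hk₂ hhd.symm hz₂p hz₁p)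
      have hneT : ∀ T ∈ SU ∪ B, T ≠ T₀ := by
        rintro T hT rfl
        exact hT₀A hT
      refine ⟨Function.update f T₀ p, ?_, ?_⟩
      · intro T hT
        rw [union_insert, mem_insert] at hT
        rcases hT with rfl | hT
        · rw [Function.update_self]; exact hp
        · rw [Function.update_of_ne (hneT T hT)]
          exact hf1 T hT
      · intro T hT T' hT' hTT
        rw [union_insert, mem_insert] at hT hT'
        rcases hT with h | hT <;> rcases hT' with h' | hT'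
        · exact absurd (h.trans h'.symm) hTT
        · rw [h, Function.update_self, Function.update_of_ne (hneT T' hT')]
          exact hpED T' hT'
        · rw [h', Function.update_self, Function.update_of_ne (hneT T hT)]
          exact (hpED T hT).symm
        · rw [Function.update_of_ne (hneT T hT),
            Function.update_of_ne (hneT T' hT')]
          exact hf2 T hT T' hT' hTT
  obtain ⟨f, hf1, hf2⟩ := key SD Subset.rfl
  rw [hSUD] at hf1 hf2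
  exact ⟨f, hf1, fun T hT => hEDt T hT _ (hf1 T hT), hf2⟩

/-- the members of `E(M)` -/
theorem card_biUnion_E (h3 : ∀ t ∈ F, t.card = 3) {A : Finset (Finset V)} (hA : A ⊆ F) :
    (A.biUnion E).card ≤ 3 * A.card := by
  refine card_biUnion_le.trans ?_
  rw [sum_congr rfl (fun T hT => card_E (h3 T (hA hT))), sum_const, smul_eq_mul, mul_comm]

/-- **Bound (a).** -/
theorem boundA (hK : K4F F) (h3 : ∀ t ∈ F, t.card = 3) (hw : ∀ t ∈ F, 0 < w t) (hM : MaxP F w M)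
    {Pv : Finset V → Finset (Finset V)} {Kp : Finset (Finset V)} (hKp : Kept F w M Pv Kp) :
    tau F + Kp.card ≤ 3 * M.card := by
  classical
  have h3M : ∀ T ∈ M, T.card = 3 := fun T hT => h3 T (hM.pk.1 hT)
  have hCv : Cv F (M.biUnion E \ Kp) := by
    refine ⟨?_, ?_⟩
    · intro e he
      obtain ⟨T, _, he⟩ := mem_biUnion.1 (mem_sdiff.1 he).1
      exact (mem_E.1 he).2
    · intro t ht
      by_contra hcon
      push Not at hcon
      have hin : ∀ e ∈ E t, e ∈ M.biUnion E → e ∈ Kp := by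
        intro e he heM
        by_contra h
        exact hcon e (mem_sdiff.2 ⟨heM, h⟩) (mem_E.1 he).1
      set S := M.filter (fun T => ¬ ED t T) with hS
      have hSM : S ⊆ M := filter_subset _ _
      have htne : ∀ T ∈ S, t ≠ T := by
        intro T hT
        rintro rfl
        have htM := hSM hT
        have hall : ∀ e ∈ E t, e ∈ Kp := fun e he => hin e he (mem_biUnion.2 ⟨t, htM, he⟩)
        obtain ⟨e, he⟩ : (E t).Nonempty := by rw [← card_pos, card_E (h3 t ht)]; norm_num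
        obtain ⟨p, hp⟩ := hKp.nonempty e (hall e he) t htM he
        have hpr := hKp.priv t htM p hp
        have hi := inter_card (h3M t htM) (h3 p hpr.memF) hpr.hit hpr.ne
        have hpe : p ∩ t ∈ E t := mem_E.2 ⟨inter_subset_right, hi⟩
        exact hKp.nonhead _ (hall _ hpe) t htM hpe p hp rfl
      obtain ⟨f, hf1, hf2, hf3⟩ := engine hK h3 hM.pk hKp ht hSM htne
        (fun T hT => (mem_filter.1 hT).2)
        (by
          intro T hT
          obtain ⟨e, he, heT⟩ := exists_edge (mem_filter.1 hT).2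
          rw [edge_unique (h3M T (hSM hT)) (h3 t ht) (htne T hT) he heT]
          exact hin e he (mem_biUnion.2 ⟨T, hSM hT, heT⟩))
      exact replace_false h3 hw hM ht S hSM
        (fun T hT hTS => by
          by_contra h
          exact hTS (mem_filter.2 ⟨hT, h⟩)) f
        (fun T hT => hKp.priv T (hSM hT) _ (hf1 T hT)) hf2 hf3
  have h1 := tau_le hCv
  have h2 := card_biUnion_E h3 hM.pk.1
  have h4 := card_sdiff_add_card_eq_card hKp.sub
  omega

end Pool.Agent.Lib.MP_136524_co
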