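import Pool.Agent.Lib.MP_136524_co.FreeEngine

/-!
# Construction of the kept edges
-/

namespace Pool.Agent.Lib.MP_136524_co

open Finset

variable {V : Type*} [DecidableEq V]
variable {F : Finset (Finset V)} {w : Finset V → ℕ} {M : Finset (Finset V)}

/-- the outside edges of a private triangle `p` of `T` -/
def outs (T p : Finset V) : Finset (Finset V) := (E p).erase (p ∩ T)

/-- the outside edges of the unique private triangles -/
def outN (M : Finset (Finset V)) (Pv : Finset V → Finset (Finset V)) : Finset (Finset V) :=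
  (M.filter (fun T => (Pv T).card = 1)).biUnion (fun T => (Pv T).biUnion (outs T))

theorem mem_outs {T p e : Finset V} : e ∈ outs T p ↔ e ≠ p ∩ T ∧ e ⊆ p ∧ e.card = 2 := by
  unfold outs
  rw [mem_erase, mem_E]

/-- the apex lies in every outside edge -/
theorem apex_mem_outs {T p e : Finset V} (hT : T.card = 3) (hp : p.card = 3) (h : ¬ ED p T)
    (hne : p ≠ T) (he : e ∈ outs T p) {z : V} (hz : z ∈ p) (hzT : z ∉ T) : z ∈ e := by
  rw [mem_outs] at he
  by_contra hze
  apply he.1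
  apply eq_of_subset_of_card_le
  · intro x hx
    rw [mem_inter]
    refine ⟨he.2.1 hx, ?_⟩
    by_contra hxT
    exact hze ((out_uniq hT hp h hne hz hzT (he.2.1 hx) hxT) ▸ hx)
  · rw [inter_card hT hp h hne, he.2.2]

theorem exists_kept (h3 : ∀ t ∈ F, t.card = 3) (hM : Pk F M) (Pv : Finset V → Finset (Finset V))
    (hpriv : ∀ T ∈ M, ∀ p ∈ Pv T, Priv F w M T p)
    (hheads : ∀ T ∈ M, ∀ p ∈ Pv T, ∀ p' ∈ Pv T, p ∩ T = p' ∩ T) :
    ∃ Kp : Finset (Finset V), Kept F w M Pv Kp ∧
      2 * (M.filter (fun T => 2 ≤ (Pv T).card)).card + (outN M Pv).card ≤ Kp.card := by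
  classical
  have h3M : ∀ T ∈ M, T.card = 3 := fun T hT => h3 T (hM.1 hT)
  have hsame : ∀ T ∈ M, ∀ T' ∈ M, ∀ e, e ∈ E T → e ∈ E T' → T = T' := by
    intro T hT T' hT' e he he'
    by_contra hne
    exact not_ED_of_edge he he' (hM.2 T hT T' hT' hne)
  set D := M.filter (fun T => 2 ≤ (Pv T).card) with hD
  set N := outN M Pv with hN
  have hch : ∀ e, e ∈ N → ∃ T p, T ∈ M ∧ (Pv T).card = 1 ∧ p ∈ Pv T ∧ e ∈ outs T p := by
    intro e he
    rw [hN, outN] at he
    obtain ⟨T, hT, he⟩ := mem_biUnion.1 he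
    obtain ⟨p, hp, he⟩ := mem_biUnion.1 he
    exact ⟨T, p, (mem_filter.1 hT).1, (mem_filter.1 hT).2, hp, he⟩
  choose! ch cp hcp using hch
  set cor : Finset V → Finset V := fun e => (ch e \ cp e) ∪ (e ∩ ch e) with hcor
  have hcor_mem : ∀ e x, x ∈ cor e ↔ (x ∈ ch e ∧ x ∉ cp e) ∨ (x ∈ e ∧ x ∈ ch e) := by
    intro e x
    simp only [hcor, mem_union, mem_sdiff, mem_inter]
  -- facts on `cor e`
  have hsubT : ∀ e ∈ N, cor e ⊆ ch e := by
    intro e he x hx
    rcases (hcor_mem e x).1 hx with h | h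
    · exact h.1
    · exact h.2
  have hiv : ∀ e ∈ N, ∀ a, a ∈ cor e → a ∈ cp e → a ∈ e := by
    intro e he a ha hap
    rcases (hcor_mem e a).1 ha with h | h
    · exact absurd hap h.2
    · exact h.1
  have hv : ∀ e ∈ N, ∀ z, z ∈ cp e → z ∉ ch e → z ∈ e := by
    intro e he z hz hzT
    obtain ⟨k1, k2, k3, k4⟩ := hcp e he
    have hp := hpriv _ k1 _ k3
    exact apex_mem_outs (h3M _ k1) (h3 _ hp.memF) hp.hit hp.ne k4 hz hzT
  have hcard2 : ∀ e ∈ N, (cor e).card = 2 := by
    intro e he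
    obtain ⟨k1, k2, k3, k4⟩ := hcp e he
    have hp := hpriv _ k1 _ k3
    obtain ⟨a, b, c, z, haT, hbT, hcT, hap, hbp, hzp, hzT, hcp', hab, hac, hbc, hza, hzb, hzc,
      hTall, hpall⟩ := two_common (h3M _ k1) (h3 _ hp.memF) hp.hit hp.ne
    have k5 := mem_outs.1 k4
    have hze := hv e he z hzp hzT
    have e1 : (ch e \ cp e).card = 1 := by
      rw [card_eq_one]
      refine ⟨c, ?_⟩
      ext x
      rw [mem_sdiff, mem_singleton]
      constructor
      · rintro ⟨h1, h2⟩
        rcases hTall x h1 with h | h | h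
        · exact absurd (h ▸ hap) h2
        · exact absurd (h ▸ hbp) h2
        · exact h
      · rintro rfl
        exact ⟨hcT, hcp'⟩
    have e2 : (e ∩ ch e).card + (e \ ch e).card = e.card := card_inter_add_card_sdiff e (ch e)
    have e3 : (e \ ch e).card = 1 := by
      rw [card_eq_one]
      refine ⟨z, ?_⟩
      ext x
      rw [mem_sdiff, mem_singleton]
      constructor
      · rintro ⟨h1, h2⟩
        rcases hpall x (k5.2.1 h1) with h | h | h
        · exact absurd (h ▸ haT) h2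
        · exact absurd (h ▸ hbT) h2
        · exact h
      · rintro rfl
        exact ⟨hze, hzT⟩
    have e4 : Disjoint (ch e \ cp e) (e ∩ ch e) := by
      rw [disjoint_left]
      intro x hx hx'
      exact (mem_sdiff.1 hx).2 (k5.2.1 (mem_inter.1 hx').1)
    have e5 := card_union_of_disjoint e4
    have e6 : (cor e).card = (ch e \ cp e).card + (e ∩ ch e).card := e5
    omega
  have hcorE : ∀ e ∈ N, cor e ∈ E (ch e) := fun e he => mem_E.2 ⟨hsubT e he, hcard2 e he⟩
  have hone : ∀ e ∈ N, ∀ p ∈ Pv (ch e), p = cp e := by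
    intro e he p hp
    obtain ⟨k1, k2, k3, k4⟩ := hcp e he
    obtain ⟨q, hq⟩ := card_eq_one.1 k2
    rw [hq, mem_singleton] at hp k3
    rw [hp, k3]
  have hsubE : ∀ e ∈ N, ∀ e' ∈ N, ch e = ch e' → cor e = cor e' → e ⊆ e' := by
    intro e he e' he' h1 h2 y hy
    obtain ⟨k1, k2, k3, k4⟩ := hcp e he
    obtain ⟨k1', k2', k3', k4'⟩ := hcp e' he'
    have hcc : cp e = cp e' := hone e' he' _ (h1 ▸ k3)
    have hyp := (mem_outs.1 k4).2.1 hy
    by_cases hyT : y ∈ ch e
    · refine hiv e' he' y ?_ (hcc ▸ hyp)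
      rw [← h2]
      exact (hcor_mem e y).2 (Or.inr ⟨hy, hyT⟩)
    · exact hv e' he' y (hcc ▸ hyp) (h1 ▸ hyT)
  have hinj : Set.InjOn cor (N : Set (Finset V)) := by
    intro e he e' he' h
    have he := mem_coe.1 he
    have he' := mem_coe.1 he'
    have h1 : ch e = ch e' := hsame _ (hcp e he).1 _ (hcp e' he').1 (cor e) (hcorE e he)
      (by rw [h]; exact hcorE e' he')
    exact Subset.antisymm (hsubE e he e' he' h1 h) (hsubE e' he' e he h1.symm h.symm)
  set KD := D.biUnion (fun T => (E T).filter (fun g => ∀ p ∈ Pv T, g ≠ p ∩ T)) with hKD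
  set KU := N.image cor with hKU
  have hKDm : ∀ g, g ∈ KD → ∃ T ∈ M, 2 ≤ (Pv T).card ∧ g ∈ E T ∧ ∀ p ∈ Pv T, g ≠ p ∩ T := by
    intro g hg
    obtain ⟨T, hT, hg⟩ := mem_biUnion.1 hg
    rw [hD, mem_filter] at hT
    rw [mem_filter] at hg
    exact ⟨T, hT.1, hT.2, hg.1, hg.2⟩
  have hKUm : ∀ g, g ∈ KU → ∃ e ∈ N, cor e = g := by
    intro g hg
    obtain ⟨e, he, h⟩ := mem_image.1 hg
    exact ⟨e, he, h⟩
  have hdisj : Disjoint KD KU := by
    rw [disjoint_left]
    intro g hg hg'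
    obtain ⟨T, hT, hc, hgT, _⟩ := hKDm g hg
    obtain ⟨e, he, rfl⟩ := hKUm g hg'
    have := hsame T hT (ch e) (hcp e he).1 _ hgT (hcorE e he)
    have k2 := (hcp e he).2.1
    rw [← this] at k2
    omega
  have hKDc : 2 * D.card ≤ KD.card := by
    rw [hKD, card_biUnion]
    · calc 2 * D.card = ∑ _T ∈ D, 2 := by rw [sum_const, smul_eq_mul, mul_comm]
        _ ≤ _ := by
          apply sum_le_sum
          intro T hT
          rw [hD, mem_filter] at hT
          obtain ⟨p, hp⟩ : (Pv T).Nonempty := by rw [← card_pos]; omega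
          have hsub : (E T).erase (p ∩ T) ⊆ (E T).filter (fun g => ∀ p ∈ Pv T, g ≠ p ∩ T) := by
            intro g hg
            rw [mem_erase] at hg
            rw [mem_filter]
            refine ⟨hg.2, ?_⟩
            intro q hq
            rw [hheads T hT.1 q hq p hp]
            exact hg.1
          have h1 := card_le_card hsub
          have h2 := pred_card_le_card_erase (s := E T) (a := p ∩ T)
          rw [card_E (h3M T hT.1)] at h2
          omega
    · intro T hT T' hT' hne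
      have hT := (mem_filter.1 (mem_coe.1 hT)).1
      have hT' := (mem_filter.1 (mem_coe.1 hT')).1
      exact disjoint_of_subset_left (filter_subset _ _) (disjoint_of_subset_right
        (filter_subset _ _) (disjoint_E (hM.2 T hT T' hT' hne)))
  have hKUc : KU.card = N.card := card_image_of_injOn hinj
  refine ⟨KD ∪ KU, ⟨hpriv, hheads, ?_, ?_, ?_, ?_⟩, ?_⟩
  · intro g hg
    rcases mem_union.1 hg with hg | hg
    · obtain ⟨T, hT, _, hgT, _⟩ := hKDm g hg
      exact mem_biUnion.2 ⟨T, hT, hgT⟩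
    · obtain ⟨e, he, rfl⟩ := hKUm g hg
      exact mem_biUnion.2 ⟨ch e, (hcp e he).1, hcorE e he⟩
  · intro g hg T hT hgT
    rcases mem_union.1 hg with hg | hg
    · obtain ⟨T', hT', hc, hgT', _⟩ := hKDm g hg
      have := hsame T hT T' hT' g hgT hgT'
      subst this
      rw [← card_pos]; omega
    · obtain ⟨e, he, rfl⟩ := hKUm g hg
      have := hsame T hT (ch e) (hcp e he).1 _ hgT (hcorE e he)
      rw [this]
      exact ⟨_, (hcp e he).2.2.1⟩
  · intro g hg T hT hgT p hp
    rcases mem_union.1 hg with hg | hg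
    · obtain ⟨T', hT', hc, hgT', hnh⟩ := hKDm g hg
      have := hsame T hT T' hT' g hgT hgT'
      subst this
      exact hnh p hp
    · obtain ⟨e, he, rfl⟩ := hKUm g hg
      have hTe := hsame T hT (ch e) (hcp e he).1 _ hgT (hcorE e he)
      subst hTe
      have hpe := hone e he p hp
      have hpr := hpriv _ (hcp e he).1 _ hp
      obtain ⟨a, b, c, z, haT, hbT, hcT, hap, hbp, hzp, hzT, hcp', _⟩ :=
        two_common (h3M _ (hcp e he).1) (h3 _ hpr.memF) hpr.hit hpr.ne
      intro heq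
      have : c ∈ cor e := (hcor_mem e c).2 (Or.inl ⟨hcT, hpe ▸ hcp'⟩)
      rw [heq] at this
      exact hcp' (mem_inter.1 this).1
  · intro g₁ hg₁ g₂ hg₂ T₁ hT₁ T₂ hT₂ hne hgT₁ hgT₂ hc₁ hc₂ p₁ hp₁ p₂ hp₂ a z hag₁ hag₂ hap₁ hap₂
      hzp₁ hzp₂ hzT₁ hzT₂
    have key : ∀ g ∈ KD ∪ KU, ∀ T ∈ M, g ∈ E T → (Pv T).card = 1 → ∀ p ∈ Pv T, a ∈ g → a ∈ p →
        z ∈ p → z ∉ T → ∃ e ∈ N, ch e = T ∧ e = {a, z} := by
      intro g hg T hT hgT hc p hp hag hap hzp hzT
      rcases mem_union.1 hg with hg | hg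
      · obtain ⟨T', hT', hc', hgT', _⟩ := hKDm g hg
        have := hsame T hT T' hT' g hgT hgT'
        subst this
        omega
      · obtain ⟨e, he, rfl⟩ := hKUm g hg
        have hTe := hsame T hT (ch e) (hcp e he).1 _ hgT (hcorE e he)
        subst hTe
        have hpe := hone e he p hp
        have hae := hiv e he a hag (hpe ▸ hap)
        have hze := hv e he z (hpe ▸ hzp) hzT
        refine ⟨e, he, rfl, ?_⟩
        symm
        apply eq_of_subset_of_card_le
        · intro x hx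
          rw [mem_insert, mem_singleton] at hx
          rcases hx with rfl | rfl
          · exact hae
          · exact hze
        · have haz : a ≠ z := by
            rintro rfl
            exact hzT (hsubT e he hag)
          rw [card_pair haz, (mem_outs.1 (hcp e he).2.2.2).2.2]
    obtain ⟨e₁, he₁, hch₁, heq₁⟩ := key g₁ hg₁ T₁ hT₁ hgT₁ hc₁ p₁ hp₁ hag₁ hap₁ hzp₁ hzT₁
    obtain ⟨e₂, he₂, hch₂, heq₂⟩ := key g₂ hg₂ T₂ hT₂ hgT₂ hc₂ p₂ hp₂ hag₂ hap₂ hzp₂ hzT₂
    apply hne
    rw [← hch₁, ← hch₂, heq₁, heq₂]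
  · rw [card_union_of_disjoint hdisj]
    omega

end Pool.Agent.Lib.MP_136524_co
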