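import Pool.Agent.Lib.MP_136524_co.FreeWorld

/-!
# The bound `38 τ ≤ 99 ν` for families of triangles without a `K_4`
-/

namespace Pool.Agent.Lib.MP_136524_co

open Finset

variable {V : Type*} [DecidableEq V]

set_option maxHeartbeats 4000000 in
/-- For a family `F` of sets of size three which pairwise cover no four vertices, covering all
members of `F` by pairs needs at most `99/38` times as many pairs as there are members in a largest
packing `B`. -/
theorem free_main {F B : Finset (Finset V)} (hK : K4F F) (h3 : ∀ t ∈ F, t.card = 3)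
    (hB : MaxP F (fun _ => 1) B) : 38 * tau F ≤ 99 * B.card := by
  classical
  have h3B : ∀ T ∈ B, T.card = 3 := fun T hT => h3 T (hB.pk.1 hT)
  have hmax : ∀ N, Pk F N → N.card ≤ B.card := by
    intro N hN
    have := hB.max N hN
    simpa using this
  have hsame : ∀ T ∈ B, ∀ T' ∈ B, ∀ e, e ∈ E T → e ∈ E T' → T = T' := by
    intro T hT T' hT' e he he'
    by_contra hne
    exact not_ED_of_edge he he' (hB.pk.2 T hT T' hT' hne)
  have hw : ∀ t ∈ F, 0 < (fun _ : Finset V => 1) t := fun _ _ => Nat.one_pos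
  set Pv : Finset V → Finset (Finset V) := fun T => F.filter (fun p => Priv F (fun _ => 1) B T p)
    with hPv
  have hPvm : ∀ T p, p ∈ Pv T ↔ p ∈ F ∧ Priv F (fun _ => 1) B T p := by
    intro T p
    simp only [hPv, mem_filter]
  have hPvp : ∀ T ∈ B, ∀ p ∈ Pv T, Priv F (fun _ => 1) B T p := fun T _ p hp =>
    ((hPvm T p).1 hp).2
  have hPvh : ∀ T ∈ B, ∀ p ∈ Pv T, ∀ p' ∈ Pv T, p ∩ T = p' ∩ T := fun T hT p hp p' hp' =>
    heads_eq hK h3 hw hB hT (hPvp T hT p hp) (hPvp T hT p' hp')
  set D := B.filter (fun T => 2 ≤ (Pv T).card) with hD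
  have hDB : D ⊆ B := filter_subset _ _
  set N := outN B Pv with hN
  obtain ⟨Kp, hKp, hKpc⟩ := exists_kept h3 hB.pk Pv hPvp hPvh
  have hKpc' : 2 * D.card + N.card ≤ Kp.card := hKpc
  have hI : tau F + Kp.card ≤ 3 * B.card := boundA hK h3 hw hB hKp
  have hN2 : ∀ e ∈ N, e.card = 2 := by
    intro e he
    rw [hN, outN] at he
    obtain ⟨T, _, h⟩ := mem_biUnion.1 he
    obtain ⟨p, _, h⟩ := mem_biUnion.1 h
    exact (mem_outs.1 h).2.2
  set X : Finset (Finset V) := (B \ D).biUnion E ∪ N with hX
  set F' := F.filter (fun t => ∀ T ∈ D, ED t T) with hF'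
  have h3' : ∀ t ∈ F', t.card = 3 := fun t ht => h3 t (mem_filter.1 ht).1
  have hX2 : ∀ e ∈ X, e.card = 2 := by
    intro e he
    rw [hX, mem_union, mem_biUnion] at he
    rcases he with ⟨T, hT, he⟩ | he
    · exact (mem_E.1 he).2
    · exact hN2 e he
  have hXcard : X.card ≤ 3 * (B \ D).card + N.card := by
    have k1 : ((B \ D).biUnion E).card ≤ 3 * (B \ D).card :=
      card_biUnion_E h3 (sdiff_subset.trans hB.pk.1)
    have u1 := card_union_le ((B \ D).biUnion E) N
    rw [← hX] at u1
    omega
  have hmeet : ∀ t ∈ F, ∃ T ∈ B, ¬ ED t T := by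
    intro t ht
    by_contra hcon
    push Not at hcon
    exact replace_false h3 hw hB ht ∅ (empty_subset _)
      (fun T hT _ => hcon T hT) (fun _ => ∅)
      (fun T hT => absurd hT (notMem_empty T)) (fun T hT => absurd hT (notMem_empty T))
      (fun T hT => absurd hT (notMem_empty T))
  have hXF : ∀ t ∈ F', 2 ≤ (E t ∩ X).card := by
    intro t ht
    obtain ⟨htF, htD⟩ := mem_filter.1 ht
    obtain ⟨T, hT, hit⟩ := hmeet t htF
    have hTD : T ∉ D := fun h => hit (htD T h)
    obtain ⟨e1, he1, he1T⟩ := exists_edge hit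
    have hBX : ∀ T' ∈ B, T' ∉ D → ∀ e, e ∈ E T' → e ∈ X := by
      intro T' hT' hb e he
      rw [hX, mem_union]
      left
      exact mem_biUnion.2 ⟨T', mem_sdiff.2 ⟨hT', hb⟩, he⟩
    by_contra hcon
    have honly : ∀ e ∈ E t, e ∈ X → e = e1 := by
      intro e he heX
      by_contra hne
      apply hcon
      have : ({e, e1} : Finset (Finset V)) ⊆ E t ∩ X := by
        intro x hx
        rw [mem_insert, mem_singleton] at hx
        rw [mem_inter]
        rcases hx with rfl | rfl
        · exact ⟨he, heX⟩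
        · exact ⟨he1, hBX T hT hTD _ he1T⟩
      have h1 := card_le_card this
      rw [card_pair hne] at h1
      exact h1
    have htne : t ≠ T := by
      rintro rfl
      have h1 : E t ⊆ {e1} := by
        intro e he
        rw [mem_singleton]
        exact honly e he (hBX t hT hTD e he)
      have h2 := card_le_card h1
      rw [card_E (h3 t htF), card_singleton] at h2
      omega
    have hpT : Priv F (fun _ => 1) B T t := by
      refine ⟨htF, le_rfl, hit, htne, ?_⟩
      intro T' hT' hne
      by_contra h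
      obtain ⟨e', he', heT'⟩ := exists_edge h
      have hb' : T' ∉ D := fun hb => h (htD T' hb)
      have := honly e' he' (hBX T' hT' hb' e' heT')
      subst this
      exact hne (hsame T' hT' T hT _ heT' he1T)
    have htT : t ∩ T = e1 := edge_unique (h3B T hT) (h3 t htF) htne he1 he1T
    have htPv : t ∈ Pv T := (hPvm T t).2 ⟨htF, hpT⟩
    have hc1 : (Pv T).card = 1 := by
      have h1 := card_pos.2 ⟨t, htPv⟩
      have h2 : ¬ 2 ≤ (Pv T).card := fun h => hTD (mem_filter.2 ⟨hT, h⟩)
      omega
    obtain ⟨e3, he3⟩ : (outs T t).Nonempty := by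
      rw [← card_pos]
      unfold outs
      have h2 := pred_card_le_card_erase (s := E t) (a := t ∩ T)
      rw [card_E (h3 t htF)] at h2
      omega
    have he3N : e3 ∈ N := mem_biUnion.2 ⟨T, mem_filter.2 ⟨hT, hc1⟩, mem_biUnion.2 ⟨t, htPv, he3⟩⟩
    have h5 := mem_outs.1 he3
    apply h5.1
    rw [htT]
    exact honly e3 (mem_E.2 h5.2) (by rw [hX, mem_union]; exact Or.inr he3N)
  obtain ⟨M', hM'⟩ := exists_MaxP F' (wt X)
  have hII : 61 * tau F' ≤ 123 * M'.card + 10 * X.card :=
    free_world (hK.mono (filter_subset _ _)) h3' hX2 hXF hM'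
  have hM'card : M'.card + D.card ≤ B.card := by
    have hdis : Disjoint M' D := by
      rw [disjoint_left]
      intro T h1 h2
      exact not_ED_self (h3' T (hM'.pk.1 h1)) ((mem_filter.1 (hM'.pk.1 h1)).2 T h2)
    rw [← card_union_of_disjoint hdis]
    apply hmax
    refine ⟨union_subset (hM'.pk.1.trans (filter_subset _ _)) (hDB.trans hB.pk.1), ?_⟩
    intro s hs t ht hst
    rcases mem_union.1 hs with hs | hs <;> rcases mem_union.1 ht with ht | ht
    · exact hM'.pk.2 s hs t ht hst
    · exact (mem_filter.1 (hM'.pk.1 hs)).2 t ht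
    · exact ((mem_filter.1 (hM'.pk.1 ht)).2 s hs).symm
    · exact hB.pk.2 s (hDB hs) t (hDB ht) hst
  have htau : tau F ≤ 3 * D.card + tau F' := by
    obtain ⟨C', hC', hC'c⟩ := exists_cover h3'
    have hCv : Cv F (D.biUnion E ∪ C') := by
      refine ⟨?_, ?_⟩
      · intro e he
        rcases mem_union.1 he with he | he
        · obtain ⟨T, _, he⟩ := mem_biUnion.1 he
          exact (mem_E.1 he).2
        · exact hC'.1 e he
      · intro t ht
        by_cases htF' : t ∈ F'
        · obtain ⟨e, he, het⟩ := hC'.2 t htF'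
          exact ⟨e, mem_union_right _ he, het⟩
        · rw [hF', mem_filter] at htF'
          push Not at htF'
          obtain ⟨T, hT, hit⟩ := htF' ht
          obtain ⟨e, he, heT⟩ := exists_edge hit
          exact ⟨e, mem_union_left _ (mem_biUnion.2 ⟨T, hT, heT⟩), (mem_E.1 he).1⟩
    have h1 := tau_le hCv
    have h2 := card_union_le (D.biUnion E) C'
    have k1 : (D.biUnion E).card ≤ 3 * D.card := card_biUnion_E h3 (hDB.trans hB.pk.1)
    omega
  have hBb : (B \ D).card + D.card = B.card := card_sdiff_add_card_eq_card hDB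
  omega

end Pool.Agent.Lib.MP_136524_co
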