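import Mathlib

/-!
# Vertex covers of triangle-free graphs: `11 τ ≤ 6 n + e`
-/

namespace Pool.Agent.Lib.MP_136524_co

open Finset

/-- A triangle-free graph with vertex set `N` and edge set `Ed` has a vertex cover of size at most
`(6 |N| + |Ed|) / 11`. -/
theorem free_vc {α : Type*} [DecidableEq α] : ∀ (n : ℕ) (N : Finset α) (Ed : Finset (Finset α)),
    N.card = n → (∀ e ∈ Ed, e ⊆ N ∧ e.card = 2) →
    (∀ x y z, x ≠ y → y ≠ z → x ≠ z → ({x, y} : Finset α) ∈ Ed → ({y, z} : Finset α) ∈ Ed →
      ({x, z} : Finset α) ∈ Ed → False) →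
    ∃ C ⊆ N, (∀ e ∈ Ed, ∃ x ∈ C, x ∈ e) ∧ 11 * C.card ≤ 6 * N.card + Ed.card := by
  intro n
  induction n using Nat.strong_induction_on with
  | _ n ih =>
  intro N Ed hN h2 htf
  rcases N.eq_empty_or_nonempty with rfl | hne
  · refine ⟨∅, Subset.rfl, ?_, by simp⟩
    intro e he
    have h1 := h2 e he
    rw [subset_empty] at h1
    rw [h1.1] at h1
    simp at h1
  -- a vertex of minimum degree
  obtain ⟨v, hv, hmin⟩ := N.exists_min_image (fun x => (Ed.filter (fun e => x ∈ e)).card) hne
  set Nb := N.filter (fun x => x ≠ v ∧ ({v, x} : Finset α) ∈ Ed) with hNb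
  set k := (Ed.filter (fun e => v ∈ e)).card with hk
  have hkNb : Nb.card = k := by
    rw [hk]
    refine card_bij (fun x _ => ({v, x} : Finset α)) ?_ ?_ ?_
    · intro x hx
      rw [hNb, mem_filter] at hx
      rw [mem_filter]
      exact ⟨hx.2.2, by simp⟩
    · intro x hx y hy hxy
      rw [hNb, mem_filter] at hx hy
      have : x ∈ ({v, y} : Finset α) := by rw [← hxy]; simp
      rw [mem_insert, mem_singleton] at this
      rcases this with h | h
      · exact absurd h hx.2.1
      · exact h
    · intro e he
      rw [mem_filter] at he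
      obtain ⟨a, b, hab, rfl⟩ := card_eq_two.1 (h2 e he.1).2
      have hsub := (h2 _ he.1).1
      rw [mem_insert, mem_singleton] at he
      rcases he.2 with h | h
      · subst h
        exact ⟨b, by rw [hNb, mem_filter]; exact ⟨hsub (by simp), hab.symm, he.1⟩, rfl⟩
      · subst h
        refine ⟨a, ?_, pair_comm _ _⟩
        rw [hNb, mem_filter]
        refine ⟨hsub (by simp), hab, ?_⟩
        rw [pair_comm]
        exact he.1
  have hvNb : v ∉ Nb := by
    rw [hNb, mem_filter]
    exact fun h => h.2.1 rfl
  set N' := N \ insert v Nb with hN'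
  have hins : insert v Nb ⊆ N := insert_subset hv (filter_subset _ _)
  have hcN' : N'.card + (k + 1) = N.card := by
    have h1 := card_sdiff_add_card_eq_card hins
    rw [card_insert_of_notMem hvNb, hkNb] at h1
    exact h1
  set Ed' := Ed.filter (fun e => e ⊆ N') with hEd'
  obtain ⟨C', hC'N, hC'cov, hC'card⟩ := ih N'.card (by omega) N' Ed' rfl
    (fun e he => ⟨(mem_filter.1 he).2, (h2 e (mem_filter.1 he).1).2⟩)
    (fun x y z hxy hyz hxz a b c => htf x y z hxy hyz hxz (mem_filter.1 a).1 (mem_filter.1 b).1
      (mem_filter.1 c).1)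
  -- the stars of the neighbours are disjoint
  have hstars : k * k ≤ (Nb.biUnion (fun x => Ed.filter (fun e => x ∈ e))).card := by
    rw [card_biUnion]
    · calc k * k = ∑ _x ∈ Nb, k := by rw [sum_const, smul_eq_mul, hkNb]
        _ ≤ _ := sum_le_sum (fun x hx => hmin x (mem_filter.1 hx).1)
    · intro x hx y hy hxy
      change Disjoint _ _
      rw [disjoint_left]
      intro e he he'
      rw [mem_filter] at he he'
      rw [mem_coe, hNb, mem_filter] at hx hy
      have hexy : e = {x, y} := by
        symm
        apply eq_of_subset_of_card_le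
        · intro z hz
          rw [mem_insert, mem_singleton] at hz
          rcases hz with rfl | rfl
          · exact he.2
          · exact he'.2
        · rw [card_pair hxy, (h2 e he.1).2]
      rw [hexy] at he
      exact htf v x y hx.2.1.symm hxy hy.2.1.symm hx.2.2 he.1 hy.2.2
  have hdis : Disjoint (Nb.biUnion (fun x => Ed.filter (fun e => x ∈ e))) Ed' := by
    rw [disjoint_left]
    intro e he he'
    obtain ⟨x, hx, he⟩ := mem_biUnion.1 he
    rw [mem_filter] at he he'
    have := he'.2 he.2
    rw [hN', mem_sdiff] at this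
    exact this.2 (mem_insert_of_mem hx)
  have hEdc : k * k + Ed'.card ≤ Ed.card := by
    have h1 : (Nb.biUnion (fun x => Ed.filter (fun e => x ∈ e)) ∪ Ed').card ≤ Ed.card := by
      apply card_le_card
      apply union_subset
      · intro e he
        obtain ⟨x, _, he⟩ := mem_biUnion.1 he
        exact (mem_filter.1 he).1
      · exact filter_subset _ _
    rw [card_union_of_disjoint hdis] at h1
    omega
  refine ⟨Nb ∪ C', union_subset (filter_subset _ _) (hC'N.trans sdiff_subset), ?_, ?_⟩
  · intro e he
    by_cases h : ∃ x ∈ Nb, x ∈ e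
    · obtain ⟨x, hx, hxe⟩ := h
      exact ⟨x, mem_union_left _ hx, hxe⟩
    · push Not at h
      have heN' : e ⊆ N' := by
        intro x hx
        rw [hN', mem_sdiff, mem_insert, not_or]
        refine ⟨(h2 e he).1 hx, ?_, fun hxNb => h x hxNb hx⟩
        rintro rfl
        obtain ⟨y, hy, hyx⟩ : ∃ y ∈ e, y ≠ x := by
          by_contra hcon
          push Not at hcon
          have : e ⊆ {x} := fun z hz => mem_singleton.2 (hcon z hz)
          have h3 := card_le_card this
          rw [card_singleton, (h2 e he).2] at h3
          omega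
        apply h y _ hy
        rw [hNb, mem_filter]
        refine ⟨(h2 e he).1 hy, hyx, ?_⟩
        have : ({x, y} : Finset α) = e := by
          apply eq_of_subset_of_card_le
          · intro z hz
            rw [mem_insert, mem_singleton] at hz
            rcases hz with rfl | rfl
            · exact hx
            · exact hy
          · rw [card_pair hyx.symm, (h2 e he).2]
        rw [this]
        exact he
      obtain ⟨x, hx, hxe⟩ := hC'cov e (mem_filter.2 ⟨he, heN'⟩)
      exact ⟨x, mem_union_right _ hx, hxe⟩
  · have h1 := card_union_le Nb C'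
    rw [hkNb] at h1
    have h5 : ∀ j : ℕ, 5 * j ≤ j * j + 6 := by
      intro j
      rcases Nat.lt_or_ge j 3 with h | h
      · interval_cases j <;> norm_num
      · obtain ⟨i, rfl⟩ := Nat.exists_eq_add_of_le h
        nlinarith [Nat.zero_le (i * i), Nat.zero_le i]
    have h4 := h5 k
    omega

end Pool.Agent.Lib.MP_136524_co
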