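import Pool.Agent.Lib.MP_136524_co.FreeKept
import Pool.Agent.Lib.MP_136524_co.FreeVC

/-!
# Families without a `K_4` whose triangles have at least two edges in a set `X`
-/

namespace Pool.Agent.Lib.MP_136524_co

open Finset

variable {V : Type*} [DecidableEq V]

/-- The graph of the outside edges of unique private triangles has no triangle. -/
theorem outs_triangle_free {F : Finset (Finset V)} {w : Finset V → ℕ} {M : Finset (Finset V)}
    (hK : K4F F) (h3 : ∀ t ∈ F, t.card = 3) (hM : Pk F M)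
    {Pv : Finset V → Finset (Finset V)} (hpriv : ∀ T ∈ M, ∀ p ∈ Pv T, Priv F w M T p)
    {x y z : Finset V} (hxy : x ≠ y) (hyz : y ≠ z) (hxz : x ≠ z)
    {T₁ T₂ T₃ p₁ p₂ p₃ : Finset V} (hT₁ : T₁ ∈ M) (hT₂ : T₂ ∈ M) (hT₃ : T₃ ∈ M)
    (hp₁ : p₁ ∈ Pv T₁) (hp₂ : p₂ ∈ Pv T₂) (hp₃ : p₃ ∈ Pv T₃)
    (h₁ : ({x, y} : Finset (Finset V)) = outs T₁ p₁)
    (h₂ : ({y, z} : Finset (Finset V)) = outs T₂ p₂)
    (h₃ : ({x, z} : Finset (Finset V)) = outs T₃ p₃) : False := by
  classical
  have k₁ := hpriv T₁ hT₁ p₁ hp₁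
  have k₂ := hpriv T₂ hT₂ p₂ hp₂
  have k₃ := hpriv T₃ hT₃ p₃ hp₃
  have hx₁ : x ∈ outs T₁ p₁ := by rw [← h₁]; simp
  have hy₁ : y ∈ outs T₁ p₁ := by rw [← h₁]; simp
  have hy₂ : y ∈ outs T₂ p₂ := by rw [← h₂]; simp
  have hz₂ : z ∈ outs T₂ p₂ := by rw [← h₂]; simp
  have hx₃ : x ∈ outs T₃ p₃ := by rw [← h₃]; simp
  have hz₃ : z ∈ outs T₃ p₃ := by rw [← h₃]; simp
  have c₁ := h3 _ k₁.memF
  have c₂ := h3 _ k₂.memF
  have c₃ := h3 _ k₃.memF
  have t₁ := h3 _ (hM.1 hT₁)
  have t₂ := h3 _ (hM.1 hT₂)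
  have t₃ := h3 _ (hM.1 hT₃)
  -- the apexes
  obtain ⟨_, _, _, a₁, _, _, _, _, _, ha₁p, ha₁T, _⟩ := two_common t₁ c₁ k₁.hit k₁.ne
  obtain ⟨_, _, _, a₂, _, _, _, _, _, ha₂p, ha₂T, _⟩ := two_common t₂ c₂ k₂.hit k₂.ne
  obtain ⟨_, _, _, a₃, _, _, _, _, _, ha₃p, ha₃T, _⟩ := two_common t₃ c₃ k₃.hit k₃.ne
  have ax₁ := apex_mem_outs t₁ c₁ k₁.hit k₁.ne hx₁ ha₁p ha₁T
  have ay₁ := apex_mem_outs t₁ c₁ k₁.hit k₁.ne hy₁ ha₁p ha₁T
  have ay₂ := apex_mem_outs t₂ c₂ k₂.hit k₂.ne hy₂ ha₂p ha₂T
  have az₂ := apex_mem_outs t₂ c₂ k₂.hit k₂.ne hz₂ ha₂p ha₂T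
  have ax₃ := apex_mem_outs t₃ c₃ k₃.hit k₃.ne hx₃ ha₃p ha₃T
  have az₃ := apex_mem_outs t₃ c₃ k₃.hit k₃.ne hz₃ ha₃p ha₃T
  rw [mem_outs] at hx₁ hy₁ hy₂ hz₂ hx₃ hz₃
  have other : ∀ e : Finset V, e.card = 2 → ∀ a ∈ e, ∃ b, b ≠ a ∧ e = {a, b} := by
    intro e he a ha
    obtain ⟨u, v, huv, rfl⟩ := card_eq_two.1 he
    rw [mem_insert, mem_singleton] at ha
    rcases ha with rfl | rfl
    · exact ⟨v, huv.symm, rfl⟩
    · exact ⟨u, huv, pair_comm _ _⟩
  by_cases haa : a₁ ∈ z
  · -- a common vertex: a K4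
    obtain ⟨bx, hbx, ex⟩ := other x hx₁.2.2 a₁ ax₁
    obtain ⟨b_y, hby, ey⟩ := other y hy₁.2.2 a₁ ay₁
    obtain ⟨bz, hbz, ez⟩ := other z hz₂.2.2 a₁ haa
    have nxy : bx ≠ b_y := by
      rintro rfl
      exact hxy (ex.trans ey.symm)
    have nyz : b_y ≠ bz := by
      rintro rfl
      exact hyz (ey.trans ez.symm)
    have nxz : bx ≠ bz := by
      rintro rfl
      exact hxz (ex.trans ez.symm)
    have m1 : a₁ ∈ p₁ := hx₁.2.1 ax₁
    have m2 : bx ∈ p₁ := hx₁.2.1 (by rw [ex]; simp)
    have m3 : b_y ∈ p₁ := hy₁.2.1 (by rw [ey]; simp)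
    have m4 : a₁ ∈ p₂ := hy₂.2.1 ay₁
    have m5 : b_y ∈ p₂ := hy₂.2.1 (by rw [ey]; simp)
    have m6 : bz ∈ p₂ := hz₂.2.1 (by rw [ez]; simp)
    have m7 : bx ∈ p₃ := hx₃.2.1 (by rw [ex]; simp)
    have m8 : bz ∈ p₃ := hz₃.2.1 (by rw [ez]; simp)
    have m9 : a₁ ∈ p₃ := hx₃.2.1 ax₁
    exact hK a₁ bx b_y bz hbx.symm hby.symm hbz.symm nxy nxz nyz ⟨p₁, k₁.memF, m1, m2⟩
      ⟨p₁, k₁.memF, m1, m3⟩ ⟨p₃, k₃.memF, m9, m8⟩ ⟨p₁, k₁.memF, m2, m3⟩ ⟨p₃, k₃.memF, m7, m8⟩
      ⟨p₂, k₂.memF, m5, m6⟩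
  · -- the three edges form a triangle
    obtain ⟨bx, hbx, ex⟩ := other x hx₁.2.2 a₁ ax₁
    obtain ⟨b_y, hby, ey⟩ := other y hy₁.2.2 a₁ ay₁
    have nxy : bx ≠ b_y := by
      rintro rfl
      exact hxy (ex.trans ey.symm)
    have e2 : a₂ = b_y := by
      rw [ey, mem_insert, mem_singleton] at ay₂
      rcases ay₂ with h | h
      · exact absurd (h ▸ az₂) haa
      · exact h
    have e3 : a₃ = bx := by
      rw [ex, mem_insert, mem_singleton] at ax₃
      rcases ax₃ with h | h
      · exact absurd (h ▸ az₃) haa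
      · exact h
    have mz1 : bx ∈ z := e3 ▸ az₃
    have mz2 : b_y ∈ z := e2 ▸ az₂
    -- all three private triangles are equal
    have full : ∀ p : Finset V, p.card = 3 → a₁ ∈ p → bx ∈ p → b_y ∈ p → p = {a₁, bx, b_y} := by
      intro p hp h1 h2 h4
      symm
      apply eq_of_subset_of_card_le
      · intro u hu
        simp only [mem_insert, mem_singleton] at hu
        rcases hu with rfl | rfl | rfl <;> assumption
      · rw [hp, card_insert_of_notMem, card_pair nxy]
        rw [mem_insert, mem_singleton, not_or]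
        exact ⟨hbx.symm, hby.symm⟩
    have f1 := full p₁ c₁ (hx₁.2.1 ax₁) (hx₁.2.1 (by rw [ex]; simp)) (hy₁.2.1 (by rw [ey]; simp))
    have f3 := full p₃ c₃ (hx₃.2.1 ax₁) (hx₃.2.1 (by rw [ex]; simp)) (hz₃.2.1 mz2)
    have hpp : p₁ = p₃ := f1.trans f3.symm
    have hTT : T₁ = T₃ := by
      by_contra hne
      have := k₃.ed T₁ hT₁ hne
      rw [← hpp] at this
      exact k₁.hit this
    subst hTT
    subst hpp
    rw [← h₁] at h₃
    have : z ∈ ({x, y} : Finset (Finset V)) := by rw [← h₃]; simp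
    rw [mem_insert, mem_singleton] at this
    rcases this with h | h
    · exact hxz h.symm
    · exact hyz h.symm

set_option maxHeartbeats 4000000 in
/-- **The world lemma without `K_4`.** -/
theorem free_world {F X M : Finset (Finset V)} (hK : K4F F) (h3 : ∀ t ∈ F, t.card = 3)
    (hX2 : ∀ e ∈ X, e.card = 2) (hX : ∀ t ∈ F, 2 ≤ (E t ∩ X).card) (hM : MaxP F (wt X) M) :
    61 * tau F ≤ 123 * M.card + 10 * X.card := by
  classical
  have h3M : ∀ T ∈ M, T.card = 3 := fun T hT => h3 T (hM.pk.1 hT)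
  have hw : ∀ t ∈ F, 0 < wt X t := by
    intro t _; unfold wt; split_ifs <;> norm_num
  set M2 := M.filter (fun t => (E t ∩ X).card = 2) with hM2
  set M3 := M.filter (fun t => ¬ (E t ∩ X).card = 2) with hM3
  have hM23 : M2.card + M3.card = M.card :=
    card_filter_add_card_filter_not (s := M) (p := fun t => (E t ∩ X).card = 2)
  have hM2M : M2 ⊆ M := filter_subset _ _
  have hM3M : M3 ⊆ M := filter_subset _ _
  have hM2c : ∀ T ∈ M2, (E T ∩ X).card = 2 := fun T hT => (mem_filter.1 hT).2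
  have hM2c' : ∀ T ∈ M2, (E T \ X).card = 1 := by
    intro T hT
    have h1 := hM2c T hT
    have h2 := card_cap_add (X := X) (h3M T (hM2M hT))
    omega
  have hM3c : ∀ T ∈ M3, E T ⊆ X := by
    intro T hT
    have h1 := (mem_filter.1 hT).2
    have h2 := hX T (hM.pk.1 (hM3M hT))
    have h3' := card_cap_add (X := X) (h3M T (hM3M hT))
    have h4 : (E T \ X).card = 0 := by omega
    rw [card_eq_zero, sdiff_eq_empty_iff_subset] at h4
    exact h4
  set EM2 := M2.biUnion E with hEM2
  set EM3 := M3.biUnion E with hEM3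
  set H := EM2 \ X with hH
  set EM := M.biUnion E with hEM
  have hEM_cases : ∀ e, e ∈ EM → e ∈ EM2 ∨ e ∈ EM3 := by
    intro e he
    obtain ⟨T, hT, he⟩ := mem_biUnion.1 he
    by_cases h : (E T ∩ X).card = 2
    · left; exact mem_biUnion.2 ⟨T, mem_filter.2 ⟨hT, h⟩, he⟩
    · right; exact mem_biUnion.2 ⟨T, mem_filter.2 ⟨hT, h⟩, he⟩
  have hEM3X : EM3 ⊆ X := by
    intro e he
    obtain ⟨T, hT, he⟩ := mem_biUnion.1 he
    exact hM3c T hT he
  have hsame : ∀ T ∈ M, ∀ T' ∈ M, ∀ e, e ∈ E T → e ∈ E T' → T = T' := by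
    intro T hT T' hT' e he he'
    by_contra hne
    exact not_ED_of_edge he he' (hM.pk.2 T hT T' hT' hne)
  -- every triangle has an edge in `EM`
  have hmeet : ∀ t ∈ F, ∃ e ∈ E t, e ∈ EM := by
    intro t ht
    by_contra hcon
    push Not at hcon
    refine replace_false h3 hw hM ht ∅ (empty_subset _) ?_ (fun _ => ∅)
      (fun T hT => absurd hT (notMem_empty T)) (fun T hT => absurd hT (notMem_empty T))
      (fun T hT => absurd hT (notMem_empty T))
    intro T hT _
    by_contra h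
    obtain ⟨e, he, he'⟩ := exists_edge h
    exact hcon e he (mem_biUnion.2 ⟨T, hT, he'⟩)
  set Pg := F.filter (fun t => (E t ∩ X).card = 2 ∧ Disjoint (E t ∩ X) EM ∧ E t \ X ⊆ H) with hPg
  have hPgF : ∀ p ∈ Pg, p ∈ F := fun p hp => (mem_filter.1 hp).1
  -- the unique edge of a page outside `X`
  have hPgc : ∀ p ∈ Pg, (E p \ X).card = 1 := by
    intro p hp
    have h1 := (mem_filter.1 hp).2.1
    have h2 := card_cap_add (X := X) (h3 p (hPgF p hp))
    omega
  have hPgcom : ∀ p ∈ Pg, ∀ T ∈ M, ∀ e, e ∈ E p → e ∈ E T → e ∉ X ∧ T ∈ M2 := by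
    intro p hp T hT e he he'
    have heX : e ∉ X := by
      intro h
      exact disjoint_left.1 (mem_filter.1 hp).2.2.1 (mem_inter.2 ⟨he, h⟩)
        (mem_biUnion.2 ⟨T, hT, he'⟩)
    refine ⟨heX, ?_⟩
    by_contra h
    exact heX (hM3c T (mem_filter.2 ⟨hT, fun h2 => h (mem_filter.2 ⟨hT, h2⟩)⟩) he')
  have huniq : ∀ p ∈ Pg, ∀ e e', e ∈ E p → e' ∈ E p → e ∉ X → e' ∉ X → e = e' := by
    intro p hp e e' he he' hX1 hX2'
    have := hPgc p hp
    rw [card_eq_one] at this
    obtain ⟨g, hg⟩ := this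
    have h1 : e ∈ E p \ X := mem_sdiff.2 ⟨he, hX1⟩
    have h2 : e' ∈ E p \ X := mem_sdiff.2 ⟨he', hX2'⟩
    rw [hg, mem_singleton] at h1 h2
    rw [h1, h2]
  have huniqT : ∀ T ∈ M2, ∀ e e', e ∈ E T → e' ∈ E T → e ∉ X → e' ∉ X → e = e' := by
    intro T hT e e' he he' hX1 hX2'
    have := hM2c' T hT
    rw [card_eq_one] at this
    obtain ⟨g, hg⟩ := this
    have h1 : e ∈ E T \ X := mem_sdiff.2 ⟨he, hX1⟩
    have h2 : e' ∈ E T \ X := mem_sdiff.2 ⟨he', hX2'⟩
    rw [hg, mem_singleton] at h1 h2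
    rw [h1, h2]
  have hone : ∀ p ∈ Pg, ∀ T ∈ M, ∀ T' ∈ M, ¬ ED p T → ¬ ED p T' → T = T' := by
    intro p hp T hT T' hT' h h'
    obtain ⟨e, he, heT⟩ := exists_edge h
    obtain ⟨e', he', heT'⟩ := exists_edge h'
    have : e = e' := huniq p hp e e' he he' (hPgcom p hp T hT e he heT).1
      (hPgcom p hp T' hT' e' he' heT').1
    subst this
    exact hsame T hT T' hT' e heT heT'
  have hpriv : ∀ p ∈ Pg, ∀ T ∈ M, ¬ ED p T → Priv F (wt X) M T p := by
    intro p hp T hT h
    obtain ⟨e, he, heT⟩ := exists_edge h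
    have k1 := hPgcom p hp T hT e he heT
    refine ⟨hPgF p hp, ?_, h, ?_, ?_⟩
    · have e1 : wt X p = 3 := by unfold wt; rw [if_pos (mem_filter.1 hp).2.1]
      have e2 : wt X T = 3 := by unfold wt; rw [if_pos (hM2c T k1.2)]
      omega
    · rintro rfl
      have h1 := hM2c p k1.2
      have h2 : (E p ∩ X).Nonempty := by rw [← card_pos]; omega
      obtain ⟨e2, he2⟩ := h2
      exact disjoint_left.1 (mem_filter.1 hp).2.2.1 he2
        (mem_biUnion.2 ⟨p, hT, (mem_inter.1 he2).1⟩)
    · intro T' hT' hne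
      by_contra h'
      exact hne (hone p hp T' hT' T hT h' h)
  set Pv : Finset V → Finset (Finset V) := fun T => Pg.filter (fun p => ¬ ED p T) with hPv
  have hPvm : ∀ T p, p ∈ Pv T ↔ p ∈ Pg ∧ ¬ ED p T := by
    intro T p
    simp only [hPv, mem_filter]
  have hPvp : ∀ T ∈ M, ∀ p ∈ Pv T, Priv F (wt X) M T p := fun T hT p hp =>
    hpriv p ((hPvm T p).1 hp).1 T hT ((hPvm T p).1 hp).2
  have hPvh : ∀ T ∈ M, ∀ p ∈ Pv T, ∀ p' ∈ Pv T, p ∩ T = p' ∩ T := fun T hT p hp p' hp' =>
    heads_eq hK h3 hw hM hT (hPvp T hT p hp) (hPvp T hT p' hp')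
  -- members with pages are in `M2`
  have hPvM2 : ∀ T ∈ M, ∀ p ∈ Pv T, T ∈ M2 ∧ p ∩ T ∈ E T ∧ p ∩ T ∉ X := by
    intro T hT p hp
    obtain ⟨hpg, hit⟩ := (hPvm T p).1 hp
    obtain ⟨e, he, heT⟩ := exists_edge hit
    have k := hPgcom p hpg T hT e he heT
    have hpr := hPvp T hT p hp
    rw [edge_unique (h3M T hT) (h3 _ hpr.memF) hpr.ne he heT]
    exact ⟨k.2, heT, k.1⟩
  set D := M.filter (fun T => 2 ≤ (Pv T).card) with hD
  set U := M.filter (fun T => (Pv T).card = 1) with hU
  have hDM2 : D ⊆ M2 := by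
    intro T hT
    rw [hD, mem_filter] at hT
    obtain ⟨p, hp⟩ : (Pv T).Nonempty := by rw [← card_pos]; omega
    exact (hPvM2 T hT.1 p hp).1
  have hUM2 : U ⊆ M2 := by
    intro T hT
    rw [hU, mem_filter] at hT
    obtain ⟨p, hp⟩ : (Pv T).Nonempty := by rw [← card_pos]; omega
    exact (hPvM2 T hT.1 p hp).1
  have hUc : U.card ≤ M2.card := card_le_card hUM2
  obtain ⟨Kp, hKp, hKpc⟩ := exists_kept h3 hM.pk Pv hPvp hPvh
  -- the vertex cover
  set N := outN M Pv with hN
  set Ed := U.image (fun T => (Pv T).biUnion (outs T)) with hEd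
  have hEdm : ∀ e ∈ Ed, ∃ T ∈ M, ∃ p ∈ Pv T, (Pv T).card = 1 ∧ e = outs T p := by
    intro e he
    obtain ⟨T, hT, rfl⟩ := mem_image.1 he
    rw [hU, mem_filter] at hT
    obtain ⟨p, hp⟩ := card_eq_one.1 hT.2
    refine ⟨T, hT.1, p, by rw [hp]; simp, hT.2, ?_⟩
    rw [hp, singleton_biUnion]
  obtain ⟨VC, hVCN, hVC, hVCc⟩ := free_vc N.card N Ed rfl
    (by
      intro e he
      obtain ⟨T, hT, p, hp, hc, rfl⟩ := hEdm e he
      refine ⟨?_, ?_⟩
      · intro g hg
        exact mem_biUnion.2 ⟨T, mem_filter.2 ⟨hT, hc⟩, mem_biUnion.2 ⟨p, hp, hg⟩⟩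
      · have hpr := hPvp T hT p hp
        have hi := inter_card (h3M T hT) (h3 _ hpr.memF) hpr.hit hpr.ne
        unfold outs
        rw [card_erase_of_mem (mem_E.2 ⟨inter_subset_left, hi⟩), card_E (h3 _ hpr.memF)])
    (by
      intro x y z hxy hyz hxz h1 h2 h4
      obtain ⟨T₁, hT₁, p₁, hp₁, _, e₁⟩ := hEdm _ h1
      obtain ⟨T₂, hT₂, p₂, hp₂, _, e₂⟩ := hEdm _ h2
      obtain ⟨T₃, hT₃, p₃, hp₃, _, e₃⟩ := hEdm _ h4
      exact outs_triangle_free hK h3 hM.pk hPvp hxy hyz hxz hT₁ hT₂ hT₃ hp₁ hp₂ hp₃ e₁ e₂ e₃)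
  have hEdc : Ed.card ≤ U.card := card_image_le
  have hVC2 : ∀ e ∈ VC, e.card = 2 := by
    intro e he
    have := hVCN he
    rw [hN, outN] at this
    obtain ⟨T, _, h⟩ := mem_biUnion.1 this
    obtain ⟨p, _, h⟩ := mem_biUnion.1 h
    exact (mem_outs.1 h).2.2
  -- bound (a)
  have ha : tau F + Kp.card ≤ 3 * M.card := boundA hK h3 hw hM hKp
  -- bound (b)
  have hb : tau F ≤ 2 * M2.card + 3 * M3.card + D.card + VC.card := by
    set C : Finset (Finset V) := M2.biUnion (fun T => E T ∩ X) ∪ EM3 ∪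
      D.biUnion (fun T => E T \ X) ∪ VC with hC
    have hCv : Cv F C := by
      refine ⟨?_, ?_⟩
      · intro e he
        rw [hC, mem_union, mem_union, mem_union, mem_biUnion, mem_biUnion, mem_biUnion] at he
        rcases he with ((⟨T, hT, he⟩ | ⟨T, hT, he⟩) | ⟨T, hT, he⟩) | he
        · exact hX2 e (mem_inter.1 he).2
        · exact (mem_E.1 he).2
        · exact (mem_E.1 (mem_sdiff.1 he).1).2
        · exact hVC2 e he
      · intro t ht
        by_contra hcon
        push Not at hcon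
        have c1 : ∀ e ∈ E t, e ∈ X → e ∉ EM := by
          intro e he heX hEM'
          rcases hEM_cases e hEM' with h | h
          · obtain ⟨T, hT, heT⟩ := mem_biUnion.1 h
            refine hcon e ?_ (mem_E.1 he).1
            rw [hC, mem_union, mem_union, mem_union]
            left; left; left
            exact mem_biUnion.2 ⟨T, hT, mem_inter.2 ⟨heT, heX⟩⟩
          · refine hcon e ?_ (mem_E.1 he).1
            rw [hC, mem_union, mem_union, mem_union]
            left; left; right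
            exact h
        obtain ⟨g, hg, hgM⟩ := hmeet t ht
        have hgX : g ∉ X := fun h => c1 g hg h hgM
        have hcards := card_cap_add (X := X) (h3 t ht)
        have hgpos : 0 < (E t \ X).card := card_pos.2 ⟨g, mem_sdiff.2 ⟨hg, hgX⟩⟩
        have h2t := hX t ht
        have htPg : t ∈ Pg := by
          rw [hPg, mem_filter]
          refine ⟨ht, by omega, ?_, ?_⟩
          · rw [disjoint_left]
            intro e he
            exact c1 e (mem_inter.1 he).1 (mem_inter.1 he).2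
          · have h1 : (E t \ X).card = 1 := by omega
            rw [card_eq_one] at h1
            obtain ⟨g', hg'⟩ := h1
            have : g ∈ E t \ X := mem_sdiff.2 ⟨hg, hgX⟩
            rw [hg', mem_singleton] at this
            rw [hg', ← this, singleton_subset_iff, hH, mem_sdiff]
            refine ⟨?_, hgX⟩
            rcases hEM_cases g hgM with h | h
            · exact h
            · exact absurd (hEM3X h) hgX
        obtain ⟨T, hT, hgT⟩ := mem_biUnion.1 hgM
        have htPv : t ∈ Pv T := (hPvm T t).2 ⟨htPg, not_ED_of_edge hg hgT⟩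
        by_cases hc : 2 ≤ (Pv T).card
        · refine hcon g ?_ (mem_E.1 hg).1
          rw [hC, mem_union, mem_union]
          left; right
          exact mem_biUnion.2 ⟨T, mem_filter.2 ⟨hT, hc⟩, mem_sdiff.2 ⟨hgT, hgX⟩⟩
        · have hc1 : (Pv T).card = 1 := by
            have := card_pos.2 ⟨t, htPv⟩
            omega
          obtain ⟨q, hq⟩ := card_eq_one.1 hc1
          have htq : t = q := by
            rw [hq, mem_singleton] at htPv
            exact htPv
          subst htq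
          have hEdT : outs T t ∈ Ed := by
            refine mem_image.2 ⟨T, mem_filter.2 ⟨hT, hc1⟩, ?_⟩
            rw [hq, singleton_biUnion]
          obtain ⟨x, hx, hxo⟩ := hVC _ hEdT
          refine hcon x ?_ (mem_outs.1 hxo).2.1
          rw [hC, mem_union]
          right
          exact hx
    have hle := tau_le hCv
    have k1 : (M2.biUnion (fun T => E T ∩ X)).card ≤ 2 * M2.card := by
      refine card_biUnion_le.trans ?_
      rw [sum_congr rfl (fun T hT => hM2c T hT), sum_const, smul_eq_mul, mul_comm]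
    have k2 : EM3.card ≤ 3 * M3.card := by
      refine card_biUnion_le.trans ?_
      rw [sum_congr rfl (fun T hT => card_E (h3M T (hM3M hT))), sum_const, smul_eq_mul, mul_comm]
    have k3 : (D.biUnion (fun T => E T \ X)).card ≤ D.card := by
      refine card_biUnion_le.trans ?_
      rw [sum_congr rfl (fun T hT => hM2c' T (hDM2 hT)), sum_const, smul_eq_mul, mul_one]
    have u1 := card_union_le (M2.biUnion (fun T => E T ∩ X) ∪ EM3 ∪
      D.biUnion (fun T => E T \ X)) VC
    have u2 := card_union_le (M2.biUnion (fun T => E T ∩ X) ∪ EM3) (D.biUnion (fun T => E T \ X))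
    have u3 := card_union_le (M2.biUnion (fun T => E T ∩ X)) EM3
    rw [← hC] at u1
    omega
  -- bound (c)
  have hc : 2 * tau F + Kp.card ≤ 3 * M2.card + X.card := by
    set A₂ : Finset (Finset V) := M2.biUnion (fun T => E T ∩ X) with hA₂
    have hKpA : Kp ⊆ A₂ := by
      intro g hg
      obtain ⟨T, hT, hgT⟩ := mem_biUnion.1 (hKp.sub hg)
      obtain ⟨p, hp⟩ := hKp.nonempty g hg T hT hgT
      obtain ⟨hT2, hhE, hhX⟩ := hPvM2 T hT p hp
      refine mem_biUnion.2 ⟨T, hT2, mem_inter.2 ⟨hgT, ?_⟩⟩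
      by_contra hgX
      exact hKp.nonhead g hg T hT hgT p hp (huniqT T hT2 g _ hgT hhE hgX hhX)
    set W : Finset (Finset V) := (X \ A₂) ∪ Kp ∪ M2.biUnion (fun T => E T \ X) with hW
    have hA₂X : A₂ ⊆ X := by
      intro e he
      obtain ⟨T, hT, he⟩ := mem_biUnion.1 he
      exact (mem_inter.1 he).2
    have hW2 : ∀ e ∈ W, e.card = 2 := by
      intro e he
      rw [hW, mem_union, mem_union, mem_biUnion] at he
      rcases he with (he | he) | ⟨T, hT, he⟩
      · exact hX2 e (mem_sdiff.1 he).1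
      · exact hX2 e (hA₂X (hKpA he))
      · exact (mem_E.1 (mem_sdiff.1 he).1).2
    obtain ⟨A, _, hA⟩ := bip (W.biUnion id) W (by
      intro e he
      exact ⟨fun x hx => mem_biUnion.2 ⟨e, he, hx⟩, hW2 e he⟩)
    set C : Finset (Finset V) := (A₂ \ Kp) ∪ W.filter (fun e => e ⊆ A ∨ Disjoint e A) with hC
    have hCv : Cv F C := by
      refine ⟨?_, ?_⟩
      · intro e he
        rw [hC, mem_union] at he
        rcases he with he | he
        · exact hX2 e (hA₂X (mem_sdiff.1 he).1)
        · exact hW2 e (mem_filter.1 he).1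
      · intro t ht
        by_contra hcon
        push Not at hcon
        -- it is enough that all edges of `t` are in `W`
        suffices hsub : E t ⊆ W by
          obtain ⟨e, he, heA⟩ := exists_inner (h3 t ht) A
          refine hcon e ?_ (mem_E.1 he).1
          rw [hC, mem_union]
          right
          exact mem_filter.2 ⟨hsub he, heA⟩
        have c1 : ∀ e ∈ E t, e ∈ A₂ → e ∈ Kp := by
          intro e he heA
          by_contra h
          refine hcon e ?_ (mem_E.1 he).1
          rw [hC, mem_union]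
          left
          exact mem_sdiff.2 ⟨heA, h⟩
        intro g hg
        by_contra hgW
        have hWor : ∀ e, (e ∈ X \ A₂) ∨ (e ∈ Kp) ∨ (e ∈ M2.biUnion (fun T => E T \ X)) →
            e ∈ W := by
          intro e he
          rw [hW, mem_union, mem_union]
          tauto
        have hgX : g ∉ X := by
          intro hgX
          apply hgW
          apply hWor
          by_cases h : g ∈ A₂
          · right; left
            exact c1 g hg h
          · left
            exact mem_sdiff.2 ⟨hgX, h⟩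
        have hgH : g ∉ H := by
          intro h
          rw [hH, mem_sdiff] at h
          obtain ⟨T, hT, hgT⟩ := mem_biUnion.1 h.1
          exact hgW (hWor g (Or.inr (Or.inr (mem_biUnion.2 ⟨T, hT,
            mem_sdiff.2 ⟨hgT, hgX⟩⟩))))
        have hgEM : g ∉ EM := by
          intro h
          rcases hEM_cases g h with h | h
          · exact hgH (by rw [hH, mem_sdiff]; exact ⟨h, hgX⟩)
          · exact hgX (hEM3X h)
        have hcards := card_cap_add (X := X) (h3 t ht)
        have hgpos : 0 < (E t \ X).card := card_pos.2 ⟨g, mem_sdiff.2 ⟨hg, hgX⟩⟩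
        have h2t := hX t ht
        have h1t : (E t \ X).card = 1 := by omega
        have h2t' : (E t ∩ X).card = 2 := by omega
        have hoth : ∀ e ∈ E t, e ∉ X → e = g := by
          intro e he heX
          rw [card_eq_one] at h1t
          obtain ⟨g', hg'⟩ := h1t
          have k1 : e ∈ E t \ X := mem_sdiff.2 ⟨he, heX⟩
          have k2 : g ∈ E t \ X := mem_sdiff.2 ⟨hg, hgX⟩
          rw [hg', mem_singleton] at k1 k2
          rw [k1, k2]
        set S := M.filter (fun T => ¬ ED t T) with hS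
        have hSM : S ⊆ M := filter_subset _ _
        have htne : ∀ T ∈ S, t ≠ T := by
          intro T hT
          rintro rfl
          exact hgEM (mem_biUnion.2 ⟨t, hSM hT, hg⟩)
        -- common edges of `t` and a member are in `X`
        have hcomX : ∀ T ∈ M, ∀ e, e ∈ E t → e ∈ E T → e ∈ X := by
          intro T hT e he heT
          by_contra h
          have := hoth e he h
          subst this
          exact hgEM (mem_biUnion.2 ⟨T, hT, heT⟩)
        obtain ⟨f, hf1, hf2, hf3⟩ := engine hK h3 hM.pk hKp ht (S := S ∩ M2)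
          (fun T hT => hSM (mem_inter.1 hT).1)
          (fun T hT => htne T (mem_inter.1 hT).1)
          (fun T hT => (mem_filter.1 (mem_inter.1 hT).1).2)
          (by
            intro T hT
            obtain ⟨hTS, hT2⟩ := mem_inter.1 hT
            obtain ⟨e, he, heT⟩ := exists_edge (mem_filter.1 hTS).2
            rw [edge_unique (h3M T (hSM hTS)) (h3 t ht) (htne T hTS) he heT]
            exact c1 e he (mem_biUnion.2 ⟨T, hT2, mem_inter.2 ⟨heT,
              hcomX T (hSM hTS) e he heT⟩⟩))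
        refine replace_false' h3 hM ht S (S ∩ M2) hSM inter_subset_left ?_ f
          (fun T hT => hPvp T (hSM (mem_inter.1 hT).1) _ (hf1 T hT)) hf2 hf3 ?_
        · intro T hT hTS
          by_contra h
          exact hTS (by rw [hS, mem_filter]; exact ⟨hT, h⟩)
        · have e1 : wt X t = 3 := by unfold wt; rw [if_pos h2t']
          have e2 : ∀ T ∈ S \ (S ∩ M2), wt X T = 1 := by
            intro T hT
            rw [mem_sdiff, mem_inter, not_and] at hT
            have h := hT.2 hT.1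
            unfold wt
            rw [if_neg (fun h2 => h (mem_filter.2 ⟨hSM hT.1, h2⟩))]
          rw [e1, sum_congr rfl e2, sum_const, smul_eq_mul, mul_one]
          have hex : ∀ T ∈ S, ∃ e, e ∈ E t ∧ e ∈ E T := fun T hT =>
            exists_edge (mem_filter.1 hT).2
          have : (S \ (S ∩ M2)).card ≤ (E t ∩ X).card := by
            refine card_le_card_of_injOn
              (fun T => if h : ∃ e, e ∈ E t ∧ e ∈ E T then h.choose else ∅) ?_ ?_
            · intro T hT
              have hT' := (mem_sdiff.1 hT).1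
              have h := hex T hT'
              simp only [dif_pos h]
              have hs := h.choose_spec
              exact mem_coe.2 (mem_inter.2 ⟨hs.1, hcomX T (hSM hT') _ hs.1 hs.2⟩)
            · intro T hT T' hT' heq
              have hT1 := (mem_sdiff.1 hT).1
              have hT2 := (mem_sdiff.1 hT').1
              have h := hex T hT1
              have h' := hex T' hT2
              simp only [dif_pos h, dif_pos h'] at heq
              have hs := h.choose_spec
              have hs' := h'.choose_spec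
              rw [← heq] at hs'
              exact hsame T (hSM hT1) T' (hSM hT2) _ hs.2 hs'.2
          omega
    have hle := tau_le hCv
    have k2 : A₂.card = 2 * M2.card := by
      rw [hA₂, card_biUnion]
      · rw [sum_congr rfl (fun T hT => hM2c T hT), sum_const, smul_eq_mul, mul_comm]
      · intro T hT T' hT' hne
        exact disjoint_of_subset_left inter_subset_left (disjoint_of_subset_right
          inter_subset_left (disjoint_E (hM.pk.2 T (hM2M hT) T' (hM2M hT') hne)))
    have k3 : (X \ A₂).card + A₂.card = X.card := card_sdiff_add_card_eq_card hA₂X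
    have k4 : (A₂ \ Kp).card + Kp.card = A₂.card := card_sdiff_add_card_eq_card hKpA
    have k5 : (M2.biUnion (fun T => E T \ X)).card ≤ M2.card := by
      refine card_biUnion_le.trans ?_
      rw [sum_congr rfl (fun T hT => hM2c' T hT), sum_const, smul_eq_mul, mul_one]
    have u2 := card_union_le ((X \ A₂) ∪ Kp) (M2.biUnion (fun T => E T \ X))
    have u3 := card_union_le (X \ A₂) Kp
    have u4 := card_union_le (A₂ \ Kp) (W.filter (fun e => e ⊆ A ∨ Disjoint e A))
    rw [← hW] at u2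
    rw [← hC] at u4
    omega
  have hKpc' : 2 * D.card + N.card ≤ Kp.card := hKpc
  omega

end Pool.Agent.Lib.MP_136524_co
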