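import Pool.Agent.Lib.MP_136524_co.Basic

/-!
# Lemma I: the exchange lemma with private triangles
-/

namespace Pool.Agent.Lib.MP_136524_co

open Finset

variable {V : Type*} [DecidableEq V]

omit [DecidableEq V] in
/-- four distinct elements do not fit in a set of size three -/
theorem mem3 {s : Finset V} (h : s.card = 3) {a b c : V} (ha : a ∈ s) (hb : b ∈ s) (hc : c ∈ s)
    (hab : a ≠ b) (hac : a ≠ c) (hbc : b ≠ c) {x : V} (hx : x ∈ s) : x = a ∨ x = b ∨ x = c := by
  classical
  by_contra hcon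
  push Not at hcon
  have : ({a, b, c, x} : Finset V) ⊆ s := by
    intro y hy
    simp only [mem_insert, mem_singleton] at hy
    rcases hy with rfl | rfl | rfl | rfl <;> assumption
  have h4 : ({a, b, c, x} : Finset V).card = 4 := by
    rw [card_insert_of_notMem, card_insert_of_notMem, card_insert_of_notMem, card_singleton]
    · simp only [mem_singleton]; exact fun h => hcon.2.2 h.symm
    · simp only [mem_insert, mem_singleton]
      rintro (h | h)
      · exact hbc h
      · exact hcon.2.1 h.symm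
    · simp only [mem_insert, mem_singleton]
      rintro (h | h | h)
      · exact hab h
      · exact hac h
      · exact hcon.1 h.symm
  have := card_le_card this
  omega

omit [DecidableEq V] in
theorem third {s : Finset V} (h : s.card = 3) (a b : V) : ∃ c, c ∈ s ∧ c ≠ a ∧ c ≠ b := by
  classical
  by_contra hcon
  push Not at hcon
  have : s ⊆ {a, b} := by
    intro y hy
    simp only [mem_insert, mem_singleton]
    by_cases h1 : y = a
    · exact Or.inl h1
    · exact Or.inr (hcon y hy h1)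
  have h1 := card_le_card this
  have h2 := card_le_two (a := a) (b := b)
  omega

omit [DecidableEq V] in
/-- shape of two triangles sharing exactly one edge -/
theorem two_common {T t : Finset V} (hT : T.card = 3) (ht : t.card = 3) (h : ¬ ED t T)
    (hne : t ≠ T) : ∃ q s c p, q ∈ T ∧ s ∈ T ∧ c ∈ T ∧ q ∈ t ∧ s ∈ t ∧ p ∈ t ∧ p ∉ T ∧ c ∉ t ∧
      q ≠ s ∧ q ≠ c ∧ s ≠ c ∧ p ≠ q ∧ p ≠ s ∧ p ≠ c ∧
      (∀ x ∈ T, x = q ∨ x = s ∨ x = c) ∧ (∀ x ∈ t, x = q ∨ x = s ∨ x = p) := by
  unfold ED at h
  push Not at h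
  obtain ⟨q, hq, s, hs, hqT, hsT, hqs⟩ := h
  obtain ⟨c, hc, hcq, hcs⟩ := third hT q s
  obtain ⟨p, hp, hpq, hps⟩ := third ht q s
  have hall1 : ∀ x ∈ T, x = q ∨ x = s ∨ x = c :=
    fun x hx => mem3 hT hqT hsT hc hqs hcq.symm hcs.symm hx
  have hall2 : ∀ x ∈ t, x = q ∨ x = s ∨ x = p :=
    fun x hx => mem3 ht hq hs hp hqs hpq.symm hps.symm hx
  have hpc : p ≠ c := by
    rintro rfl
    apply hne
    ext x
    constructor
    · intro hx; rcases hall2 x hx with rfl | rfl | rfl <;> assumption
    · intro hx; rcases hall1 x hx with rfl | rfl | rfl <;> assumption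
  refine ⟨q, s, c, p, hqT, hsT, hc, hq, hs, hp, ?_, ?_, hqs, hcq.symm, hcs.symm, hpq, hps, hpc,
    hall1, hall2⟩
  · intro hx; rcases hall1 p hx with h | h | h
    · exact hpq h
    · exact hps h
    · exact hpc h
  · intro hx; rcases hall2 c hx with h | h | h
    · exact hcq h
    · exact hcs h
    · exact hpc h.symm

variable {F : Finset (Finset V)} {w : Finset V → ℕ} {M : Finset (Finset V)}

/-- The step of the greedy choice, with explicit vertices. -/
theorem step_aux (h3 : ∀ t ∈ F, t.card = 3) (hM : Pk F M)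
    {t T : Finset V} (hT : T ∈ M)
    {q s c p : V} (hqT : q ∈ T) (hsT : s ∈ T) (hcT : c ∈ T) (hqt : q ∈ t) (hst : s ∈ t)
    (hpt : p ∈ t) (hqs : q ≠ s) (hqc : q ≠ c) (hsc : s ≠ c) (hpq : p ≠ q) (hps : p ≠ s)
    (hpc : p ≠ c)
    (hTall : ∀ x ∈ T, x = q ∨ x = s ∨ x = c) (htall : ∀ x ∈ t, x = q ∨ x = s ∨ x = p)
    {Z : Finset V} (hZ : 4 ≤ Z.card) (hZp : ∀ z ∈ Z, Priv F w M T (insert z {q, c}))
    {A : Finset (Finset V)} (hA : A ⊆ M) (hTA : T ∉ A) (hAt : ∀ T' ∈ A, ¬ ED t T')
    {f : Finset V → Finset V} (hf : ∀ T' ∈ A, Priv F w M T' (f T')) :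
    ∃ z ∈ Z, ED (insert z {q, c}) t ∧ ∀ T' ∈ A, ED (insert z {q, c}) (f T') := by
  classical
  have hzT : ∀ z ∈ Z, z ≠ q ∧ z ≠ s ∧ z ≠ c := by
    intro z hz
    have h1 := hZp z hz
    have hcard := h3 _ h1.memF
    have hz1 : z ∉ ({q, c} : Finset V) := by
      intro hmem
      rw [insert_eq_of_mem hmem, card_pair hqc] at hcard
      omega
    simp only [mem_insert, mem_singleton, not_or] at hz1
    refine ⟨hz1.1, ?_, hz1.2⟩
    rintro rfl
    apply h1.ne
    ext x
    simp only [mem_insert, mem_singleton]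
    constructor
    · rintro (rfl | rfl | rfl) <;> assumption
    · intro hx
      rcases hTall x hx with h | h | h
      · exact Or.inr (Or.inl h)
      · exact Or.inl h
      · exact Or.inr (Or.inr h)
  have hTT : ∀ T' ∈ A, ED T T' := fun T' hT' => hM.2 T hT T' (hA hT') (fun h => hTA (h ▸ hT'))
  -- members of `A` contain `p` and exactly one of `q`, `s`
  have hApq : ∀ T' ∈ A, p ∈ T' ∧ (q ∈ T' ∨ s ∈ T') := by
    intro T' hT'
    have h1 := hAt T' hT'
    unfold ED at h1
    push Not at h1
    obtain ⟨u, hu, v, hv, hu', hv', huv⟩ := h1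
    have h2 := hTT T' hT'
    have h2' : ¬ (q ∈ T' ∧ s ∈ T') := fun h => hqs (h2 q hqT s hsT h.1 h.2)
    have h3' := htall u hu
    have h4' := htall v hv
    grind
  -- a killed apex lies in the killing triangle
  have hkill : ∀ z ∈ Z, ∀ T' ∈ A, ¬ ED (insert z {q, c}) (f T') →
      z ∈ f T' ∧ (q ∈ f T' ∨ c ∈ f T') := by
    intro z hz T' hT' h1
    have h2 : ED (f T') T := (hf T' hT').ed T hT (fun h => hTA (h ▸ hT'))
    have h2' : ¬ (q ∈ f T' ∧ c ∈ f T') := fun h => hqc (h2 q h.1 c h.2 hqT hcT)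
    unfold ED at h1
    push Not at h1
    obtain ⟨u, hu, v, hv, hu', hv', huv⟩ := h1
    simp only [mem_insert, mem_singleton] at hu hv
    grind
  set Z1 : Finset V := Z.filter (fun z => ¬ ED (insert z {q, c}) t ∨
    ∃ T' ∈ A, q ∈ T' ∧ ¬ ED (insert z {q, c}) (f T')) with hZ1
  set Z2 : Finset V := Z.filter (fun z =>
    ∃ T' ∈ A, q ∉ T' ∧ ¬ ED (insert z {q, c}) (f T')) with hZ2
  have hkt : ∀ z ∈ Z, ¬ ED (insert z {q, c}) t → z = p := by
    intro z hz h1
    have hc' : c ∉ t := by
      intro h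
      rcases htall c h with h | h | h
      · exact hqc h.symm
      · exact hsc h.symm
      · exact hpc h.symm
    unfold ED at h1
    push Not at h1
    obtain ⟨u, hu, v, hv, hu', hv', huv⟩ := h1
    simp only [mem_insert, mem_singleton] at hu hv
    have h5 := hzT z hz
    have h3' := htall u hu'
    have h4' := htall v hv'
    grind
  have hzq : ∀ z ∈ Z, ∀ T' ∈ A, q ∈ T' → z ∉ T' := by
    intro z hz T' hT' hq hz'
    have h1 := (hZp z hz).ed T' (hA hT') (fun h => hTA (h ▸ hT'))
    exact (hzT z hz).1 (h1 z (by simp) q (by simp) hz' hq)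
  have hc1 : Z1.card ≤ 1 := by
    rw [card_le_one]
    intro z hz z' hz'
    rw [hZ1, mem_filter] at hz hz'
    obtain ⟨hz, h⟩ := hz
    obtain ⟨hz', h'⟩ := hz'
    rcases h with h | ⟨T', hT', hq, h⟩
    · rcases h' with h' | ⟨T', hT', hq, h'⟩
      · rw [hkt z hz h, hkt z' hz' h']
      · exfalso
        have := hkt z hz h
        subst this
        exact hzq z hz T' hT' hq (hApq T' hT').1
    · rcases h' with h' | ⟨T'', hT'', hq', h'⟩
      · exfalso
        have := hkt z' hz' h'
        subst this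
        exact hzq z' hz' T' hT' hq (hApq T' hT').1
      · have hTT' : T' = T'' := by
          by_contra hne
          exact hpq (hM.2 T' (hA hT') T'' (hA hT'') hne p (hApq T' hT').1 q hq
            (hApq T'' hT'').1 hq')
        subst hTT'
        by_contra hne
        have k1 := hkill z hz T' hT' h
        have k2 := hkill z' hz' T' hT' h'
        have n1 := hzq z hz T' hT' hq
        have n2 := hzq z' hz' T' hT' hq
        have hhit := (hf T' hT').hit
        obtain ⟨u, hu, huz, huz'⟩ := third (h3 _ (hf T' hT').memF) z z'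
        apply hhit
        intro a ha b hb ha' hb'
        have ea := mem3 (h3 _ (hf T' hT').memF) k1.1 k2.1 hu hne huz.symm huz'.symm ha
        have eb := mem3 (h3 _ (hf T' hT').memF) k1.1 k2.1 hu hne huz.symm huz'.symm hb
        grind
  have hc2 : Z2.card ≤ 2 := by
    rcases Z2.eq_empty_or_nonempty with h0 | ⟨z0, hz0⟩
    · rw [h0]; simp
    · rw [hZ2, mem_filter] at hz0
      obtain ⟨hz0, T2, hT2, hq2, hk2⟩ := hz0
      have hsub : Z2 ⊆ (f T2) \ {q, c} := by
        intro z hz
        rw [hZ2, mem_filter] at hz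
        obtain ⟨hz, T', hT', hq', hk'⟩ := hz
        have hTT' : T' = T2 := by
          by_contra hne
          have e1 := hApq T' hT'
          have e2 := hApq T2 hT2
          have : p = s := hM.2 T' (hA hT') T2 (hA hT2) hne p e1.1 s
            (e1.2.resolve_left hq') e2.1 (e2.2.resolve_left hq2)
          exact hps this
        subst hTT'
        rw [mem_sdiff]
        refine ⟨(hkill z hz T' hT' hk').1, ?_⟩
        have := hzT z hz
        simp only [mem_insert, mem_singleton]
        rintro (h | h)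
        · exact this.1 h
        · exact this.2.2 h
      have hlt : ((f T2) \ {q, c}).card < (f T2).card := by
        apply card_lt_card
        rw [ssubset_iff_subset_ne]
        refine ⟨sdiff_subset, ?_⟩
        intro heq
        rcases (hkill z0 hz0 T2 hT2 hk2).2 with h | h
        · have : q ∈ (f T2) \ {q, c} := by rw [heq]; exact h
          rw [mem_sdiff] at this
          exact this.2 (by simp)
        · have : c ∈ (f T2) \ {q, c} := by rw [heq]; exact h
          rw [mem_sdiff] at this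
          exact this.2 (by simp)
      have := h3 _ (hf T2 hT2).memF
      have := card_le_card hsub
      omega
  have hun : (Z1 ∪ Z2).card < Z.card := by
    have := card_union_le Z1 Z2
    omega
  obtain ⟨z, hz, hzn⟩ := exists_mem_notMem_of_card_lt_card hun
  rw [mem_union, not_or] at hzn
  refine ⟨z, hz, ?_, ?_⟩
  · by_contra h
    exact hzn.1 (by rw [hZ1, mem_filter]; exact ⟨hz, Or.inl h⟩)
  · intro T' hT'
    by_contra h
    by_cases hq : q ∈ T'
    · exact hzn.1 (by rw [hZ1, mem_filter]; exact ⟨hz, Or.inr ⟨T', hT', hq, h⟩⟩)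
    · exact hzn.2 (by rw [hZ2, mem_filter]; exact ⟨hz, T', hT', hq, h⟩)

/-- The step of the greedy choice. -/
theorem step (h3 : ∀ t ∈ F, t.card = 3) (hM : Pk F M)
    {t T h : Finset V} (ht : t ∈ F) (hT : T ∈ M) (hit : ¬ ED t T) (hh : h ⊆ T) (hc2 : h.card = 2)
    (hnt : ¬ h ⊆ t)
    {Z : Finset V} (hZ : 4 ≤ Z.card) (hZp : ∀ z ∈ Z, Priv F w M T (insert z h))
    {A : Finset (Finset V)} (hA : A ⊆ M) (hTA : T ∉ A) (hAt : ∀ T' ∈ A, ¬ ED t T')
    {f : Finset V → Finset V} (hf : ∀ T' ∈ A, Priv F w M T' (f T')) :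
    ∃ z ∈ Z, ED (insert z h) t ∧ ∀ T' ∈ A, ED (insert z h) (f T') := by
  have hne : t ≠ T := fun h1 => hnt (h1 ▸ hh)
  obtain ⟨q, s, c, p, hqT, hsT, hcT, hqt, hst, hpt, hpT, hct, hqs, hqc, hsc, hpq, hps, hpc,
    hTall, htall⟩ := two_common (h3 T (hM.1 hT)) (h3 t ht) hit hne
  obtain ⟨u, v, huv, rfl⟩ := card_eq_two.1 hc2
  have hu : u ∈ T := hh (by simp)
  have hv : v ∈ T := hh (by simp)
  have hcase : ({u, v} : Finset V) = {q, c} ∨ ({u, v} : Finset V) = {s, c} := by
    have hu' := hTall u hu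
    have hv' := hTall v hv
    have hnot : ¬ (u ∈ t ∧ v ∈ t) := by
      intro h1
      apply hnt
      intro x hx
      simp only [mem_insert, mem_singleton] at hx
      rcases hx with rfl | rfl
      · exact h1.1
      · exact h1.2
    rcases hu' with rfl | rfl | rfl <;> rcases hv' with rfl | rfl | rfl
    · exact absurd rfl huv
    · exact absurd ⟨hqt, hst⟩ hnot
    · exact Or.inl rfl
    · exact absurd ⟨hst, hqt⟩ hnot
    · exact absurd rfl huv
    · exact Or.inr rfl
    · exact Or.inl (pair_comm _ _)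
    · exact Or.inr (pair_comm _ _)
    · exact absurd rfl huv
  rcases hcase with h | h
  · rw [h] at hZp ⊢
    exact step_aux h3 hM hT hqT hsT hcT hqt hst hpt hqs hqc hsc hpq hps hpc hTall htall hZ hZp
      hA hTA hAt hf
  · rw [h] at hZp ⊢
    exact step_aux h3 hM hT hsT hqT hcT hst hqt hpt hqs.symm hsc hqc hps hpq hpc
      (fun x hx => by rcases hTall x hx with h | h | h <;> tauto)
      (fun x hx => by rcases htall x hx with h | h | h <;> tauto) hZ hZp
      hA hTA hAt hf

/-- The base of the greedy choice. -/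
theorem base (h3 : ∀ t ∈ F, t.card = 3) (hM : Pk F M) {t : Finset V} (ht : t ∈ F)
    {A : Finset (Finset V)} (hA : A ⊆ M) (hAt : ∀ T ∈ A, ¬ ED t T)
    {pi : Finset V → Finset V} (hpi : ∀ T ∈ A, Priv F w M T (pi T))
    (hED : ∀ T ∈ A, ∀ T' ∈ A, T ≠ T' → ED (pi T) (pi T'))
    (hhead : ∀ T ∈ A, ¬ (pi T ∩ T ⊆ t))
    (hrich : ∀ T ∈ A, (T \ pi T) ∪ (pi T \ T) ⊆ t →
      ∃ p', Priv F w M T p' ∧ p' ≠ pi T ∧ p' ∩ T = pi T ∩ T) :
    ∃ f : Finset V → Finset V, (∀ T ∈ A, Priv F w M T (f T)) ∧ (∀ T ∈ A, ED (f T) t) ∧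
      (∀ T ∈ A, ∀ T' ∈ A, T ≠ T' → ED (f T) (f T')) := by
  classical
  by_cases hall : ∀ T ∈ A, ED (pi T) t
  · exact ⟨pi, hpi, hall, hED⟩
  push Not at hall
  obtain ⟨T0, hT0, hk⟩ := hall
  have hT0M := hA hT0
  have hp0 := hpi T0 hT0
  -- T0 = {a, b, c}, pi T0 = {a, b, x}
  obtain ⟨a, b, c, x, haT, hbT, hcT, hap, hbp, hxp, hxT, hcp, hab, hac, hbc, hxa, hxb, hxc,
    hTall, hpall⟩ := two_common (h3 T0 (hM.1 hT0M)) (h3 _ hp0.memF) hp0.hit hp0.ne
  have hhd : ¬ (a ∈ t ∧ b ∈ t) := by
    intro h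
    apply hhead T0 hT0
    intro y hy
    rw [mem_inter] at hy
    rcases hTall y hy.2 with rfl | rfl | rfl
    · exact h.1
    · exact h.2
    · exact absurd hy.1 hcp
  -- WLOG `a ∈ t`
  have key : ∃ a' b', ({a', b'} : Finset V) = {a, b} ∧ a' ∈ t ∧ b' ∉ t ∧ c ∈ t ∧ x ∈ t := by
    have h1 := hAt T0 hT0
    have h2 : ¬ ED t (pi T0) := fun h => hk h.symm
    unfold ED at h1 h2
    push Not at h1 h2
    obtain ⟨u, hu, v, hv, hu', hv', huv⟩ := h1
    obtain ⟨u2, hu2, v2, hv2, hu2', hv2', huv2⟩ := h2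
    have e1 := hTall u hu'
    have e2 := hTall v hv'
    have e3 := hpall u2 hu2'
    have e4 := hpall v2 hv2'
    have hc' : c ∈ t := by grind
    have hx' : x ∈ t := by grind
    by_cases hat : a ∈ t
    · exact ⟨a, b, rfl, hat, fun h => hhd ⟨hat, h⟩, hc', hx'⟩
    · have hbt : b ∈ t := by grind
      exact ⟨b, a, pair_comm _ _, hbt, hat, hc', hx'⟩
  obtain ⟨a', b', hpair, ha't, hb't, hct, hxt⟩ := key
  have hsub : (T0 \ pi T0) ∪ (pi T0 \ T0) ⊆ t := by
    intro y hy
    rw [mem_union, mem_sdiff, mem_sdiff] at hy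
    rcases hy with ⟨hy1, hy2⟩ | ⟨hy1, hy2⟩
    · rcases hTall y hy1 with rfl | rfl | rfl
      · exact absurd hap hy2
      · exact absurd hbp hy2
      · exact hct
    · rcases hpall y hy1 with rfl | rfl | rfl
      · exact absurd haT hy2
      · exact absurd hbT hy2
      · exact hxt
  obtain ⟨p', hp', hp'ne, hp'h⟩ := hrich T0 hT0 hsub
  have hmemab : ∀ y, (y = a' ∨ y = b') ↔ (y = a ∨ y = b) := by
    intro y
    have : y ∈ ({a', b'} : Finset V) ↔ y ∈ ({a, b} : Finset V) := by rw [hpair]
    simpa using this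
  have hab' : a' ≠ b' := fun h => hb't (h ▸ ha't)
  have ha'c : a' ≠ c := by have := hmemab a'; grind
  have hb'c : b' ≠ c := by have := hmemab b'; grind
  have ha'x : a' ≠ x := by have := hmemab a'; grind
  have hb'x : b' ≠ x := by have := hmemab b'; grind
  have ha'T : a' ∈ T0 := by have := hmemab a'; grind
  have hb'T : b' ∈ T0 := by have := hmemab b'; grind
  have ha'p : a' ∈ pi T0 := by have := hmemab a'; grind
  have hb'p : b' ∈ pi T0 := by have := hmemab b'; grind
  have hTall' : ∀ y ∈ T0, y = a' ∨ y = b' ∨ y = c := by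
    intro y hy
    exact mem3 (h3 T0 (hM.1 hT0M)) ha'T hb'T hcT hab' ha'c hb'c hy
  have hpall' : ∀ y ∈ pi T0, y = a' ∨ y = b' ∨ y = x := by
    intro y hy
    exact mem3 (h3 _ hp0.memF) ha'p hb'p hxp hab' ha'x hb'x hy
  have htall' : ∀ y ∈ t, y = a' ∨ y = c ∨ y = x := by
    intro y hy
    exact mem3 (h3 t ht) ha't hct hxt ha'c ha'x hxc.symm hy
  -- p' = {a', b', z}
  have ha'p' : a' ∈ p' := by
    have : a' ∈ p' ∩ T0 := by rw [hp'h, mem_inter]; exact ⟨ha'p, ha'T⟩
    exact (mem_inter.1 this).1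
  have hb'p' : b' ∈ p' := by
    have : b' ∈ p' ∩ T0 := by rw [hp'h, mem_inter]; exact ⟨hb'p, hb'T⟩
    exact (mem_inter.1 this).1
  obtain ⟨z, hzp', hza, hzb⟩ := third (h3 _ hp'.memF) a' b'
  have hp'all : ∀ y ∈ p', y = a' ∨ y = b' ∨ y = z := fun y hy =>
    mem3 (h3 _ hp'.memF) ha'p' hb'p' hzp' hab' hza.symm hzb.symm hy
  have hzc : z ≠ c := by
    rintro rfl
    have : z ∈ p' ∩ T0 := mem_inter.2 ⟨hzp', hcT⟩
    rw [hp'h, mem_inter] at this
    exact hcp this.1
  have hzx : z ≠ x := by
    rintro rfl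
    apply hp'ne
    ext y
    constructor
    · intro hy
      rcases hp'all y hy with rfl | rfl | rfl <;> assumption
    · intro hy
      rcases hpall' y hy with rfl | rfl | rfl <;> assumption
  have hED' : ED p' t := by
    intro u hu v hv hu' hv'
    have e1 := hp'all u hu
    have e2 := hp'all v hv
    have e3 := htall' u hu'
    have e4 := htall' v hv'
    grind
  have hoth : ∀ T' ∈ A, T' ≠ T0 → ED (pi T') t ∧ ED p' (pi T') := by
    intro T' hT' hne
    have hT'M := hA hT'
    have g1 : ED T0 T' := hM.2 T0 hT0M T' hT'M hne.symm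
    have g2 : ED (pi T0) T' := hp0.ed T' hT'M hne
    have g3 := hAt T' hT'
    have hp1 := hpi T' hT'
    have g4 : ED (pi T') T0 := hp1.ed T0 hT0M hne.symm
    have g5 : ED (pi T') (pi T0) := hED T' hT' T0 hT0 hne
    have hcx : c ∈ T' ∧ x ∈ T' := by
      unfold ED at g3
      push Not at g3
      obtain ⟨u, hu, v, hv, hu', hv', huv⟩ := g3
      have e1 := htall' u hu
      have e2 := htall' v hv
      have n1 : ¬ (a' ∈ T' ∧ c ∈ T') := fun h => ha'c (g1 a' ha'T c hcT h.1 h.2)
      have n2 : ¬ (a' ∈ T' ∧ x ∈ T') := fun h => ha'x (g2 a' ha'p x hxp h.1 h.2)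
      grind
    obtain ⟨v, hv, hvc, hvx⟩ := third (h3 T' (hM.1 hT'M)) c x
    have hT'all : ∀ y ∈ T', y = c ∨ y = x ∨ y = v := fun y hy =>
      mem3 (h3 T' (hM.1 hT'M)) hcx.1 hcx.2 hv hxc.symm hvc.symm hvx.symm hy
    -- facts on pi T'
    have n1 : ¬ (a' ∈ pi T' ∧ c ∈ pi T') := fun h => ha'c (g4 a' h.1 c h.2 ha'T hcT)
    have n2 : ¬ (a' ∈ pi T' ∧ x ∈ pi T') := fun h => ha'x (g5 a' h.1 x h.2 ha'p hxp)
    have n3 : ¬ (b' ∈ pi T' ∧ c ∈ pi T') := fun h => hb'c (g4 b' h.1 c h.2 hb'T hcT)
    have n4 : ¬ (b' ∈ pi T' ∧ x ∈ pi T') := fun h => hb'x (g5 b' h.1 x h.2 hb'p hxp)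
    have n5 : ¬ (a' ∈ pi T' ∧ b' ∈ pi T') := fun h => hab' (g4 a' h.1 b' h.2 ha'T hb'T)
    have n6 : ¬ (c ∈ pi T' ∧ x ∈ pi T') := by
      intro h
      apply hhead T' hT'
      intro y hy
      rw [mem_inter] at hy
      rcases hT'all y hy.2 with rfl | rfl | rfl
      · exact hct
      · exact hxt
      · exfalso
        apply hp1.ne
        have hcard : (pi T').card ≤ T'.card := by
          rw [h3 _ hp1.memF, h3 _ (hM.1 hT'M)]
        symm
        apply eq_of_subset_of_card_le _ hcard
        intro r hr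
        rcases hT'all r hr with rfl | rfl | rfl
        · exact h.1
        · exact h.2
        · exact hy.1
    have hhit := hp1.hit
    unfold ED at hhit
    push Not at hhit
    obtain ⟨u1, hu1, u2, hu2, hu1', hu2', hu12⟩ := hhit
    have e1 := hT'all u1 hu1'
    have e2 := hT'all u2 hu2'
    have hvp : v ∈ pi T' := by grind
    have hcxp : c ∈ pi T' ∨ x ∈ pi T' := by grind
    constructor
    · intro r hr r' hr' h1 h2
      have e3 := htall' r h1
      have e4 := htall' r' h2
      grind
    · intro r hr r' hr' h1 h2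
      have e3 := hp'all r hr
      have e4 := hp'all r' hr'
      grind
  refine ⟨fun T => if T = T0 then p' else pi T, ?_, ?_, ?_⟩
  · intro T hT
    by_cases h : T = T0
    · simp only [if_pos h]; rw [h]; exact hp'
    · simp only [if_neg h]; exact hpi T hT
  · intro T hT
    by_cases h : T = T0
    · simp only [if_pos h]; exact hED'
    · simp only [if_neg h]; exact (hoth T hT h).1
  · intro T hT T' hT' hne
    by_cases h : T = T0
    · by_cases h' : T' = T0
      · exact absurd (h.trans h'.symm) hne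
      · simp only [if_pos h, if_neg h']; exact (hoth T' hT' h').2
    · by_cases h' : T' = T0
      · simp only [if_neg h, if_pos h']; exact (hoth T hT h).2.symm
      · simp only [if_neg h, if_neg h']; exact hED T hT T' hT' hne

theorem inter_card {T p : Finset V} (hT : T.card = 3) (hp : p.card = 3) (h : ¬ ED p T)
    (hne : p ≠ T) : (p ∩ T).card = 2 := by
  obtain ⟨a, b, c, x, haT, hbT, hcT, hap, hbp, hxp, hxT, hcp, hab, hac, hbc, hxa, hxb, hxc,
    hTall, hpall⟩ := two_common hT hp h hne
  have : p ∩ T = {a, b} := by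
    ext y
    simp only [mem_inter, mem_insert, mem_singleton]
    constructor
    · rintro ⟨h1, h2⟩
      rcases hTall y h2 with rfl | rfl | rfl
      · exact Or.inl rfl
      · exact Or.inr rfl
      · exact absurd h1 hcp
    · rintro (rfl | rfl)
      · exact ⟨hap, haT⟩
      · exact ⟨hbp, hbT⟩
  rw [this, card_pair hab]

theorem symm_card {T p : Finset V} (hT : T.card = 3) (hp : p.card = 3) (h : ¬ ED p T)
    (hne : p ≠ T) : ((T \ p) ∪ (p \ T)).card = 2 := by
  obtain ⟨a, b, c, x, haT, hbT, hcT, hap, hbp, hxp, hxT, hcp, hab, hac, hbc, hxa, hxb, hxc,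
    hTall, hpall⟩ := two_common hT hp h hne
  have : (T \ p) ∪ (p \ T) = {c, x} := by
    ext y
    simp only [mem_union, mem_sdiff, mem_insert, mem_singleton]
    constructor
    · rintro (⟨h1, h2⟩ | ⟨h1, h2⟩)
      · rcases hTall y h1 with rfl | rfl | rfl
        · exact absurd hap h2
        · exact absurd hbp h2
        · exact Or.inl rfl
      · rcases hpall y h1 with rfl | rfl | rfl
        · exact absurd haT h2
        · exact absurd hbT h2
        · exact Or.inr rfl
    · rintro (rfl | rfl)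
      · exact Or.inl ⟨hcT, hcp⟩
      · exact Or.inr ⟨hxp, hxT⟩
  rw [this, card_pair hxc.symm]

/-- **Lemma I.** -/
theorem lemI (h3 : ∀ t ∈ F, t.card = 3) (hw : ∀ t ∈ F, 0 < w t) (hM : MaxP F w M)
    {P Q Q2 : Finset (Finset V)} (hP : P ⊆ M) (hQ : Q ⊆ M) (hPQ : Disjoint P Q) (hQ2 : Q2 ⊆ Q)
    {hd : Finset V → Finset V} (hhd : ∀ T ∈ P, hd T ⊆ T ∧ (hd T).card = 2)
    {Z : Finset V → Finset V} (hZ : ∀ T ∈ P, 4 ≤ (Z T).card)
    (hZp : ∀ T ∈ P, ∀ z ∈ Z T, Priv F w M T (insert z (hd T)))
    {pi : Finset V → Finset V} (hpi : ∀ T ∈ Q, Priv F w M T (pi T))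
    (hED : ∀ T ∈ Q, ∀ T' ∈ Q, T ≠ T' → ED (pi T) (pi T'))
    (hrich : ∀ T ∈ Q2, ∃ p', Priv F w M T p' ∧ p' ≠ pi T ∧ p' ∩ T = pi T ∩ T) :
    tau F + 2 * P.card + Q.card + Q2.card ≤ 3 * M.card := by
  classical
  have h3M : ∀ T ∈ M, T.card = 3 := fun T hT => h3 T (hM.pk.1 hT)
  set C : Finset (Finset V) := (M \ (P ∪ Q)).biUnion E ∪ P.image hd ∪
    Q.image (fun T => pi T ∩ T) ∪ (Q \ Q2).image (fun T => (T \ pi T) ∪ (pi T \ T)) with hC
  have hCv : Cv F C := by
    refine ⟨?_, ?_⟩
    · intro e he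
      rw [hC, mem_union, mem_union, mem_union, mem_biUnion, mem_image, mem_image, mem_image] at he
      rcases he with ((⟨T, hT, he⟩ | ⟨T, hT, rfl⟩) | ⟨T, hT, rfl⟩) | ⟨T, hT, rfl⟩
      · exact (mem_E.1 he).2
      · exact (hhd T hT).2
      · exact inter_card (h3M T (hQ hT)) (h3 _ (hpi T hT).memF) (hpi T hT).hit (hpi T hT).ne
      · have hT' := (mem_sdiff.1 hT).1
        exact symm_card (h3M T (hQ hT')) (h3 _ (hpi T hT').memF) (hpi T hT').hit (hpi T hT').ne
    · intro t ht
      by_contra hcon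
      push Not at hcon
      set S := M.filter (fun T => ¬ ED t T) with hS
      have hSM : S ⊆ M := filter_subset _ _
      have hSPQ : ∀ T ∈ S, T ∈ P ∨ T ∈ Q := by
        intro T hT
        rw [hS, mem_filter] at hT
        by_contra hno
        obtain ⟨e, he, he'⟩ := exists_edge hT.2
        refine hcon e ?_ (mem_E.1 he).1
        rw [hC, mem_union, mem_union, mem_union]
        left; left; left
        rw [mem_biUnion]
        refine ⟨T, ?_, he'⟩
        rw [mem_sdiff, mem_union]
        exact ⟨hT.1, hno⟩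
      -- base
      obtain ⟨f0, hf1, hf2, hf3⟩ := base (w := w) h3 hM.pk ht (A := S ∩ Q)
        (fun T hT => hSM (mem_inter.1 hT).1)
        (fun T hT => (mem_filter.1 (mem_inter.1 hT).1).2)
        (fun T hT => hpi T (mem_inter.1 hT).2)
        (fun T hT T' hT' hne => hED T (mem_inter.1 hT).2 T' (mem_inter.1 hT').2 hne)
        (by
          intro T hT hsub
          refine hcon (pi T ∩ T) ?_ hsub
          rw [hC, mem_union, mem_union]
          left; right
          exact mem_image.2 ⟨T, (mem_inter.1 hT).2, rfl⟩)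
        (by
          intro T hT hsub
          have hTQ := (mem_inter.1 hT).2
          by_cases h2 : T ∈ Q2
          · exact hrich T h2
          · exfalso
            refine hcon ((T \ pi T) ∪ (pi T \ T)) ?_ hsub
            rw [hC, mem_union]
            right
            exact mem_image.2 ⟨T, mem_sdiff.2 ⟨hTQ, h2⟩, rfl⟩)
      -- insert the big members
      have hind : ∀ B : Finset (Finset V), B ⊆ S ∩ P → ∃ f : Finset V → Finset V,
          (∀ T ∈ (S ∩ Q) ∪ B, Priv F w M T (f T)) ∧ (∀ T ∈ (S ∩ Q) ∪ B, ED (f T) t) ∧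
          (∀ T ∈ (S ∩ Q) ∪ B, ∀ T' ∈ (S ∩ Q) ∪ B, T ≠ T' → ED (f T) (f T')) := by
        intro B
        induction B using Finset.induction_on with
        | empty => intro _; rw [union_empty]; exact ⟨f0, hf1, hf2, hf3⟩
        | insert T B hTB ih =>
          intro hB
          obtain ⟨f, g1, g2, g3⟩ := ih (fun x hx => hB (mem_insert_of_mem hx))
          have hTSP := hB (mem_insert_self T B)
          rw [mem_inter] at hTSP
          have hTnot : T ∉ (S ∩ Q) ∪ B := by
            rw [mem_union, mem_inter]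
            rintro (h | h)
            · exact disjoint_left.1 hPQ hTSP.2 h.2
            · exact hTB h
          obtain ⟨z, hz, hz1, hz2⟩ := step (w := w) h3 hM.pk ht (hP hTSP.2)
            (mem_filter.1 hTSP.1).2
            (hhd T hTSP.2).1 (hhd T hTSP.2).2
            (by
              intro hsub
              refine hcon (hd T) ?_ hsub
              rw [hC, mem_union, mem_union, mem_union]
              left; left; right
              exact mem_image.2 ⟨T, hTSP.2, rfl⟩)
            (hZ T hTSP.2) (hZp T hTSP.2) (A := (S ∩ Q) ∪ B)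
            (by
              intro x hx
              rcases mem_union.1 hx with hx | hx
              · exact hSM (mem_inter.1 hx).1
              · exact hSM (mem_inter.1 (hB (mem_insert_of_mem hx))).1)
            hTnot
            (by
              intro x hx
              rcases mem_union.1 hx with hx | hx
              · exact (mem_filter.1 (mem_inter.1 hx).1).2
              · exact (mem_filter.1 (mem_inter.1 (hB (mem_insert_of_mem hx))).1).2)
            g1
          have hmem : ∀ x, x ∈ (S ∩ Q) ∪ insert T B → x ≠ T → x ∈ (S ∩ Q) ∪ B := by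
            intro x hx hxT
            rw [mem_union, mem_insert] at hx
            rw [mem_union]
            rcases hx with hx | hx | hx
            · exact Or.inl hx
            · exact absurd hx hxT
            · exact Or.inr hx
          refine ⟨fun x => if x = T then insert z (hd T) else f x, ?_, ?_, ?_⟩
          · intro x hx
            by_cases h : x = T
            · simp only [if_pos h]; rw [h]; exact hZp T hTSP.2 z hz
            · simp only [if_neg h]; exact g1 x (hmem x hx h)
          · intro x hx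
            by_cases h : x = T
            · simp only [if_pos h]; exact hz1
            · simp only [if_neg h]; exact g2 x (hmem x hx h)
          · intro x hx y hy hne
            by_cases h : x = T
            · by_cases h' : y = T
              · exact absurd (h.trans h'.symm) hne
              · simp only [if_pos h, if_neg h']; exact hz2 y (hmem y hy h')
            · by_cases h' : y = T
              · simp only [if_neg h, if_pos h']; exact (hz2 x (hmem x hx h)).symm
              · simp only [if_neg h, if_neg h']; exact g3 x (hmem x hx h) y (hmem y hy h') hne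
      obtain ⟨f, g1, g2, g3⟩ := hind (S ∩ P) Subset.rfl
      have hSall : ∀ T ∈ S, T ∈ (S ∩ Q) ∪ (S ∩ P) := by
        intro T hT
        rw [mem_union, mem_inter, mem_inter]
        rcases hSPQ T hT with h | h
        · exact Or.inr ⟨hT, h⟩
        · exact Or.inl ⟨hT, h⟩
      exact replace_false h3 hw hM ht S hSM
        (by
          intro T hT hTS
          by_contra h
          exact hTS (by rw [hS, mem_filter]; exact ⟨hT, h⟩))
        f (fun T hT => g1 T (hSall T hT)) (fun T hT => g2 T (hSall T hT))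
        (fun T hT T' hT' hne => g3 T (hSall T hT) T' (hSall T' hT') hne)
  have hle := tau_le hCv
  have hc1 : ((M \ (P ∪ Q)).biUnion E).card ≤ 3 * (M \ (P ∪ Q)).card := by
    have := card_biUnion_le (s := M \ (P ∪ Q)) (t := E)
    refine this.trans ?_
    rw [sum_congr rfl (fun T hT => card_E (h3M T (mem_sdiff.1 hT).1)), sum_const, smul_eq_mul,
      mul_comm]
  have hc2 : (P.image hd).card ≤ P.card := card_image_le
  have hc3 : (Q.image (fun T => pi T ∩ T)).card ≤ Q.card := card_image_le
  have hc4 : ((Q \ Q2).image (fun T => (T \ pi T) ∪ (pi T \ T))).card ≤ (Q \ Q2).card :=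
    card_image_le
  have hc5 : (Q \ Q2).card + Q2.card = Q.card := card_sdiff_add_card_eq_card hQ2
  have hc6 : (M \ (P ∪ Q)).card + (P ∪ Q).card = M.card :=
    card_sdiff_add_card_eq_card (union_subset hP hQ)
  have hc7 : (P ∪ Q).card = P.card + Q.card := card_union_of_disjoint hPQ
  have hu1 := card_union_le ((M \ (P ∪ Q)).biUnion E ∪ P.image hd ∪
    Q.image (fun T => pi T ∩ T)) ((Q \ Q2).image (fun T => (T \ pi T) ∪ (pi T \ T)))
  have hu2 := card_union_le ((M \ (P ∪ Q)).biUnion E ∪ P.image hd)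
    (Q.image (fun T => pi T ∩ T))
  have hu3 := card_union_le ((M \ (P ∪ Q)).biUnion E) (P.image hd)
  rw [← hC] at hu1
  omega

end Pool.Agent.Lib.MP_136524_co
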