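import Pool.Agent.Lib.MP_136524_co.LemI

/-!
# Lemma II: families whose triangles have at least two edges in a set `X`
-/

namespace Pool.Agent.Lib.MP_136524_co

open Finset

variable {V : Type*} [DecidableEq V]

/-- The weight of a triangle: three for exactly two edges in `X`, one otherwise. -/
def wt (X : Finset (Finset V)) (t : Finset V) : ℕ := if (E t ∩ X).card = 2 then 3 else 1

theorem edge_unique {T p e : Finset V} (hT : T.card = 3) (hp : p.card = 3) (hne : p ≠ T)
    (he : e ∈ E p) (he' : e ∈ E T) : p ∩ T = e := by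
  have h1 := inter_card hT hp (not_ED_of_edge he he') hne
  symm
  apply eq_of_subset_of_card_le (subset_inter (mem_E.1 he).1 (mem_E.1 he').1)
  rw [h1, (mem_E.1 he).2]

theorem card_cap_add {X : Finset (Finset V)} {t : Finset V} (h : t.card = 3) :
    (E t ∩ X).card + (E t \ X).card = 3 := by
  rw [card_inter_add_card_sdiff, card_E h]

set_option maxHeartbeats 4000000 in
/-- **Lemma II.** -/
theorem lemII {F X M : Finset (Finset V)} (h3 : ∀ t ∈ F, t.card = 3)
    (hX2 : ∀ e ∈ X, e.card = 2) (hX : ∀ t ∈ F, 2 ≤ (E t ∩ X).card) (hM : MaxP F (wt X) M) :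
    10 * tau F ≤ 24 * M.card + X.card := by
  classical
  have h3M : ∀ T ∈ M, T.card = 3 := fun T hT => h3 T (hM.pk.1 hT)
  have hw : ∀ t ∈ F, 0 < wt X t := by
    intro t _; unfold wt; split_ifs <;> norm_num
  set M2 := M.filter (fun t => (E t ∩ X).card = 2) with hM2
  set M3 := M.filter (fun t => ¬ (E t ∩ X).card = 2) with hM3
  have hM23 : M2.card + M3.card = M.card :=
    card_filter_add_card_filter_not (s := M) (p := fun t => (E t ∩ X).card = 2)
  have hM2M : M2 ⊆ M := filter_subset _ _
  have hM3M : M3 ⊆ M := filter_subset _ _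
  have hM2c : ∀ T ∈ M2, (E T ∩ X).card = 2 := fun T hT => (mem_filter.1 hT).2
  have hM2c' : ∀ T ∈ M2, (E T \ X).card = 1 := by
    intro T hT
    have h1 := hM2c T hT
    have h2 := card_cap_add (X := X) (h3M T (hM2M hT))
    omega
  have hM3c : ∀ T ∈ M3, E T ⊆ X := by
    intro T hT
    have h1 := (mem_filter.1 hT).2
    have h2 := hX T (hM.pk.1 (hM3M hT))
    have h3' := card_cap_add (X := X) (h3M T (hM3M hT))
    have h4 : (E T \ X).card = 0 := by omega
    rw [card_eq_zero, sdiff_eq_empty_iff_subset] at h4
    exact h4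
  set EM2 := M2.biUnion E with hEM2
  set EM3 := M3.biUnion E with hEM3
  set H := EM2 \ X with hH
  set EM := M.biUnion E with hEM
  have hEM_cases : ∀ e, e ∈ EM → e ∈ EM2 ∨ e ∈ EM3 := by
    intro e he
    obtain ⟨T, hT, he⟩ := mem_biUnion.1 he
    by_cases h : (E T ∩ X).card = 2
    · left; exact mem_biUnion.2 ⟨T, mem_filter.2 ⟨hT, h⟩, he⟩
    · right; exact mem_biUnion.2 ⟨T, mem_filter.2 ⟨hT, h⟩, he⟩
  have hEM3X : EM3 ⊆ X := by
    intro e he
    obtain ⟨T, hT, he⟩ := mem_biUnion.1 he
    exact hM3c T hT he
  have hsame : ∀ T ∈ M, ∀ T' ∈ M, ∀ e, e ∈ E T → e ∈ E T' → T = T' := by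
    intro T hT T' hT' e he he'
    by_contra hne
    exact not_ED_of_edge he he' (hM.pk.2 T hT T' hT' hne)
  -- every triangle has an edge in `EM`
  have hmeet : ∀ t ∈ F, ∃ e ∈ E t, e ∈ EM := by
    intro t ht
    by_contra hcon
    push Not at hcon
    refine replace_false h3 hw hM ht ∅ (empty_subset _) ?_ (fun _ => ∅)
      (fun T hT => absurd hT (notMem_empty T)) (fun T hT => absurd hT (notMem_empty T))
      (fun T hT => absurd hT (notMem_empty T))
    intro T hT _
    by_contra h
    obtain ⟨e, he, he'⟩ := exists_edge h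
    exact hcon e he (mem_biUnion.2 ⟨T, hT, he'⟩)
  set Pg := F.filter (fun t => (E t ∩ X).card = 2 ∧ Disjoint (E t ∩ X) EM ∧ E t \ X ⊆ H) with hPg
  have hPgF : ∀ p ∈ Pg, p ∈ F := fun p hp => (mem_filter.1 hp).1
  -- the unique edge of a page outside `X`
  have hPgc : ∀ p ∈ Pg, (E p \ X).card = 1 := by
    intro p hp
    have h1 := (mem_filter.1 hp).2.1
    have h2 := card_cap_add (X := X) (h3 p (hPgF p hp))
    omega
  have hPgcom : ∀ p ∈ Pg, ∀ T ∈ M, ∀ e, e ∈ E p → e ∈ E T → e ∉ X ∧ T ∈ M2 := by
    intro p hp T hT e he he'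
    have heX : e ∉ X := by
      intro h
      exact disjoint_left.1 (mem_filter.1 hp).2.2.1 (mem_inter.2 ⟨he, h⟩)
        (mem_biUnion.2 ⟨T, hT, he'⟩)
    refine ⟨heX, ?_⟩
    by_contra h
    exact heX (hM3c T (mem_filter.2 ⟨hT, fun h2 => h (mem_filter.2 ⟨hT, h2⟩)⟩) he')
  have huniq : ∀ p ∈ Pg, ∀ e e', e ∈ E p → e' ∈ E p → e ∉ X → e' ∉ X → e = e' := by
    intro p hp e e' he he' hX1 hX2'
    have := hPgc p hp
    rw [card_eq_one] at this
    obtain ⟨g, hg⟩ := this
    have h1 : e ∈ E p \ X := mem_sdiff.2 ⟨he, hX1⟩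
    have h2 : e' ∈ E p \ X := mem_sdiff.2 ⟨he', hX2'⟩
    rw [hg, mem_singleton] at h1 h2
    rw [h1, h2]
  have huniqT : ∀ T ∈ M2, ∀ e e', e ∈ E T → e' ∈ E T → e ∉ X → e' ∉ X → e = e' := by
    intro T hT e e' he he' hX1 hX2'
    have := hM2c' T hT
    rw [card_eq_one] at this
    obtain ⟨g, hg⟩ := this
    have h1 : e ∈ E T \ X := mem_sdiff.2 ⟨he, hX1⟩
    have h2 : e' ∈ E T \ X := mem_sdiff.2 ⟨he', hX2'⟩
    rw [hg, mem_singleton] at h1 h2
    rw [h1, h2]
  have hone : ∀ p ∈ Pg, ∀ T ∈ M, ∀ T' ∈ M, ¬ ED p T → ¬ ED p T' → T = T' := by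
    intro p hp T hT T' hT' h h'
    obtain ⟨e, he, heT⟩ := exists_edge h
    obtain ⟨e', he', heT'⟩ := exists_edge h'
    have : e = e' := huniq p hp e e' he he' (hPgcom p hp T hT e he heT).1
      (hPgcom p hp T' hT' e' he' heT').1
    subst this
    exact hsame T hT T' hT' e heT heT'
  -- pages of the same member have the same head
  have hheads : ∀ p ∈ Pg, ∀ T ∈ M, ∀ e, e ∈ E p → e ∈ E T → ∀ p' ∈ Pg, ∀ e', e' ∈ E p' →
      e' ∈ E T → e = e' := by
    intro p hp T hT e he heT p' hp' e' he' heT'
    have k1 := hPgcom p hp T hT e he heT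
    have k2 := hPgcom p' hp' T hT e' he' heT'
    exact huniqT T k1.2 e e' heT heT' k1.1 k2.1
  have hpriv : ∀ p ∈ Pg, ∀ T ∈ M, ¬ ED p T → Priv F (wt X) M T p := by
    intro p hp T hT h
    obtain ⟨e, he, heT⟩ := exists_edge h
    have k1 := hPgcom p hp T hT e he heT
    refine ⟨hPgF p hp, ?_, h, ?_, ?_⟩
    · have e1 : wt X p = 3 := by unfold wt; rw [if_pos (mem_filter.1 hp).2.1]
      have e2 : wt X T = 3 := by unfold wt; rw [if_pos (hM2c T k1.2)]
      omega
    · rintro rfl
      have h1 := hM2c p k1.2
      have h2 : (E p ∩ X).Nonempty := by rw [← card_pos]; omega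
      obtain ⟨e2, he2⟩ := h2
      exact disjoint_left.1 (mem_filter.1 hp).2.2.1 he2
        (mem_biUnion.2 ⟨p, hT, (mem_inter.1 he2).1⟩)
    · intro T' hT' hne
      by_contra h'
      exact hne (hone p hp T' hT' T hT h' h)
  obtain ⟨Q, pi, hQM, hQ1, hQ2', hQ3⟩ := exists_system M Pg (fun p hp => h3 p (hPgF p hp))
    (by
      intro p hp
      have h1 : (E p \ X).Nonempty := by rw [← card_pos, hPgc p hp]; norm_num
      obtain ⟨g, hg⟩ := h1
      have h2 := (mem_filter.1 hp).2.2.2 hg
      rw [hH, mem_sdiff] at h2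
      obtain ⟨T, hT, hgT⟩ := mem_biUnion.1 h2.1
      exact ⟨T, hM2M hT, not_ED_of_edge (mem_sdiff.1 hg).1 hgT⟩)
    hone
    (by
      intro p hp p' hp' T hT h h' hED
      obtain ⟨e, he, heT⟩ := exists_edge h
      obtain ⟨e', he', heT'⟩ := exists_edge h'
      have := hheads p hp T hT e he heT p' hp' e' he' heT'
      subst this
      exact not_ED_of_edge he he' hED)
  have hQ2M : Q ⊆ M2 := by
    intro T hT
    obtain ⟨e, he, heT⟩ := exists_edge (hQ1 T hT).2
    exact (hPgcom _ (hQ1 T hT).1 T (hQM hT) e he heT).2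
  have hQpriv : ∀ T ∈ Q, Priv F (wt X) M T (pi T) :=
    fun T hT => hpriv _ (hQ1 T hT).1 T (hQM hT) (hQ1 T hT).2
  set Q2 := Q.filter (fun T => ∃ p' ∈ Pg, p' ≠ pi T ∧ ¬ ED p' T) with hQ2
  have hQ2Q : Q2 ⊆ Q := filter_subset _ _
  have hrich : ∀ T ∈ Q2, ∃ p', Priv F (wt X) M T p' ∧ p' ≠ pi T ∧ p' ∩ T = pi T ∩ T := by
    intro T hT
    obtain ⟨hTQ, p', hp', hne, hit⟩ := mem_filter.1 hT
    have k := hpriv p' hp' T (hQM hTQ) hit
    refine ⟨p', k, hne, ?_⟩
    obtain ⟨e, he, heT⟩ := exists_edge (hQ1 T hTQ).2
    obtain ⟨e', he', heT'⟩ := exists_edge hit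
    have := hheads _ (hQ1 T hTQ).1 T (hQM hTQ) e he heT p' hp' e' he' heT'
    subst this
    rw [edge_unique (h3M T (hQM hTQ)) (h3 _ k.memF) k.ne he' heT,
      edge_unique (h3M T (hQM hTQ)) (h3 _ (hQpriv T hTQ).memF) (hQpriv T hTQ).ne he heT]
  -- the head of `pi T`
  have hhead : ∀ T ∈ Q, pi T ∩ T ∈ E (pi T) ∧ pi T ∩ T ∈ E T ∧ pi T ∩ T ∉ X ∧ pi T ∩ T ∈ H := by
    intro T hT
    obtain ⟨e, he, heT⟩ := exists_edge (hQ1 T hT).2
    have k1 := hPgcom _ (hQ1 T hT).1 T (hQM hT) e he heT
    rw [edge_unique (h3M T (hQM hT)) (h3 _ (hQpriv T hT).memF) (hQpriv T hT).ne he heT]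
    refine ⟨he, heT, k1.1, ?_⟩
    rw [hH, mem_sdiff]
    exact ⟨mem_biUnion.2 ⟨T, hQ2M hT, heT⟩, k1.1⟩
  -- bound (a)
  have ha : tau F + Q.card + Q2.card ≤ 3 * M.card := by
    have := lemI (P := ∅) (hd := fun _ => ∅) (Z := fun _ => ∅) h3 hw hM (empty_subset _) hQM
      (disjoint_empty_left _) hQ2Q (fun T hT => absurd hT (notMem_empty T))
      (fun T hT => absurd hT (notMem_empty T)) (fun T hT => absurd hT (notMem_empty T))
      hQpriv hQ2' hrich
    rw [card_empty] at this
    omega
  -- bound (b)
  have hb : tau F ≤ 2 * M2.card + 3 * M3.card + 2 * Q.card + Q2.card := by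
    set C : Finset (Finset V) := M2.biUnion (fun T => E T ∩ X) ∪ EM3 ∪
      Q.biUnion (fun T => E (pi T) ∩ X) ∪ Q2.image (fun T => pi T ∩ T) with hC
    have hCv : Cv F C := by
      refine ⟨?_, ?_⟩
      · intro e he
        rw [hC, mem_union, mem_union, mem_union, mem_biUnion, mem_biUnion, mem_biUnion,
          mem_image] at he
        rcases he with ((⟨T, hT, he⟩ | ⟨T, hT, he⟩) | ⟨T, hT, he⟩) | ⟨T, hT, rfl⟩
        · exact hX2 e (mem_inter.1 he).2
        · exact (mem_E.1 he).2
        · exact hX2 e (mem_inter.1 he).2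
        · exact (mem_E.1 (hhead T (hQ2Q hT)).1).2
      · intro t ht
        by_contra hcon
        push Not at hcon
        have c1 : ∀ e ∈ E t, e ∈ X → e ∉ EM := by
          intro e he heX hEM'
          rcases hEM_cases e hEM' with h | h
          · obtain ⟨T, hT, heT⟩ := mem_biUnion.1 h
            refine hcon e ?_ (mem_E.1 he).1
            rw [hC, mem_union, mem_union, mem_union]
            left; left; left
            exact mem_biUnion.2 ⟨T, hT, mem_inter.2 ⟨heT, heX⟩⟩
          · refine hcon e ?_ (mem_E.1 he).1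
            rw [hC, mem_union, mem_union, mem_union]
            left; left; right
            exact h
        obtain ⟨g, hg, hgM⟩ := hmeet t ht
        have hgX : g ∉ X := fun h => c1 g hg h hgM
        have hcards := card_cap_add (X := X) (h3 t ht)
        have hgpos : 0 < (E t \ X).card := card_pos.2 ⟨g, mem_sdiff.2 ⟨hg, hgX⟩⟩
        have h2t := hX t ht
        have htPg : t ∈ Pg := by
          rw [hPg, mem_filter]
          refine ⟨ht, by omega, ?_, ?_⟩
          · rw [disjoint_left]
            intro e he
            exact c1 e (mem_inter.1 he).1 (mem_inter.1 he).2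
          · have h1 : (E t \ X).card = 1 := by omega
            rw [card_eq_one] at h1
            obtain ⟨g', hg'⟩ := h1
            have : g ∈ E t \ X := mem_sdiff.2 ⟨hg, hgX⟩
            rw [hg', mem_singleton] at this
            rw [hg', ← this, singleton_subset_iff, hH, mem_sdiff]
            refine ⟨?_, hgX⟩
            rcases hEM_cases g hgM with h | h
            · exact h
            · exact absurd (hEM3X h) hgX
        obtain ⟨T, hT, hit⟩ := hQ3 t htPg
        obtain ⟨e, he, heT⟩ := exists_edge hit
        by_cases heX : e ∈ X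
        · refine hcon e ?_ (mem_E.1 he).1
          rw [hC, mem_union, mem_union]
          left; right
          exact mem_biUnion.2 ⟨T, hT, mem_inter.2 ⟨heT, heX⟩⟩
        · have hh := hhead T hT
          have heq : e = pi T ∩ T := huniq _ (hQ1 T hT).1 e _ heT hh.1 heX hh.2.2.1
          by_cases hne : t = pi T
          · have h5 : (E t ∩ X).Nonempty := by rw [← card_pos]; omega
            obtain ⟨e2, he2⟩ := h5
            refine hcon e2 ?_ (mem_E.1 (mem_inter.1 he2).1).1
            rw [hC, mem_union, mem_union]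
            left; right
            exact mem_biUnion.2 ⟨T, hT, hne ▸ he2⟩
          · refine hcon (pi T ∩ T) ?_ (heq ▸ (mem_E.1 he).1)
            rw [hC, mem_union]
            right
            refine mem_image.2 ⟨T, mem_filter.2 ⟨hT, t, htPg, hne, ?_⟩, rfl⟩
            exact not_ED_of_edge he (heq ▸ hh.2.1)
    have hle := tau_le hCv
    have k1 : (M2.biUnion (fun T => E T ∩ X)).card ≤ 2 * M2.card := by
      refine card_biUnion_le.trans ?_
      rw [sum_congr rfl (fun T hT => hM2c T hT), sum_const, smul_eq_mul, mul_comm]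
    have k2 : EM3.card ≤ 3 * M3.card := by
      refine card_biUnion_le.trans ?_
      rw [sum_congr rfl (fun T hT => card_E (h3M T (hM3M hT))), sum_const, smul_eq_mul, mul_comm]
    have k3 : (Q.biUnion (fun T => E (pi T) ∩ X)).card ≤ 2 * Q.card := by
      refine card_biUnion_le.trans ?_
      rw [sum_congr rfl (fun T hT => (mem_filter.1 (hQ1 T hT).1).2.1), sum_const, smul_eq_mul,
        mul_comm]
    have k4 : (Q2.image (fun T => pi T ∩ T)).card ≤ Q2.card := card_image_le
    have u1 := card_union_le (M2.biUnion (fun T => E T ∩ X) ∪ EM3 ∪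
      Q.biUnion (fun T => E (pi T) ∩ X)) (Q2.image (fun T => pi T ∩ T))
    have u2 := card_union_le (M2.biUnion (fun T => E T ∩ X) ∪ EM3)
      (Q.biUnion (fun T => E (pi T) ∩ X))
    have u3 := card_union_le (M2.biUnion (fun T => E T ∩ X)) EM3
    rw [← hC] at u1
    omega
  -- bound (c)
  have hc : 2 * tau F + Q.card + Q2.card ≤ 3 * M2.card + X.card := by
    set W : Finset (Finset V) := (X \ M2.biUnion (fun T => E T ∩ X)) ∪
      Q.biUnion (fun T => E T ∩ X) ∪ M2.biUnion (fun T => E T \ X) ∪
      (Q \ Q2).image (fun T => (T \ pi T) ∪ (pi T \ T)) with hW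
    have hW2 : ∀ e ∈ W, e.card = 2 := by
      intro e he
      rw [hW, mem_union, mem_union, mem_union, mem_biUnion, mem_biUnion, mem_image] at he
      rcases he with ((he | ⟨T, hT, he⟩) | ⟨T, hT, he⟩) | ⟨T, hT, rfl⟩
      · exact hX2 e (mem_sdiff.1 he).1
      · exact hX2 e (mem_inter.1 he).2
      · exact (mem_E.1 (mem_sdiff.1 he).1).2
      · have hT' := (mem_sdiff.1 hT).1
        exact symm_card (h3M T (hQM hT')) (h3 _ (hQpriv T hT').memF) (hQpriv T hT').hit
          (hQpriv T hT').ne
    obtain ⟨A, _, hA⟩ := bip (W.biUnion id) W (by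
      intro e he
      exact ⟨fun x hx => mem_biUnion.2 ⟨e, he, hx⟩, hW2 e he⟩)
    set C : Finset (Finset V) := (M2 \ Q).biUnion (fun T => E T ∩ X) ∪
      W.filter (fun e => e ⊆ A ∨ Disjoint e A) with hC
    have hCv : Cv F C := by
      refine ⟨?_, ?_⟩
      · intro e he
        rw [hC, mem_union, mem_biUnion] at he
        rcases he with ⟨T, hT, he⟩ | he
        · exact hX2 e (mem_inter.1 he).2
        · exact hW2 e (mem_filter.1 he).1
      · intro t ht
        by_contra hcon
        push Not at hcon
        -- it is enough that all edges of `t` are in `W`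
        suffices hsub : E t ⊆ W by
          obtain ⟨e, he, heA⟩ := exists_inner (h3 t ht) A
          refine hcon e ?_ (mem_E.1 he).1
          rw [hC, mem_union]
          right
          exact mem_filter.2 ⟨hsub he, heA⟩
        have c1 : ∀ e ∈ E t, e ∈ X → ∀ T ∈ M2, e ∈ E T → T ∈ Q := by
          intro e he heX T hT heT
          by_contra hTQ
          refine hcon e ?_ (mem_E.1 he).1
          rw [hC, mem_union]
          left
          exact mem_biUnion.2 ⟨T, mem_sdiff.2 ⟨hT, hTQ⟩, mem_inter.2 ⟨heT, heX⟩⟩
        intro g hg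
        by_contra hgW
        have hWor : ∀ e, (e ∈ X \ M2.biUnion (fun T => E T ∩ X)) ∨
            (e ∈ Q.biUnion (fun T => E T ∩ X)) ∨ (e ∈ M2.biUnion (fun T => E T \ X)) ∨
            (e ∈ (Q \ Q2).image (fun T => (T \ pi T) ∪ (pi T \ T))) → e ∈ W := by
          intro e he
          rw [hW, mem_union, mem_union, mem_union]
          tauto
        have hgX : g ∉ X := by
          intro hgX
          apply hgW
          apply hWor
          by_cases h : g ∈ M2.biUnion (fun T => E T ∩ X)
          · right; left
            obtain ⟨T, hT, h⟩ := mem_biUnion.1 h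
            exact mem_biUnion.2 ⟨T, c1 g hg hgX T hT (mem_inter.1 h).1, h⟩
          · left
            exact mem_sdiff.2 ⟨hgX, h⟩
        have hgH : g ∉ H := by
          intro h
          rw [hH, mem_sdiff] at h
          obtain ⟨T, hT, hgT⟩ := mem_biUnion.1 h.1
          exact hgW (hWor g (Or.inr (Or.inr (Or.inl (mem_biUnion.2 ⟨T, hT,
            mem_sdiff.2 ⟨hgT, hgX⟩⟩)))))
        have hgEM : g ∉ EM := by
          intro h
          rcases hEM_cases g h with h | h
          · exact hgH (by rw [hH, mem_sdiff]; exact ⟨h, hgX⟩)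
          · exact hgX (hEM3X h)
        have hcards := card_cap_add (X := X) (h3 t ht)
        have hgpos : 0 < (E t \ X).card := card_pos.2 ⟨g, mem_sdiff.2 ⟨hg, hgX⟩⟩
        have h2t := hX t ht
        have h1t : (E t \ X).card = 1 := by omega
        have h2t' : (E t ∩ X).card = 2 := by omega
        have hoth : ∀ e ∈ E t, e ∉ X → e = g := by
          intro e he heX
          rw [card_eq_one] at h1t
          obtain ⟨g', hg'⟩ := h1t
          have k1 : e ∈ E t \ X := mem_sdiff.2 ⟨he, heX⟩
          have k2 : g ∈ E t \ X := mem_sdiff.2 ⟨hg, hgX⟩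
          rw [hg', mem_singleton] at k1 k2
          rw [k1, k2]
        set S := M.filter (fun T => ¬ ED t T) with hS
        have hSM : S ⊆ M := filter_subset _ _
        -- common edges of `t` and a member are in `X`
        have hcomX : ∀ T ∈ M, ∀ e, e ∈ E t → e ∈ E T → e ∈ X := by
          intro T hT e he heT
          by_contra h
          have := hoth e he h
          subst this
          exact hgEM (mem_biUnion.2 ⟨T, hT, heT⟩)
        have hSQ : ∀ T ∈ S, T ∉ Q → T ∈ M3 := by
          intro T hT hTQ
          rw [hS, mem_filter] at hT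
          obtain ⟨e, he, heT⟩ := exists_edge hT.2
          rw [hM3, mem_filter]
          refine ⟨hT.1, fun h2 => hTQ ?_⟩
          exact c1 e he (hcomX T hT.1 e he heT) T (mem_filter.2 ⟨hT.1, h2⟩) heT
        obtain ⟨f, hf1, hf2, hf3⟩ := base (w := wt X) h3 hM.pk ht (A := S ∩ Q)
          (fun T hT => hSM (mem_inter.1 hT).1)
          (fun T hT => (mem_filter.1 (mem_inter.1 hT).1).2)
          (fun T hT => hQpriv T (mem_inter.1 hT).2)
          (fun T hT T' hT' hne => hQ2' T (mem_inter.1 hT).2 T' (mem_inter.1 hT').2 hne)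
          (by
            intro T hT hsub
            have hTQ := (mem_inter.1 hT).2
            have hh := hhead T hTQ
            have : pi T ∩ T ∈ E t := mem_E.2 ⟨hsub, (mem_E.1 hh.1).2⟩
            have := hoth _ this hh.2.2.1
            rw [this] at hh
            exact hgH hh.2.2.2)
          (by
            intro T hT hsub
            have hTQ := (mem_inter.1 hT).2
            by_cases h2 : T ∈ Q2
            · exact hrich T h2
            · exfalso
              apply hgW
              apply hWor
              right; right; right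
              refine mem_image.2 ⟨T, mem_sdiff.2 ⟨hTQ, h2⟩, ?_⟩
              -- the edge `g` is `T ∆ pi T`
              have hgT : ¬ g ⊆ T := fun h => hgEM (mem_biUnion.2 ⟨T, hQM hTQ,
                mem_E.2 ⟨h, (mem_E.1 hg).2⟩⟩)
              have hgp : ¬ g ⊆ pi T := by
                intro h
                have h1 : g ∈ E (pi T) := mem_E.2 ⟨h, (mem_E.1 hg).2⟩
                exact hgH ((mem_filter.1 (hQ1 T hTQ).1).2.2.2 (mem_sdiff.2 ⟨h1, hgX⟩))
              have hit := (mem_filter.1 (mem_inter.1 hT).1).2
              have hp0 := hQpriv T hTQ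
              obtain ⟨a, b, c, x, haT, hbT, hcT, hap, hbp, hxp, hxT, hcp, hab, hac, hbc, hxa,
                hxb, hxc, hTall, hpall⟩ := two_common (h3M T (hQM hTQ)) (h3 _ hp0.memF) hp0.hit
                hp0.ne
              have hct : c ∈ t := hsub (mem_union_left _ (mem_sdiff.2 ⟨hcT, hcp⟩))
              have hxt : x ∈ t := hsub (mem_union_right _ (mem_sdiff.2 ⟨hxp, hxT⟩))
              obtain ⟨y, hyt, hyc, hyx⟩ := third (h3 t ht) c x
              have htall : ∀ z ∈ t, z = c ∨ z = x ∨ z = y := fun z hz =>
                mem3 (h3 t ht) hct hxt hyt hxc.symm hyc.symm hyx.symm hz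
              have hyT : y ∈ T := by
                unfold ED at hit
                push Not at hit
                obtain ⟨u, hu, v, hv, hu', hv', huv⟩ := hit
                have e1 := htall u hu
                have e2 := htall v hv
                grind
              have hyp : y ∈ pi T := by
                have := hTall y hyT
                grind
              have hsy : (T \ pi T) ∪ (pi T \ T) = {c, x} := by
                ext z
                simp only [mem_union, mem_sdiff, mem_insert, mem_singleton]
                constructor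
                · rintro (⟨h1, h2⟩ | ⟨h1, h2⟩)
                  · have := hTall z h1; grind
                  · have := hpall z h1; grind
                · rintro (rfl | rfl)
                  · exact Or.inl ⟨hcT, hcp⟩
                  · exact Or.inr ⟨hxp, hxT⟩
              rw [hsy]
              symm
              apply eq_of_subset_of_card_le
              · intro z hz
                have hzt := htall z ((mem_E.1 hg).1 hz)
                rw [mem_insert, mem_singleton]
                by_contra hno
                have hzy : z = y := by tauto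
                subst hzy
                -- the other element of `g`
                obtain ⟨u, v, huv, hgeq⟩ := card_eq_two.1 (mem_E.1 hg).2
                have hu := htall u ((mem_E.1 hg).1 (by rw [hgeq]; simp))
                have hv := htall v ((mem_E.1 hg).1 (by rw [hgeq]; simp))
                rw [hgeq] at hgT hgp hz
                simp only [insert_subset_iff, singleton_subset_iff, mem_insert,
                  mem_singleton] at hgT hgp hz
                grind
              · rw [card_pair hxc.symm, (mem_E.1 hg).2])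
        refine replace_false' h3 hM ht S (S ∩ Q) hSM inter_subset_left ?_ f hf1 hf2 hf3 ?_
        · intro T hT hTS
          by_contra h
          exact hTS (by rw [hS, mem_filter]; exact ⟨hT, h⟩)
        · have e1 : wt X t = 3 := by unfold wt; rw [if_pos h2t']
          have e2 : ∀ T ∈ S \ (S ∩ Q), wt X T = 1 := by
            intro T hT
            rw [mem_sdiff, mem_inter, not_and] at hT
            have := hSQ T hT.1 (hT.2 hT.1)
            unfold wt
            rw [if_neg (mem_filter.1 this).2]
          rw [e1, sum_congr rfl e2, sum_const, smul_eq_mul, mul_one]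
          have hex : ∀ T ∈ S, ∃ e, e ∈ E t ∧ e ∈ E T := fun T hT =>
            exists_edge (mem_filter.1 hT).2
          have : (S \ (S ∩ Q)).card ≤ (E t ∩ X).card := by
            refine card_le_card_of_injOn
              (fun T => if h : ∃ e, e ∈ E t ∧ e ∈ E T then h.choose else ∅) ?_ ?_
            · intro T hT
              have hT' := (mem_sdiff.1 hT).1
              have h := hex T hT'
              simp only [dif_pos h]
              have hs := h.choose_spec
              exact mem_coe.2 (mem_inter.2 ⟨hs.1, hcomX T (hSM hT') _ hs.1 hs.2⟩)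
            · intro T hT T' hT' heq
              have hT1 := (mem_sdiff.1 hT).1
              have hT2 := (mem_sdiff.1 hT').1
              have h := hex T hT1
              have h' := hex T' hT2
              simp only [dif_pos h, dif_pos h'] at heq
              have hs := h.choose_spec
              have hs' := h'.choose_spec
              rw [← heq] at hs'
              exact hsame T (hSM hT1) T' (hSM hT2) _ hs.2 hs'.2
          omega
    have hle := tau_le hCv
    have hQM2c : (M2 \ Q).card + Q.card = M2.card := card_sdiff_add_card_eq_card hQ2M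
    have k1 : ((M2 \ Q).biUnion (fun T => E T ∩ X)).card ≤ 2 * (M2 \ Q).card := by
      refine card_biUnion_le.trans ?_
      rw [sum_congr rfl (fun T hT => hM2c T (mem_sdiff.1 hT).1), sum_const, smul_eq_mul, mul_comm]
    have k2 : (M2.biUnion (fun T => E T ∩ X)).card = 2 * M2.card := by
      rw [card_biUnion]
      · rw [sum_congr rfl (fun T hT => hM2c T hT), sum_const, smul_eq_mul, mul_comm]
      · intro T hT T' hT' hne
        exact disjoint_of_subset_left inter_subset_left (disjoint_of_subset_right
          inter_subset_left (disjoint_E (hM.pk.2 T (hM2M hT) T' (hM2M hT') hne)))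
    have k3 : (X \ M2.biUnion (fun T => E T ∩ X)).card + (M2.biUnion (fun T => E T ∩ X)).card
        = X.card := by
      apply card_sdiff_add_card_eq_card
      intro e he
      obtain ⟨T, hT, he⟩ := mem_biUnion.1 he
      exact (mem_inter.1 he).2
    have k4 : (Q.biUnion (fun T => E T ∩ X)).card ≤ 2 * Q.card := by
      refine card_biUnion_le.trans ?_
      rw [sum_congr rfl (fun T hT => hM2c T (hQ2M hT)), sum_const, smul_eq_mul, mul_comm]
    have k5 : (M2.biUnion (fun T => E T \ X)).card ≤ M2.card := by
      refine card_biUnion_le.trans ?_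
      rw [sum_congr rfl (fun T hT => hM2c' T hT), sum_const, smul_eq_mul, mul_one]
    have k6 : ((Q \ Q2).image (fun T => (T \ pi T) ∪ (pi T \ T))).card ≤ (Q \ Q2).card :=
      card_image_le
    have k7 : (Q \ Q2).card + Q2.card = Q.card := card_sdiff_add_card_eq_card hQ2Q
    have u1 := card_union_le ((X \ M2.biUnion (fun T => E T ∩ X)) ∪
      Q.biUnion (fun T => E T ∩ X) ∪ M2.biUnion (fun T => E T \ X))
      ((Q \ Q2).image (fun T => (T \ pi T) ∪ (pi T \ T)))
    have u2 := card_union_le ((X \ M2.biUnion (fun T => E T ∩ X)) ∪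
      Q.biUnion (fun T => E T ∩ X)) (M2.biUnion (fun T => E T \ X))
    have u3 := card_union_le (X \ M2.biUnion (fun T => E T ∩ X))
      (Q.biUnion (fun T => E T ∩ X))
    have u4 := card_union_le ((M2 \ Q).biUnion (fun T => E T ∩ X))
      (W.filter (fun e => e ⊆ A ∨ Disjoint e A))
    rw [← hW] at u1
    rw [← hC] at u4
    omega
  omega

end Pool.Agent.Lib.MP_136524_co
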