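import Pool.Agent.Lib.MP_136524_co.LemII

/-!
# The bound `4 τ ≤ 11 ν` for families of triangles
-/

namespace Pool.Agent.Lib.MP_136524_co

open Finset

variable {V : Type*} [DecidableEq V]

set_option maxHeartbeats 4000000 in
/-- For every family `F` of sets of size three, covering all members of `F` by pairs needs at most
`11/4` times as many pairs as there are members in a largest packing `B`. -/
theorem main_bound {F B : Finset (Finset V)} (h3 : ∀ t ∈ F, t.card = 3)
    (hB : MaxP F (fun _ => 1) B) : 4 * tau F ≤ 11 * B.card := by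
  classical
  have h3B : ∀ T ∈ B, T.card = 3 := fun T hT => h3 T (hB.pk.1 hT)
  have hmax : ∀ N, Pk F N → N.card ≤ B.card := by
    intro N hN
    have := hB.max N hN
    simpa using this
  have hsame : ∀ T ∈ B, ∀ T' ∈ B, ∀ e, e ∈ E T → e ∈ E T' → T = T' := by
    intro T hT T' hT' e he he'
    by_contra hne
    exact not_ED_of_edge he he' (hB.pk.2 T hT T' hT' hne)
  set pr : Finset V → Finset V → Finset (Finset V) := fun T e =>
    F.filter (fun p => Priv F (fun _ => 1) B T p ∧ p ∩ T = e) with hpr
  set big := B.filter (fun T => ∃ e ∈ E T, 4 ≤ (pr T e).card) with hbig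
  have hbigB : big ⊆ B := filter_subset _ _
  set hd : Finset V → Finset V := fun T =>
    if h : ∃ e ∈ E T, 4 ≤ (pr T e).card then h.choose else ∅ with hhd
  have hhds : ∀ T ∈ big, hd T ∈ E T ∧ 4 ≤ (pr T (hd T)).card := by
    intro T hT
    have h := (mem_filter.1 hT).2
    have : hd T = h.choose := by rw [hhd]; simp only [dif_pos h]
    rw [this]
    exact h.choose_spec
  set Z : Finset V → Finset V := fun T => (pr T (hd T)).biUnion (fun p => p \ hd T) with hZ
  have hprm : ∀ T e p, p ∈ pr T e ↔ p ∈ F ∧ Priv F (fun _ => 1) B T p ∧ p ∩ T = e := by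
    intro T e p; rw [hpr]; simp only [mem_filter]
  -- `p = insert z (hd T)` for `p` in `pr T (hd T)` and `z ∈ p \ hd T`
  have hins : ∀ T ∈ big, ∀ p ∈ pr T (hd T), ∀ z ∈ p \ hd T, insert z (hd T) = p := by
    intro T hT p hp z hz
    rw [hprm] at hp
    rw [mem_sdiff] at hz
    apply eq_of_subset_of_card_le
    · apply insert_subset hz.1
      rw [← hp.2.2]
      exact inter_subset_left
    · rw [card_insert_of_notMem hz.2, (mem_E.1 (hhds T hT).1).2, h3 p hp.1]
  have hZcard : ∀ T ∈ big, 4 ≤ (Z T).card := by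
    intro T hT
    have hsub : pr T (hd T) ⊆ (Z T).image (fun z => insert z (hd T)) := by
      intro p hp
      have hne : (p \ hd T).Nonempty := by
        rw [sdiff_nonempty]
        intro hsub
        have h1 := card_le_card hsub
        rw [(mem_E.1 (hhds T hT).1).2, h3 p ((hprm _ _ _).1 hp).1] at h1
        omega
      obtain ⟨z, hz⟩ := hne
      exact mem_image.2 ⟨z, mem_biUnion.2 ⟨p, hp, hz⟩, hins T hT p hp z hz⟩
    have h1 := card_le_card hsub
    have h2 : ((Z T).image (fun z => insert z (hd T))).card ≤ (Z T).card := card_image_le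
    have := (hhds T hT).2
    omega
  have hZp : ∀ T ∈ big, ∀ z ∈ Z T, Priv F (fun _ => 1) B T (insert z (hd T)) := by
    intro T hT z hz
    obtain ⟨p, hp, hzp⟩ := mem_biUnion.1 hz
    rw [hins T hT p hp z hzp]
    exact ((hprm _ _ _).1 hp).2.1
  set Pg := F.filter (fun p => ∃ T ∈ B \ big, Priv F (fun _ => 1) B T p) with hPg
  have hPgT : ∀ p ∈ Pg, ∀ T ∈ B, ¬ ED p T → T ∉ big ∧ Priv F (fun _ => 1) B T p := by
    intro p hp T hT hit
    obtain ⟨_, T', hT', hpT'⟩ := mem_filter.1 hp
    have : T = T' := by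
      by_contra hne
      exact hit (hpT'.ed T hT hne)
    subst this
    exact ⟨(mem_sdiff.1 hT').2, hpT'⟩
  obtain ⟨Q, pi, hQB, hQ1, hQED, hQ3⟩ := exists_system B Pg (fun p hp => h3 p (mem_filter.1 hp).1)
    (by
      intro p hp
      obtain ⟨_, T', hT', hpT'⟩ := mem_filter.1 hp
      exact ⟨T', (mem_sdiff.1 hT').1, hpT'.hit⟩)
    (by
      intro p hp T hT T' hT' h h'
      by_contra hne
      exact h ((hPgT p hp T' hT' h').2.ed T hT hne))
    (by
      intro p hp p' hp' T hT h h' hED
      have k1 := (hPgT p hp T hT h).2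
      have k2 := (hPgT p' hp' T hT h').2
      have hne : p ≠ p' := by
        rintro rfl
        exact not_ED_self (h3 p k1.memF) hED
      have hN : Pk F {p, p'} := by
        refine ⟨?_, ?_⟩
        · intro x hx
          rw [mem_insert, mem_singleton] at hx
          rcases hx with rfl | rfl
          · exact k1.memF
          · exact k2.memF
        · intro x hx y hy hxy
          rw [mem_insert, mem_singleton] at hx hy
          rcases hx with h1 | h1 <;> rcases hy with h2 | h2
          · exact absurd (h1.trans h2.symm) hxy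
          · rw [h1, h2]; exact hED
          · rw [h1, h2]; exact hED.symm
          · exact absurd (h1.trans h2.symm) hxy
      have := exchange h3 hB (A := {T}) (N := {p, p'}) (singleton_subset_iff.2 hT) hN (by
        intro n hn m hm hmT
        rw [mem_singleton] at hmT
        rw [mem_insert, mem_singleton] at hn
        rcases hn with rfl | rfl
        · exact k1.ed m hm hmT
        · exact k2.ed m hm hmT)
      rw [sum_singleton, sum_pair hne] at this
      omega)
  have hQbig : ∀ T ∈ Q, T ∉ big := fun T hT => (hPgT _ (hQ1 T hT).1 T (hQB hT) (hQ1 T hT).2).1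
  have hQpriv : ∀ T ∈ Q, Priv F (fun _ => 1) B T (pi T) :=
    fun T hT => (hPgT _ (hQ1 T hT).1 T (hQB hT) (hQ1 T hT).2).2
  set Q2 := Q.filter (fun T => ∃ p', Priv F (fun _ => 1) B T p' ∧ p' ≠ pi T ∧
    p' ∩ T = pi T ∩ T) with hQ2
  have hQ2Q : Q2 ⊆ Q := filter_subset _ _
  have hI : tau F + 2 * big.card + Q.card + Q2.card ≤ 3 * B.card :=
    lemI h3 (fun _ _ => Nat.one_pos) hB hbigB hQB
      (disjoint_left.2 (fun T h1 h2 => hQbig T h2 h1)) hQ2Q
      (fun T hT => mem_E.1 (hhds T hT).1) hZcard hZp hQpriv hQED (fun T hT => (mem_filter.1 hT).2)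
  -- the second bound
  have hheadE : ∀ T p, T ∈ B → Priv F (fun _ => 1) B T p → p ∩ T ∈ E p ∧ p ∩ T ∈ E T := by
    intro T p hT hp
    have := inter_card (h3B T hT) (h3 p hp.memF) hp.hit hp.ne
    exact ⟨mem_E.2 ⟨inter_subset_left, this⟩, mem_E.2 ⟨inter_subset_right, this⟩⟩
  have hsd : ∀ T p, T ∈ B → Priv F (fun _ => 1) B T p → (E p \ {p ∩ T}).card = 2 := by
    intro T p hT hp
    have h1 := hheadE T p hT hp
    rw [card_sdiff_of_subset (singleton_subset_iff.2 h1.1), card_E (h3 p hp.memF), card_singleton]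
  set oe : Finset V → Finset V → Finset V := fun T p =>
    if h : (E p \ {p ∩ T}).Nonempty then h.choose else ∅ with hoe
  have hoes : ∀ T p, T ∈ B → Priv F (fun _ => 1) B T p → oe T p ∈ E p ∧ oe T p ≠ p ∩ T := by
    intro T p hT hp
    have h : (E p \ {p ∩ T}).Nonempty := by rw [← card_pos, hsd T p hT hp]; norm_num
    have h2 : oe T p = h.choose := by rw [hoe]; simp only [dif_pos h]
    have h4 := h.choose_spec
    rw [← h2, mem_sdiff, mem_singleton] at h4
    exact h4
  set X : Finset (Finset V) := (B \ big).biUnion E ∪ Q.biUnion (fun T => E (pi T) \ {pi T ∩ T}) ∪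
    Q2.biUnion (fun T => ((pr T (pi T ∩ T)).erase (pi T)).image (oe T)) with hX
  set F' := F.filter (fun t => ∀ T ∈ big, ED t T) with hF'
  have h3' : ∀ t ∈ F', t.card = 3 := fun t ht => h3 t (mem_filter.1 ht).1
  have hX2 : ∀ e ∈ X, e.card = 2 := by
    intro e he
    rw [hX, mem_union, mem_union, mem_biUnion, mem_biUnion, mem_biUnion] at he
    rcases he with (⟨T, hT, he⟩ | ⟨T, hT, he⟩) | ⟨T, hT, he⟩
    · exact (mem_E.1 he).2
    · exact (mem_E.1 (mem_sdiff.1 he).1).2
    · obtain ⟨p, hp, rfl⟩ := mem_image.1 he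
      have hp' := (hprm _ _ _).1 (mem_of_mem_erase hp)
      exact (mem_E.1 (hoes T p (hQB (hQ2Q hT)) hp'.2.1).1).2
  have hXcard : X.card ≤ 3 * (B \ big).card + 2 * Q.card + 2 * Q2.card := by
    have k1 : ((B \ big).biUnion E).card ≤ 3 * (B \ big).card := by
      refine card_biUnion_le.trans ?_
      rw [sum_congr rfl (fun T hT => card_E (h3B T (mem_sdiff.1 hT).1)), sum_const, smul_eq_mul,
        mul_comm]
    have k2 : (Q.biUnion (fun T => E (pi T) \ {pi T ∩ T})).card ≤ 2 * Q.card := by
      refine card_biUnion_le.trans ?_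
      rw [sum_congr rfl (fun T hT => hsd T (pi T) (hQB hT) (hQpriv T hT)), sum_const, smul_eq_mul,
        mul_comm]
    have k3 : (Q2.biUnion (fun T => ((pr T (pi T ∩ T)).erase (pi T)).image (oe T))).card ≤
        2 * Q2.card := by
      refine card_biUnion_le.trans ?_
      have : ∀ T ∈ Q2, (((pr T (pi T ∩ T)).erase (pi T)).image (oe T)).card ≤ 2 := by
        intro T hT
        have hTQ := hQ2Q hT
        have hTB := hQB hTQ
        have hle : (pr T (pi T ∩ T)).card ≤ 3 := by
          by_contra hcon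
          push Not at hcon
          exact hQbig T hTQ (mem_filter.2 ⟨hTB, _, (hheadE T _ hTB (hQpriv T hTQ)).2, hcon⟩)
        have hmem : pi T ∈ pr T (pi T ∩ T) :=
          (hprm _ _ _).2 ⟨(hQpriv T hTQ).memF, hQpriv T hTQ, rfl⟩
        have h1 : ((pr T (pi T ∩ T)).erase (pi T)).card = (pr T (pi T ∩ T)).card - 1 :=
          card_erase_of_mem hmem
        have h2 : (((pr T (pi T ∩ T)).erase (pi T)).image (oe T)).card ≤
          ((pr T (pi T ∩ T)).erase (pi T)).card := card_image_le
        omega
      refine (sum_le_sum this).trans ?_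
      rw [sum_const, smul_eq_mul, mul_comm]
    have u1 := card_union_le ((B \ big).biUnion E ∪ Q.biUnion (fun T => E (pi T) \ {pi T ∩ T}))
      (Q2.biUnion (fun T => ((pr T (pi T ∩ T)).erase (pi T)).image (oe T)))
    have u2 := card_union_le ((B \ big).biUnion E) (Q.biUnion (fun T => E (pi T) \ {pi T ∩ T}))
    rw [← hX] at u1
    omega
  have hmeet : ∀ t ∈ F, ∃ T ∈ B, ¬ ED t T := by
    intro t ht
    by_contra hcon
    push Not at hcon
    exact replace_false h3 (fun _ _ => Nat.one_pos) hB ht ∅ (empty_subset _)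
      (fun T hT _ => hcon T hT) (fun _ => ∅)
      (fun T hT => absurd hT (notMem_empty T)) (fun T hT => absurd hT (notMem_empty T))
      (fun T hT => absurd hT (notMem_empty T))
  have hXF : ∀ t ∈ F', 2 ≤ (E t ∩ X).card := by
    intro t ht
    obtain ⟨htF, htbig⟩ := mem_filter.1 ht
    obtain ⟨T, hT, hit⟩ := hmeet t htF
    have hTbig : T ∉ big := fun h => hit (htbig T h)
    obtain ⟨e1, he1, he1T⟩ := exists_edge hit
    have hBX : ∀ T' ∈ B, T' ∉ big → ∀ e, e ∈ E T' → e ∈ X := by
      intro T' hT' hb e he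
      rw [hX, mem_union, mem_union]
      left; left
      exact mem_biUnion.2 ⟨T', mem_sdiff.2 ⟨hT', hb⟩, he⟩
    have hQX : ∀ T' ∈ Q, ∀ e, e ∈ E (pi T') → e ≠ pi T' ∩ T' → e ∈ X := by
      intro T' hT' e he hne
      rw [hX, mem_union, mem_union]
      left; right
      refine mem_biUnion.2 ⟨T', hT', ?_⟩
      rw [mem_sdiff, mem_singleton]
      exact ⟨he, hne⟩
    have hQ2X : ∀ T' ∈ Q2, ∀ p, Priv F (fun _ => 1) B T' p → p ≠ pi T' → p ∩ T' = pi T' ∩ T' →
        oe T' p ∈ X := by
      intro T' hT' p hp hne hh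
      rw [hX, mem_union]
      right
      exact mem_biUnion.2 ⟨T', hT', mem_image.2 ⟨p, mem_erase.2 ⟨hne,
        (hprm _ _ _).2 ⟨hp.memF, hp, hh⟩⟩, rfl⟩⟩
    by_contra hcon
    have honly : ∀ e ∈ E t, e ∈ X → e = e1 := by
      intro e he heX
      by_contra hne
      apply hcon
      have : ({e, e1} : Finset (Finset V)) ⊆ E t ∩ X := by
        intro x hx
        rw [mem_insert, mem_singleton] at hx
        rw [mem_inter]
        rcases hx with rfl | rfl
        · exact ⟨he, heX⟩
        · exact ⟨he1, hBX T hT hTbig _ he1T⟩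
      have h1 := card_le_card this
      rw [card_pair hne] at h1
      exact h1
    have htne : t ≠ T := by
      rintro rfl
      have h1 : E t ⊆ {e1} := by
        intro e he
        rw [mem_singleton]
        exact honly e he (hBX t hT hTbig e he)
      have h2 := card_le_card h1
      rw [card_E (h3 t htF), card_singleton] at h2
      omega
    have hpT : Priv F (fun _ => 1) B T t := by
      refine ⟨htF, le_rfl, hit, htne, ?_⟩
      intro T' hT' hne
      by_contra h
      obtain ⟨e', he', heT'⟩ := exists_edge h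
      have hb' : T' ∉ big := fun hb => h (htbig T' hb)
      have := honly e' he' (hBX T' hT' hb' e' heT')
      subst this
      exact hne (hsame T' hT' T hT _ heT' he1T)
    have htT : t ∩ T = e1 := edge_unique (h3B T hT) (h3 t htF) htne he1 he1T
    have htPg : t ∈ Pg := mem_filter.2 ⟨htF, T, mem_sdiff.2 ⟨hT, hTbig⟩, hpT⟩
    obtain ⟨T', hT', hit'⟩ := hQ3 t htPg
    obtain ⟨e2, he2, he2'⟩ := exists_edge hit'
    have hT'B := hQB hT'
    have hp' := hQpriv T' hT'
    have hTT' : T' = T ∧ e2 = e1 ∧ e2 = pi T' ∩ T' := by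
      by_cases hh : e2 = pi T' ∩ T'
      · have h1 : e2 ∈ E T' := by rw [hh]; exact (hheadE T' _ hT'B hp').2
        have h2 := honly e2 he2 (hBX T' hT'B (hQbig T' hT') e2 h1)
        refine ⟨?_, h2, hh⟩
        rw [h2] at h1
        exact hsame T' hT'B T hT e1 h1 he1T
      · exfalso
        have h2 := honly e2 he2 (hQX T' hT' e2 he2' hh)
        rw [h2] at he2' hh
        have h4 : T = T' := by
          by_contra hne
          exact not_ED_of_edge he2' he1T (hp'.ed T hT hne)
        subst h4
        exact hh (edge_unique (h3B T hT) (h3 _ hp'.memF) hp'.ne he2' he1T).symm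
    obtain ⟨rfl, h21, h2h⟩ := hTT'
    by_cases hne : t = pi T'
    · have h5 := hsd T' t hT hpT
      have h6 : (E t \ {t ∩ T'}).Nonempty := by rw [← card_pos, h5]; norm_num
      obtain ⟨e3, he3⟩ := h6
      rw [mem_sdiff, mem_singleton, htT] at he3
      apply he3.2
      apply honly e3 he3.1
      apply hQX T' hT' e3 (hne ▸ he3.1)
      rw [← h2h, h21]
      exact he3.2
    · have hQ2T : T' ∈ Q2 := mem_filter.2 ⟨hT', t, hpT, hne, by rw [htT, ← h2h, h21]⟩
      have h5 := hQ2X T' hQ2T t hpT hne (by rw [htT, ← h2h, h21])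
      have h6 := hoes T' t hT hpT
      apply h6.2
      rw [htT]
      exact honly _ h6.1 h5
  obtain ⟨M', hM'⟩ := exists_MaxP F' (wt X)
  have hII := lemII h3' hX2 hXF hM'
  have hM'card : M'.card + big.card ≤ B.card := by
    have hdis : Disjoint M' big := by
      rw [disjoint_left]
      intro T h1 h2
      exact not_ED_self (h3' T (hM'.pk.1 h1)) ((mem_filter.1 (hM'.pk.1 h1)).2 T h2)
    rw [← card_union_of_disjoint hdis]
    apply hmax
    refine ⟨union_subset (hM'.pk.1.trans (filter_subset _ _)) (hbigB.trans hB.pk.1), ?_⟩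
    intro s hs t ht hst
    rcases mem_union.1 hs with hs | hs <;> rcases mem_union.1 ht with ht | ht
    · exact hM'.pk.2 s hs t ht hst
    · exact (mem_filter.1 (hM'.pk.1 hs)).2 t ht
    · exact ((mem_filter.1 (hM'.pk.1 ht)).2 s hs).symm
    · exact hB.pk.2 s (hbigB hs) t (hbigB ht) hst
  have htau : tau F ≤ 3 * big.card + tau F' := by
    obtain ⟨C', hC', hC'c⟩ := exists_cover h3'
    have hCv : Cv F (big.biUnion E ∪ C') := by
      refine ⟨?_, ?_⟩
      · intro e he
        rcases mem_union.1 he with he | he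
        · obtain ⟨T, _, he⟩ := mem_biUnion.1 he
          exact (mem_E.1 he).2
        · exact hC'.1 e he
      · intro t ht
        by_cases htF' : t ∈ F'
        · obtain ⟨e, he, het⟩ := hC'.2 t htF'
          exact ⟨e, mem_union_right _ he, het⟩
        · rw [hF', mem_filter] at htF'
          push Not at htF'
          obtain ⟨T, hT, hit⟩ := htF' ht
          obtain ⟨e, he, heT⟩ := exists_edge hit
          exact ⟨e, mem_union_left _ (mem_biUnion.2 ⟨T, hT, heT⟩), (mem_E.1 he).1⟩
    have h1 := tau_le hCv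
    have h2 := card_union_le (big.biUnion E) C'
    have k1 : (big.biUnion E).card ≤ 3 * big.card := by
      refine card_biUnion_le.trans ?_
      rw [sum_congr rfl (fun T hT => card_E (h3B T (hbigB hT))), sum_const, smul_eq_mul,
        mul_comm]
    omega
  have hBb : (B \ big).card + big.card = B.card := card_sdiff_add_card_eq_card hbigB
  omega

end Pool.Agent.Lib.MP_136524_co
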